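import Mathlib

/-!
Combinatorics of well-ordered types of order type `ω₁`.
-/

namespace Pool.Agent.Work.MP_0201f6_lc

/-- linear orders of order type `ω₁` -/
class Om1 (W : Type) [LinearOrder W] : Prop where
  ne : Nonempty W
  wf : WellFoundedLT W
  bdd : ∀ f : ℕ → W, ∃ γ, ∀ n, f n < γ
  cnt : ∀ γ : W, (Set.Iio γ).Countable

section

variable {W : Type} [LinearOrder W]

/-- unbounded sets -/
def Unb (Z : Set W) : Prop := ∀ γ, ∃ k ∈ Z, γ < k

/-- limit elements -/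
def Lim (α : W) : Prop := (∃ ξ, ξ < α) ∧ ∀ ξ < α, ∃ ζ, ξ < ζ ∧ ζ < α

variable [Om1 W]

instance (priority := 100) : Nonempty W := Om1.ne

instance (priority := 100) : WellFoundedLT W := Om1.wf

theorem bdd_countable {S : Set W} (hS : S.Countable) : ∃ γ, ∀ x ∈ S, x < γ := by
  rcases S.eq_empty_or_nonempty with h | h
  · obtain ⟨γ⟩ : Nonempty W := inferInstance
    exact ⟨γ, fun x hx => by rw [h] at hx; exact absurd hx (Set.notMem_empty x)⟩
  · obtain ⟨f, hf⟩ := hS.exists_eq_range h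
    obtain ⟨γ, hγ⟩ := Om1.bdd f
    refine ⟨γ, fun x hx => ?_⟩
    rw [hf] at hx
    obtain ⟨n, rfl⟩ := hx
    exact hγ n

theorem exists_gt' (γ : W) : ∃ δ, γ < δ := by
  obtain ⟨δ, h⟩ := Om1.bdd (fun _ => γ)
  exact ⟨δ, h 0⟩

instance (priority := 100) : NoMaxOrder W := ⟨exists_gt'⟩

theorem cnt_Iic (γ : W) : (Set.Iic γ).Countable := by
  obtain ⟨δ, h⟩ := exists_gt' γ
  exact (Om1.cnt δ).mono fun x hx => lt_of_le_of_lt hx h

/-- closing off -/
theorem exists_closed (g : W → W) (b : W) : ∃ ε, Lim ε ∧ b < ε ∧ ∀ δ < ε, g δ < ε := by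
  have h1 : ∀ δ : W, ∃ γ, δ < γ ∧ ∀ x ≤ δ, g x < γ := by
    intro δ
    obtain ⟨γ, hγ⟩ := bdd_countable (((cnt_Iic δ).image g).union (Set.countable_singleton δ))
    exact ⟨γ, hγ δ (Or.inr rfl), fun x hx => hγ _ (Or.inl ⟨x, hx, rfl⟩)⟩
  choose G hG1 hG2 using h1
  let s : ℕ → W := fun n => G^[n] b
  have hs : ∀ n, s (n + 1) = G (s n) := fun n => Function.iterate_succ_apply' G n b
  obtain ⟨γ, hγ⟩ := Om1.bdd s
  have hne : {γ : W | ∀ n, s n < γ}.Nonempty := ⟨γ, hγ⟩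
  let ε := (wellFounded_lt (α := W)).min _ hne
  have hε : ∀ n, s n < ε := (wellFounded_lt (α := W)).min_mem _ hne
  have hmin : ∀ δ < ε, ∃ n, δ ≤ s n := by
    intro δ hδ
    by_contra hcon
    push Not at hcon
    exact (wellFounded_lt (α := W)).not_lt_min {γ : W | ∀ n, s n < γ} hcon hδ
  refine ⟨ε, ⟨⟨b, hε 0⟩, fun ξ hξ => ?_⟩, hε 0, fun δ hδ => ?_⟩
  · obtain ⟨n, hn⟩ := hmin ξ hξ
    refine ⟨s (n + 1), ?_, hε _⟩
    rw [hs]
    exact lt_of_le_of_lt hn (hG1 _)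
  · obtain ⟨n, hn⟩ := hmin δ hδ
    have := hG2 (s n) δ hn
    rw [← hs] at this
    exact this.trans (hε _)

theorem exists_lim (b : W) : ∃ ε, Lim ε ∧ b < ε := by
  obtain ⟨ε, h1, h2, _⟩ := exists_closed id b
  exact ⟨ε, h1, h2⟩

/-- pressing down -/
theorem press (f : W → W) (b : W) (hf : ∀ ε, Lim ε → b < ε → f ε < ε) :
    ∃ δ, Unb {ε | Lim ε ∧ b < ε ∧ f ε = δ} := by
  by_contra hcon
  simp only [Unb, not_exists, not_forall, not_and, not_lt, Set.mem_ofPred_eq] at hcon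
  choose g hg using hcon
  obtain ⟨ε, h1, h2, h3⟩ := exists_closed g b
  exact absurd (hg (f ε) ε ⟨h1, h2, rfl⟩) (not_le.2 (h3 _ (hf ε h1 h2)))

theorem Unb.not_countable {Z : Set W} (hZ : Unb Z) : ¬ Z.Countable := by
  intro h
  obtain ⟨γ, hγ⟩ := bdd_countable h
  obtain ⟨k, hk, h1⟩ := hZ γ
  exact absurd (hγ k hk) (not_lt.2 h1.le)

/-- pigeonhole -/
theorem pigeon {Z : Set W} (hZ : Unb Z) {α : Type*} (f : W → α) (hf : (f '' Z).Countable) :
    ∃ c, Unb {k | k ∈ Z ∧ f k = c} := by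
  by_contra hcon
  simp only [Unb, not_exists, not_forall, not_and, not_lt, Set.mem_ofPred_eq] at hcon
  choose g hg using hcon
  obtain ⟨γ, hγ⟩ := bdd_countable (hf.image g)
  obtain ⟨k, hk, h1⟩ := hZ γ
  exact absurd (hg (f k) k ⟨hk, rfl⟩) (not_le.2 ((hγ _ ⟨_, ⟨k, hk, rfl⟩, rfl⟩).trans h1))

omit [Om1 W] in
theorem Unb.mono {Z Z' : Set W} (h : Unb Z) (h' : Z ⊆ Z') : Unb Z' := fun γ => by
  obtain ⟨k, hk, h1⟩ := h γ
  exact ⟨k, h' hk, h1⟩

/-- thinning out -/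
theorem thin {Z : Set W} (hZ : Unb Z) (g : W → W) :
    ∃ Z' ⊆ Z, Unb Z' ∧ ∀ k ∈ Z', ∀ k' ∈ Z', k < k' → g k < k' := by
  obtain ⟨A, hA⟩ := zorn_subset {A : Set W | A ⊆ Z ∧ ∀ k ∈ A, ∀ k' ∈ A, k < k' → g k < k'} (by
    intro C hC hch
    refine ⟨⋃₀ C, ⟨?_, ?_⟩, fun s hs => Set.subset_sUnion_of_mem hs⟩
    · rintro p ⟨s, hs, hp⟩
      exact (hC hs).1 hp
    · rintro p ⟨s, hs, hp⟩ q ⟨t, ht, hq⟩ hpq
      rcases hch.total hs ht with h | h
      · exact (hC ht).2 p (h hp) q hq hpq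
      · exact (hC hs).2 p hp q (h hq) hpq)
  refine ⟨A, hA.prop.1, fun γ => ?_, hA.prop.2⟩
  by_contra hcon
  push Not at hcon
  have h1 : A.Countable := (cnt_Iic γ).mono fun x hx => hcon x hx
  obtain ⟨δ, hδ⟩ := bdd_countable (h1.image g)
  obtain ⟨k', hk', h2⟩ := hZ (max γ δ)
  have h3 : insert k' A ∈ {A : Set W | A ⊆ Z ∧ ∀ k ∈ A, ∀ k' ∈ A, k < k' → g k < k'} := by
    refine ⟨Set.insert_subset hk' hA.prop.1, ?_⟩
    intro p hp q hq hpq
    rcases Set.mem_insert_iff.1 hp with e1 | hp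
    · rcases Set.mem_insert_iff.1 hq with e2 | hq
      · rw [e1, e2] at hpq
        exact absurd hpq (lt_irrefl _)
      · have := hcon q hq
        rw [e1] at hpq
        exact absurd hpq (not_lt.2 (this.trans ((le_max_left γ δ).trans h2.le)))
    · rcases Set.mem_insert_iff.1 hq with e2 | hq
      · rw [e2]
        exact (hδ _ ⟨p, hp, rfl⟩).trans ((le_max_right γ δ).trans_lt h2)
      · exact hA.prop.2 p hp q hq hpq
  have h4 : k' ∈ A := hA.le_of_ge h3 (Set.subset_insert k' A) (Set.mem_insert k' A)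
  exact absurd (hcon k' h4) (not_le.2 ((le_max_left γ δ).trans_lt h2))

theorem bdd_finset (s : Finset W) : ∃ γ, ∀ x ∈ s, x < γ :=
  bdd_countable s.countable_toSet

/-- the Δ-system lemma -/
theorem delta {Z : Set W} (hZ : Unb Z) {ι : Type*} (F : W → Finset ι) :
    ∃ J : Finset ι, ∃ Z' ⊆ Z, Unb Z' ∧ (∀ k ∈ Z', J ⊆ F k) ∧
      ∀ k ∈ Z', ∀ k' ∈ Z', k < k' → ∀ i ∈ F k, i ∈ F k' → i ∈ J := by
  classical
  obtain ⟨n, hn⟩ := pigeon hZ (fun k => (F k).card) (Set.to_countable _)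
  let P : ℕ → Prop := fun m => ∃ J : Finset ι, J.card = m ∧
    Unb {k | k ∈ {k | k ∈ Z ∧ (F k).card = n} ∧ J ⊆ F k}
  have h0 : P 0 := ⟨∅, rfl, hn.mono fun k hk => ⟨hk, Finset.empty_subset _⟩⟩
  have hle : ∀ m, P m → m ≤ n := by
    rintro m ⟨J, hJ, h1⟩
    obtain ⟨γ⟩ : Nonempty W := inferInstance
    obtain ⟨k, ⟨hk, h2⟩, _⟩ := h1 γ
    rw [← hJ, ← hk.2]
    exact Finset.card_le_card h2
  obtain ⟨J, hJ, h1⟩ := Nat.findGreatest_spec (P := P) (Nat.zero_le n) h0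
  set m := Nat.findGreatest P n with hm
  have h2 : ∀ x : ι, x ∉ J → ∃ b, ∀ k, k ∈ Z → (F k).card = n → J ⊆ F k → x ∈ F k → k ≤ b := by
    intro x hx
    by_contra hcon
    push Not at hcon
    have h3 : P (m + 1) := by
      refine ⟨insert x J, by rw [Finset.card_insert_of_notMem hx, hJ], fun γ => ?_⟩
      obtain ⟨k, h4, h5, h6, h7, h8⟩ := hcon γ
      exact ⟨k, ⟨⟨h4, h5⟩, Finset.insert_subset h7 h6⟩, h8⟩
    have h4 : m + 1 ≤ m := Nat.le_findGreatest (hle _ h3) h3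
    omega
  obtain ⟨γ₀⟩ : Nonempty W := inferInstance
  have h3 : ∀ x : ι, ∃ b, x ∉ J → ∀ k, k ∈ Z → (F k).card = n → J ⊆ F k → x ∈ F k → k ≤ b := by
    intro x
    by_cases hx : x ∈ J
    · exact ⟨γ₀, fun h => absurd hx h⟩
    · obtain ⟨b, hb⟩ := h2 x hx
      exact ⟨b, fun _ => hb⟩
  choose b hb using h3
  have h4 : ∀ k, ∃ γ, ∀ x ∈ F k, b x < γ := by
    intro k
    obtain ⟨γ, hγ⟩ := bdd_finset ((F k).image b)
    exact ⟨γ, fun x hx => hγ _ (Finset.mem_image_of_mem _ hx)⟩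
  choose g hg using h4
  obtain ⟨Z', hZ', hU, hT⟩ := thin h1 g
  refine ⟨J, Z', fun k hk => (hZ' hk).1.1, hU, fun k hk => (hZ' hk).2, ?_⟩
  intro k hk k' hk' hkk i hi hi'
  by_contra hiJ
  have h5 := hb i hiJ k' (hZ' hk').1.1 (hZ' hk').1.2 (hZ' hk').2 hi'
  exact absurd ((hg k i hi).trans (hT k hk k' hk' hkk)) (not_lt.2 h5)

/-- avoiding finite sets -/
theorem avoid {Z : Set W} (hZ : Unb Z) (A : W → Finset W) :
    ∃ c, ∀ ε, c < ε → Unb {k | k ∈ Z ∧ ε ∉ A k} := by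
  by_contra hcon
  simp only [Unb, not_exists, not_forall, not_and, not_lt, Set.mem_ofPred_eq] at hcon
  choose e he g hg using hcon
  obtain ⟨b⟩ : Nonempty W := inferInstance
  let s : ℕ → W := fun n => e^[n + 1] b
  have hs : ∀ n, s (n + 1) = e (s n) := fun n => Function.iterate_succ_apply' e (n + 1) b
  have hs0 : ∀ n, ∃ c, s n = e c := fun n => ⟨e^[n] b, Function.iterate_succ_apply' e n b⟩
  choose c hc using hs0
  have hmono : StrictMono s := strictMono_nat_of_lt_succ fun n => by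
    rw [hs]
    exact he _
  obtain ⟨γ, hγ⟩ := Om1.bdd (fun n => g (c n))
  obtain ⟨k, hk, h1⟩ := hZ γ
  have h2 : ∀ n, s n ∈ (A k : Set W) := by
    intro n
    by_contra h3
    rw [hc n] at h3
    exact absurd ((hγ n).trans h1) (not_lt.2 (hg (c n) k ⟨hk, h3⟩))
  exact Set.infinite_of_injective_forall_mem hmono.injective h2 (A k).finite_toSet

end

theorem countable_finsets {α : Type*} {N : Set α} (hN : N.Countable) :
    {s : Finset α | (s : Set α) ⊆ N}.Countable := by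
  have h := Set.countable_ofPred_finite_subset hN
  refine Set.countable_of_injective_of_countable_image (f := fun s : Finset α => (s : Set α))
    (fun s _ t _ h => Finset.coe_injective h) (h.mono ?_)
  rintro _ ⟨s, hs, rfl⟩
  exact ⟨s.finite_toSet, hs⟩

/-- names of nodes: level and finite modification -/
abbrev Nd (W : Type) := W × (W →₀ ℕ)

theorem countable_names {W : Type} [LinearOrder W] [Om1 W] (γ : W) :
    {σ : Nd W | σ.1 < γ ∧ ∀ ξ, σ.2 ξ ≠ 0 → ξ < γ}.Countable := by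
  have h1 : {h : W →₀ ℕ | ∀ ξ, h ξ ≠ 0 → ξ < γ}.Countable := by
    have : Countable (Set.Iio γ) := (Om1.cnt γ).to_subtype
    have hinj : Set.InjOn (fun h : W →₀ ℕ => h.subtypeDomain (fun x => x ∈ Set.Iio γ))
        {h : W →₀ ℕ | ∀ ξ, h ξ ≠ 0 → ξ < γ} := by
      intro h hh h' hh' heq
      ext ξ
      by_cases hξ : ξ < γ
      · have := DFunLike.congr_fun heq (⟨ξ, hξ⟩ : {x // x ∈ Set.Iio γ})
        simpa using this
      · have e1 : h ξ = 0 := by
          by_contra hne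
          exact hξ (hh ξ hne)
        have e2 : h' ξ = 0 := by
          by_contra hne
          exact hξ (hh' ξ hne)
        rw [e1, e2]
    exact Set.countable_of_injective_of_countable_image hinj (Set.to_countable _)
  refine ((Om1.cnt γ).prod h1).mono ?_
  rintro σ ⟨h2, h3⟩
  exact Set.mem_prod.2 ⟨h2, h3⟩

end Pool.Agent.Work.MP_0201f6_lc
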