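import Pool.Agent.Work.MP_0201f6_lc.A9

/-!
Consequences of strong amalgamation.
-/

namespace Pool.Agent.Work.MP_0201f6_lc

open Pool.Agent.Work.MP_6efb98_lc (RO CCC)
open Pool.Agent.Work.MP_0201f6_lc_helper21 (W Node sv F1 F0)

open Pool.Agent.Work.MP_0201f6_lc_helper21 renaming le → lle

variable {C : W → Set W} [Om1 W]

theorem amalg (hb : SapBase W) (hC : Cd.Ladder C) (p : W → Pt C) (s t : W → Node)
    (hs : ∀ k, RK (p k) (s k) ∧ k ≤ (s k).1) (ht : ∀ k, RK (p k) (t k) ∧ k ≤ (t k).1) :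
    ∃ k k', k < k' ∧ (s k).1 < k' ∧ ∃ q, q ≤ p k ∧ q ≤ p k' ∧
      q ∈ lle (XV C false) (s k) (s k') ∧ ∀ r ≤ q, r ∉ lle (XV C true) (t k) (t k') ∧
        r ∉ lle (XV C true) (t k') (t k) := by
  choose s' hs1 hs2 hs3 hs4 using fun k => exists_reduced (hs k).1 false
  choose t' ht1 ht2 ht3 ht4 using fun k => exists_reduced (ht k).1 true
  have hU : Unb (Set.univ : Set W) := fun γ => by
    obtain ⟨δ, hδ⟩ := exists_gt' γ
    exact ⟨δ, Set.mem_univ _, hδ⟩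
  obtain ⟨k, _, k', _, hlt, q, η, hO⟩ := Cd.sap hb hC (ι := Unit) hU (fun k => (p k).1)
    (fun k _ => s' k) (fun k _ => t' k) s' (fun k _ => (p k).2)
    (fun k _ _ => ⟨hs2 k, by rw [hs1]; exact (hs k).2⟩)
    (fun k _ _ => ⟨ht2 k, by rw [ht1]; exact (ht k).2⟩)
    (fun k _ => ⟨hs2 k, by rw [hs1]; exact (hs k).2⟩) id
  let q' : Pt C := ⟨q, hO.val⟩
  have hq : q' ≤ p k := hO.le
  have hq' : q' ≤ p k' := hO.le'
  refine ⟨k, k', hlt, ?_, q', hq, hq', ?_, ?_⟩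
  · rw [← hs1]
    exact hO.slt
  · have h1 : q' ∈ lle (XV C false) (s' k) (s' k') :=
      (mem_lle ((rk_of_kn (hs2 k)).mono hq) ((rk_of_kn (hs2 k')).mono hq')).2 hO.S2
    exact lle_trans (RO.down (hs3 k) hq) (lle_trans h1 (RO.down (hs4 k') hq'))
  · intro r hr
    obtain ⟨ξ, hξ, hle, hne⟩ := hO.T2 () ()
    have hξk : ξ < (t' k).1 := by
      rw [ht1]
      exact (hle.trans_lt hO.lt).trans_le (ht k).2
    have hξk' : ξ < (t' k').1 := by
      rw [ht1]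
      exact ((hle.trans_lt hO.lt).trans hlt).trans_le (ht k').2
    have ht2q := (ht2 k).mono hq.bs
    have ht2q' := (ht2 k').mono hq'.bs
    have hne' : r.1.bs.vl true (t' k) ξ ≠ r.1.bs.vl true (t' k') ξ := by
      rw [vl_mono' hr ht2q.1 hξ hξk, vl_mono' hr ht2q'.1 hξ hξk']
      exact hne
    have hrk := (rk_of_kn ht2q : RK q' (t' k)).mono hr
    have hrk' := (rk_of_kn ht2q' : RK q' (t' k')).mono hr
    constructor
    · intro h
      have h1 : r ∈ lle (XV C true) (t' k) (t' k') :=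
        lle_trans (RO.down (ht4 k) (hr.trans hq)) (lle_trans h (RO.down (ht3 k') (hr.trans hq')))
      exact hne' (((mem_lle hrk hrk').1 h1).2.2 ξ (hr.bs.u hξ) hξk)
    · intro h
      have h1 : r ∈ lle (XV C true) (t' k') (t' k) :=
        lle_trans (RO.down (ht4 k') (hr.trans hq')) (lle_trans h (RO.down (ht3 k) (hr.trans hq)))
      exact hne' (((mem_lle hrk' hrk).1 h1).2.2 ξ (hr.bs.u hξ) hξk').symm

/-- uncountable sets contain an injective family -/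
theorem exists_family {α : Type} {A : Set α} (hA : ¬ A.Countable) :
    ∃ f : W → α, (∀ k, f k ∈ A) ∧ Function.Injective f := by
  rw [Cardinal.countable_iff_lt_aleph_one, not_lt] at hA
  have h1 : Cardinal.mk W ≤ Cardinal.mk A := by
    refine le_trans (le_of_eq ?_) hA
    show Cardinal.mk (Cardinal.aleph (0 + 1)).ord.ToType = _
    rw [Cardinal.mk_ord_toType, zero_add]
  obtain ⟨f⟩ := h1
  exact ⟨fun k => (f k).1, fun k => (f k).2, fun k k' h => f.injective (Subtype.ext h)⟩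

theorem countable_incompat (hb : SapBase W) (hC : Cd.Ladder C) (A : Set (Pt C))
    (h : ∀ p ∈ A, ∀ q ∈ A, p ≠ q → ¬ ∃ r, r ≤ p ∧ r ≤ q) : A.Countable := by
  by_contra hA
  obtain ⟨f, hf, hinj⟩ := exists_family hA
  have h1 : ∀ k : W, ∃ q ≤ f k, RK q ((k, 0) : Node) := fun k => exists_rk _ _
  choose g hg hg' using h1
  obtain ⟨k, k', hlt, _, q, hq, hq', _⟩ := amalg hb hC g (fun k => (k, 0)) (fun k => (k, 0))
    (fun k => ⟨hg' k, le_rfl⟩) (fun k => ⟨hg' k, le_rfl⟩)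
  exact h _ (hf k) _ (hf k') (fun h => absurd (hinj h) hlt.ne)
    ⟨q, hq.trans (hg k), hq'.trans (hg k')⟩

theorem ro_ccc (hb : SapBase W) (hC : Cd.Ladder C) : CCC (RO (Pt C)) := by
  intro A h0 h1
  have h2 : ∀ a : A, ∃ p, p ∈ a.1 := by
    intro a
    by_contra h
    push Not at h
    exact h0 a.1 a.2 (RO.ext fun p => ⟨fun hp => absurd hp (h p),
      fun hp => absurd hp (RO.notMem_bot p)⟩)
  choose f hf using h2
  have h3 : ∀ a b : A, a ≠ b → ¬ ∃ r, r ≤ f a ∧ r ≤ f b := by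
    rintro a b hab ⟨r, hr, hr'⟩
    have h4 : r ∈ a.1 ⊓ b.1 := RO.mem_inf.2 ⟨RO.down (hf a) hr, RO.down (hf b) hr'⟩
    rw [h1 a.1 a.2 b.1 b.2 (fun h => hab (Subtype.ext h))] at h4
    exact RO.notMem_bot r h4
  have h4 : (Set.range f).Countable := by
    apply countable_incompat hb hC
    rintro _ ⟨a, rfl⟩ _ ⟨b, rfl⟩ hab
    exact h3 a b (fun h => hab (by rw [h]))
  have h5 : Function.Injective f := by
    intro a b hab
    by_contra hne
    exact h3 a b hne ⟨f a, le_rfl, hab ▸ le_rfl⟩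
  have h6 : (Set.univ : Set A).Countable := by
    apply Set.countable_of_injective_of_countable_image (f := f) h5.injOn
    rw [Set.image_univ]
    exact h4
  exact Set.countable_coe_iff.1 (Set.countable_univ_iff.1 h6)

/-- a condition outside a regular open set has an extension which is incompatible with it -/
theorem exists_out {U : RO (Pt C)} {p : Pt C} (h : p ∉ U) : ∃ q ≤ p, ∀ r ≤ q, r ∉ U := by
  by_contra hcon
  push Not at hcon
  exact h (RO.mem_iff.2 fun q hq => by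
    obtain ⟨r, hr, h1⟩ := hcon q hq
    exact ⟨r, hr, h1⟩)

/-- statements decided densely are decided at a level -/
theorem exists_level (hb : SapBase W) (hC : Cd.Ladder C) (D : Node → RO (Pt C))
    (hup : ∀ s s' p, p ∈ D s → p ∈ lle (XV C false) s s' → p ∈ D s')
    (hd : ∀ p s, ∃ q ≤ p, ∃ s', q ∈ lle (XV C false) s s' ∧ q ∈ D s') :
    ∃ γ, ∀ s : Node, γ ≤ s.1 → ∀ p, p ∈ D s := by
  by_contra hcon
  push Not at hcon
  choose s hs p hp using hcon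
  choose q hq hq' using fun k => exists_out (hp k)
  choose r hr s' hs' hD using fun k => hd (q k) (s k)
  choose r' hr' hrk using fun k => exists_rk (r k) (s' k)
  have hlev : ∀ k, k ≤ (s' k).1 := fun k => (hs k).trans (lle_level (hs' k))
  obtain ⟨k, k', hlt, hslt, z, hz, hz', hle, _⟩ := amalg hb hC r' s' s'
    (fun k => ⟨hrk k, hlev k⟩) (fun k => ⟨hrk k, hlev k⟩)
  have h1 : z ∈ lle (XV C false) (s k') (s' k') := RO.down (hs' k') (hz'.trans (hr' k'))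
  have h2 : z ∈ lle (XV C false) (s' k) (s k') :=
    lle_of_lle hle h1 (hslt.le.trans (hs k'))
  exact hq' k' z ((hz'.trans (hr' k')).trans (hr k'))
    (hup _ _ z (RO.down (hD k) (hz.trans (hr' k))) h2)

theorem suslin (hb : SapBase W) (hC : Cd.Ladder C) (X : Node → RO (Pt C)) :
    (⨅ s, ⨅ t, (X s ⊓ X t ⊓ lle (XV C false) s t ⇨ lle (XV C false) t s)) ⊓
    (⨅ γ : W, ⨆ s : Node, ⨆ _ : γ ≤ s.1, X s) = ⊥ := by
  refine RO.ext fun p => ⟨fun h => ?_, fun h => absurd h (RO.notMem_bot p)⟩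
  exfalso
  obtain ⟨h1, h2⟩ := RO.mem_inf.1 h
  have h3 : ∀ k : W, ∃ q ≤ p, ∃ s : Node, k ≤ s.1 ∧ q ∈ X s ∧ RK q s := by
    intro k
    obtain ⟨q, hq, s, hs, hX⟩ := RO.mem_iSup₂.1 (RO.mem_iInf.1 h2 k) p le_rfl
    obtain ⟨r, hr, hrk⟩ := exists_rk q s
    exact ⟨r, hr.trans hq, s, hs, RO.down hX hr, hrk⟩
  choose q hq s hs hX hrk using h3
  obtain ⟨k, k', hlt, hslt, z, hz, hz', hle, _⟩ := amalg hb hC q s s
    (fun k => ⟨hrk k, hs k⟩) (fun k => ⟨hrk k, hs k⟩)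
  have h4 := RO.mem_himp.1 (RO.mem_iInf.1 (RO.mem_iInf.1 h1 (s k)) (s k')) z (hz.trans (hq k))
    (RO.mem_inf.2 ⟨RO.mem_inf.2 ⟨RO.down (hX k) hz, RO.down (hX k') hz'⟩, hle⟩)
  exact absurd (lle_level h4) (not_le.2 (hslt.trans_le (hs k')))

theorem aron (hb : SapBase W) (hC : Cd.Ladder C) (X : Node → Node → RO (Pt C)) (s₀ : Node) :
    (⨅ s, ⨅ t, ⨅ s', ⨅ t', (lle (XV C false) s₀ s ⊓ lle (XV C false) s s' ⊓ X s t ⊓ X s' t' ⇨
      lle (XV C true) t t' ⊔ lle (XV C true) t' t)) ⊓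
    (⨅ s, ⨅ γ : W, (lle (XV C false) s₀ s ⇨ ⨆ s', ⨆ t : Node, ⨆ _ : γ ≤ t.1,
      lle (XV C false) s s' ⊓ X s' t)) = ⊥ := by
  refine RO.ext fun p => ⟨fun h => ?_, fun h => absurd h (RO.notMem_bot p)⟩
  exfalso
  obtain ⟨h1, h2⟩ := RO.mem_inf.1 h
  have h3 : ∀ k : W, ∃ q ≤ p, ∃ s t : Node, k ≤ s.1 ∧ k ≤ t.1 ∧ q ∈ lle (XV C false) s₀ s ∧
      q ∈ X s t ∧ RK q s ∧ RK q t := by
    intro k
    obtain ⟨β, hβ⟩ := exists_gt' (max k s₀.1)
    have h4 : p ∈ (⨆ t : Node, ⨆ _ : t.1 = β, lle (XV C false) s₀ t ⊓ sv (XV C false) t s₀.1 0) := by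
      rw [xv_ext false s₀ β 0 ((le_max_right _ _).trans_lt hβ)]
      exact RO.mem_top p
    obtain ⟨q, hq, s, hs, h5⟩ := RO.mem_iSup₂.1 h4 p le_rfl
    have h6 := (RO.mem_inf.1 h5).1
    have h7 := RO.mem_himp.1 (RO.mem_iInf.1 (RO.mem_iInf.1 h2 s) k) q hq h6
    obtain ⟨r, hr, s', h8⟩ := RO.mem_iSup.1 h7 q le_rfl
    obtain ⟨r', hr', t, ht, h9⟩ := RO.mem_iSup₂.1 h8 r le_rfl
    obtain ⟨h10, h11⟩ := RO.mem_inf.1 h9
    obtain ⟨z, hz, hzs⟩ := exists_rk r' s'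
    obtain ⟨z', hz', hzt⟩ := exists_rk z t
    have hz'r : z' ≤ r' := hz'.trans hz
    have hz'q : z' ≤ q := hz'r.trans (hr'.trans hr)
    refine ⟨z', hz'q.trans hq, s', t, ?_, ht, lle_trans (RO.down h6 hz'q) (RO.down h10 hz'r),
      RO.down h11 hz'r, hzs.mono hz', hzt⟩
    have h12 := lle_level h10
    rw [hs] at h12
    exact ((le_max_left _ _).trans hβ.le).trans h12
  choose q hq s t hs ht hss hX hrs hrt using h3
  obtain ⟨k, k', hlt, hslt, z, hz, hz', hle, hT⟩ := amalg hb hC q s t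
    (fun k => ⟨hrs k, hs k⟩) (fun k => ⟨hrt k, ht k⟩)
  have h4 := RO.mem_himp.1 (RO.mem_iInf.1 (RO.mem_iInf.1 (RO.mem_iInf.1 (RO.mem_iInf.1 h1 (s k))
    (t k)) (s k')) (t k')) z (hz.trans (hq k))
    (RO.mem_inf.2 ⟨RO.mem_inf.2 ⟨RO.mem_inf.2 ⟨RO.down (hss k) hz, hle⟩, RO.down (hX k) hz⟩,
      RO.down (hX k') hz'⟩)
  obtain ⟨r, hr, h5 | h5⟩ := RO.mem_sup.1 h4 z le_rfl
  · exact (hT r hr).1 h5
  · exact (hT r hr).2 h5

/-- countable names for regular open sets -/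
theorem exists_name (hb : SapBase W) (hC : Cd.Ladder C) (U : RO (Pt C)) :
    ∃ (d : ℕ → Prop) (c : ℕ → Pt C), (∀ j, d j → c j ∈ U) ∧
      ∀ q ∈ U, ∃ r ≤ q, ∃ j, d j ∧ r ≤ c j := by
  obtain ⟨A, hA⟩ := zorn_subset {A : Set (Pt C) | (∀ p ∈ A, p ∈ U) ∧
      ∀ p ∈ A, ∀ q ∈ A, p ≠ q → ¬ ∃ r, r ≤ p ∧ r ≤ q} (by
    intro D hD hch
    refine ⟨⋃₀ D, ⟨?_, ?_⟩, fun s hs => Set.subset_sUnion_of_mem hs⟩
    · rintro p ⟨s, hs, hp⟩
      exact (hD hs).1 p hp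
    · rintro p ⟨s, hs, hp⟩ q ⟨t, ht, hq⟩ hpq
      rcases hch.total hs ht with h | h
      · exact (hD ht).2 p (h hp) q hq hpq
      · exact (hD hs).2 p hp q (h hq) hpq)
  have hcount : A.Countable := countable_incompat hb hC A hA.prop.2
  have hpre : ∀ q ∈ U, ∃ r ≤ q, ∃ a ∈ A, r ≤ a := by
    intro q hq
    by_contra hcon
    push Not at hcon
    have h1 : insert q A ∈ {A : Set (Pt C) | (∀ p ∈ A, p ∈ U) ∧
      ∀ p ∈ A, ∀ q ∈ A, p ≠ q → ¬ ∃ r, r ≤ p ∧ r ≤ q} := by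
      refine ⟨?_, ?_⟩
      · intro p hp
        rcases Set.mem_insert_iff.1 hp with rfl | hp
        · exact hq
        · exact hA.prop.1 p hp
      · intro p hp p' hp' hne ⟨r, hr, hr'⟩
        rcases Set.mem_insert_iff.1 hp with h1 | h1
        · rcases Set.mem_insert_iff.1 hp' with h2 | h2
          · exact hne (h1.trans h2.symm)
          · exact hcon r (h1 ▸ hr) p' h2 hr'
        · rcases Set.mem_insert_iff.1 hp' with h2 | h2
          · exact hcon r (h2 ▸ hr') p h1 hr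
          · exact hA.prop.2 p h1 p' h2 hne ⟨r, hr, hr'⟩
    have h2 : q ∈ A := hA.le_of_ge h1 (Set.subset_insert q A) (Set.mem_insert q A)
    exact hcon q le_rfl q h2 le_rfl
  rcases Set.eq_empty_or_nonempty A with hE | hE
  · have p0 : Pt C := ⟨Cd.emp ⟨∅, ∅, fun _ _ _ => 0, 0⟩, Cd.emp_valid _⟩
    refine ⟨fun _ => False, fun _ => p0, fun j h => h.elim, fun q hq => ?_⟩
    obtain ⟨r, _, a, ha, _⟩ := hpre q hq
    rw [hE] at ha
    exact absurd ha (Set.notMem_empty _)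
  · obtain ⟨e, he⟩ := hcount.exists_eq_range hE
    refine ⟨fun _ => True, e, fun j _ => hA.prop.1 _ (he ▸ Set.mem_range_self j), fun q hq => ?_⟩
    obtain ⟨r, hr, a, ha, hra⟩ := hpre q hq
    rw [he] at ha
    obtain ⟨j, rfl⟩ := ha
    exact ⟨r, hr, j, trivial, hra⟩

end Pool.Agent.Work.MP_0201f6_lc
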