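import Pool.Agent.Work.MP_0201f6_lc.A10

/-!
Coding of colourings by indices; uniformization.
-/

namespace Pool.Agent.Work.MP_0201f6_lc

open Pool.Agent.Work.MP_6efb98_lc (RO CCC)
open Pool.Agent.Work.MP_0201f6_lc_helper21 (W Node sv F1 F0)

open Pool.Agent.Work.MP_0201f6_lc_helper21 renaming le → lle

variable {C : W → Set W}

/-- the list of the support -/
noncomputable def sl (p : Cd W) : List (Ix W) := p.fin.toFinset.toList

theorem mem_sl {p : Cd W} {i : Ix W} : i ∈ sl p ↔ p.K i ≠ ∅ ∨ p.φ i ≠ ∅ := by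
  unfold sl
  rw [Finset.mem_toList, Set.Finite.mem_toFinset]
  exact Iff.rfl

/-- index coding a family of sequences of conditions; the colour is `1` -/
noncomputable def code (e : EF W) (d : Ar W → Prop) (c : Ar W → Cd W) : Ix W :=
  .mk e d (fun _ => 1) (fun a => (c a).bs) (fun a => (sl (c a)).length)
    (fun a l => (sl (c a)).getD l .base)
    (fun a l => (c a).K ((sl (c a)).getD l .base))
    (fun a l => (c a).φ ((sl (c a)).getD l .base))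

theorem meets_iff (c : Ar W → Cd W) (q : Cd W) (a : Ar W) :
    Cd.Meets C q (fun a => (c a).bs) (fun a => (sl (c a)).length)
      (fun a l => (sl (c a)).getD l .base)
      (fun a l => (c a).K ((sl (c a)).getD l .base))
      (fun a l => (c a).φ ((sl (c a)).getD l .base)) a ↔ Cd.Le C q (c a) := by
  constructor
  · rintro ⟨h1, h2⟩
    refine ⟨h1, fun i => ?_⟩
    by_cases hi : i ∈ sl (c a)
    · obtain ⟨l, hl, rfl⟩ := List.getElem_of_mem hi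
      have h3 := h2 l hl
      simp only [List.getD_eq_getElem _ _ hl] at h3
      exact h3
    · rw [mem_sl] at hi
      push Not at hi
      rw [hi.1, hi.2]
      exact ⟨Finset.empty_subset _, Finset.empty_subset _,
        fun x hx => absurd hx (Finset.notMem_empty _)⟩
  · intro h
    exact ⟨h.bs, fun l _ => h.at' _⟩

theorem force_code {e : EF W} {d : Ar W → Prop} {c : Ar W → Cd W} {q : Cd W} {ρ : Nd W}
    {α ξ : W} {n : ℕ} (h : Cd.Force C q (code e d c) ρ α ξ n) :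
    (n = 1 ∧ ∃ k, d (ρ, α, ξ, k) ∧ Cd.Le C q (c (ρ, α, ξ, k))) ∨
    (n = 0 ∧ ∀ r : Cd W, Cd.Valid C r → Cd.Le C r q →
      ∀ k, d (ρ, α, ξ, k) → ¬ Cd.Le C r (c (ρ, α, ξ, k))) := by
  unfold code at h
  rw [Cd.force_mk] at h
  rcases h with ⟨k, hk, hn, hM⟩ | ⟨hn, h1⟩
  · exact Or.inl ⟨hn, k, hk, (meets_iff c q _).1 hM⟩
  · exact Or.inr ⟨hn, fun r hr hrq k hk hle => h1 r hr hrq.bs (hrq.lb _) k hk
      ((meets_iff c r _).2 hle)⟩

theorem F1_up {Y : Node → W → W → RO (Pt C)} {s s' : Node} {α ξ : W} {p : Pt C}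
    (h : p ∈ F1 (XV C false) Y s α ξ) (h' : p ∈ lle (XV C false) s s') :
    p ∈ F1 (XV C false) Y s' α ξ := by
  unfold F1 at h ⊢
  refine RO.mem_iInf.2 fun t => RO.mem_himp.2 fun q hq ht => ?_
  exact RO.mem_himp.1 (RO.mem_iInf.1 h t) q hq (lle_trans (RO.down h' hq) ht)

theorem F0_up {Y : Node → W → W → RO (Pt C)} {s s' : Node} {α ξ : W} {p : Pt C}
    (h : p ∈ F0 (XV C false) Y s α ξ) (h' : p ∈ lle (XV C false) s s') :
    p ∈ F0 (XV C false) Y s' α ξ := by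
  unfold F0 at h ⊢
  refine RO.mem_iInf.2 fun t => RO.mem_himp.2 fun q hq ht => ?_
  exact RO.mem_himp.1 (RO.mem_iInf.1 h t) q hq (lle_trans (RO.down h' hq) ht)

theorem F_dense (Y : Node → W → W → RO (Pt C)) (α ξ : W) (p : Pt C) (s : Node) :
    ∃ q ≤ p, ∃ s', q ∈ lle (XV C false) s s' ∧
      q ∈ F1 (XV C false) Y s' α ξ ⊔ F0 (XV C false) Y s' α ξ := by
  by_cases h : ∃ q ≤ p, ∃ s', q ∈ lle (XV C false) s s' ∧ q ∈ F0 (XV C false) Y s' α ξ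
  · obtain ⟨q, hq, s', h1, h2⟩ := h
    exact ⟨q, hq, s', h1, RO.mem_sup.2 fun r hr => ⟨r, le_rfl, Or.inr (RO.down h2 hr)⟩⟩
  · push Not at h
    refine ⟨p, le_rfl, s, lle_refl p false s, RO.mem_sup.2 fun r hr => ⟨r, le_rfl, Or.inl ?_⟩⟩
    unfold F1
    refine RO.mem_iInf.2 fun t => RO.mem_himp.2 fun q hq ht => RO.mem_iSup.2 fun q' hq' => ?_
    have h1 : q' ∉ F0 (XV C false) Y t α ξ :=
      h q' (hq'.trans (hq.trans hr)) t (RO.down ht hq')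
    unfold F0 at h1
    rw [RO.mem_iInf] at h1
    push Not at h1
    obtain ⟨t', ht'⟩ := h1
    rw [RO.mem_himp] at ht'
    push Not at ht'
    obtain ⟨z, hz, hzl, hzY⟩ := ht'
    rw [RO.mem_compl] at hzY
    push Not at hzY
    obtain ⟨z', hz', hY⟩ := hzY
    exact ⟨z', hz'.trans hz, t', RO.mem_inf.2 ⟨RO.down hzl hz', hY⟩⟩

theorem isSuccLimit_iff {α : W} : Order.IsSuccLimit α ↔ Lim α := by
  constructor
  · intro h
    refine ⟨?_, fun ξ hξ => ?_⟩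
    · by_contra hcon
      push Not at hcon
      exact h.1 fun b _ => hcon b
    · by_contra hcon
      push Not at hcon
      exact h.2 ξ ⟨hξ, fun c hc hc' => absurd hc' (not_lt.2 (hcon c hc))⟩
  · rintro ⟨⟨ξ, hξ⟩, h⟩
    refine ⟨fun hmin => absurd (hmin hξ.le) (not_le.2 hξ), fun b hb => ?_⟩
    obtain ⟨ζ, h1, h2⟩ := h b hb.1
    exact hb.2 h1 h2

variable [Om1 W]

theorem exists_EF (f : W → W) : ∃ e : EF W, ∀ α, f α ≤ e.e α := by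
  have h1 : ∀ α : W, {γ : W | ∀ ξ ≤ α, f ξ ≤ γ ∧ ξ ≤ γ}.Nonempty := by
    intro α
    obtain ⟨γ, hγ⟩ := bdd_countable (((cnt_Iic α).image f).union (cnt_Iic α))
    exact ⟨γ, fun ξ hξ => ⟨(hγ _ (Or.inl ⟨ξ, hξ, rfl⟩)).le, (hγ _ (Or.inr hξ)).le⟩⟩
  refine ⟨⟨fun α => (wellFounded_lt (α := W)).min _ (h1 α), ?_, ?_⟩, ?_⟩
  · intro α β hαβ
    have h2 := (wellFounded_lt (α := W)).min_mem _ (h1 β)
    exact not_lt.1 ((wellFounded_lt (α := W)).not_lt_min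
      {γ : W | ∀ ξ ≤ α, f ξ ≤ γ ∧ ξ ≤ γ} (fun ξ hξ => h2 ξ (le_trans hξ hαβ)))
  · exact fun ξ => ((wellFounded_lt (α := W)).min_mem _ (h1 ξ) ξ le_rfl).2
  · exact fun ξ => ((wellFounded_lt (α := W)).min_mem _ (h1 ξ) ξ le_rfl).1

theorem exists_index (hb : SapBase W) (hC : Cd.Ladder C) (Y : Node → W → W → RO (Pt C)) :
    ∃ i : Ix W, ∀ (q : Pt C) (ρ : Node) (α ξ : W) (n : ℕ), ρ.1 = i.e α → ξ ∈ C α →
      Cd.Force C q.1 i ρ α ξ n → (n = 1 ∧ q ∈ F1 (XV C false) Y ρ α ξ) ∨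
        (n = 0 ∧ q ∈ F0 (XV C false) Y ρ α ξ) := by
  have h1 : ∀ α ξ : W, ∃ γ, ∀ s : Node, γ ≤ s.1 → ∀ p,
      p ∈ F1 (XV C false) Y s α ξ ⊔ F0 (XV C false) Y s α ξ := by
    intro α ξ
    refine exists_level hb hC (fun s => F1 (XV C false) Y s α ξ ⊔ F0 (XV C false) Y s α ξ)
      (fun s s' p h h' => RO.mem_sup.2 fun q hq => ?_) (F_dense Y α ξ)
    obtain ⟨r, hr, h2 | h2⟩ := RO.mem_sup.1 h q hq
    · exact ⟨r, hr, Or.inl (F1_up h2 (RO.down h' (hr.trans hq)))⟩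
    · exact ⟨r, hr, Or.inr (F0_up h2 (RO.down h' (hr.trans hq)))⟩
  choose g hg using h1
  have h2 : ∀ α : W, ∃ γ, ∀ ξ ∈ C α, g α ξ < γ := by
    intro α
    have hc : (C α).Countable := (Om1.cnt α).mono fun ξ hξ => hC.lt α ξ hξ
    obtain ⟨γ, hγ⟩ := bdd_countable (hc.image (g α))
    exact ⟨γ, fun ξ hξ => hγ _ ⟨ξ, hξ, rfl⟩⟩
  choose f hf using h2
  obtain ⟨e, he⟩ := exists_EF f
  choose d c hd hc using fun (ρ : Node) (α ξ : W) => exists_name hb hC (F1 (XV C false) Y ρ α ξ)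
  refine ⟨code e (fun a => d a.1 a.2.1 a.2.2.1 a.2.2.2) (fun a => (c a.1 a.2.1 a.2.2.1 a.2.2.2).1),
    fun q ρ α ξ n hρ hξ hF => ?_⟩
  rcases force_code hF with ⟨hn, k, hk, hle⟩ | ⟨hn, hno⟩
  · exact Or.inl ⟨hn, RO.down (hd ρ α ξ k hk) (show q ≤ c ρ α ξ k from hle)⟩
  · refine Or.inr ⟨hn, RO.mem_iff.2 fun q' hq' => ?_⟩
    have hlev : g α ξ ≤ ρ.1 := by
      rw [hρ]
      exact ((hf α ξ hξ).le.trans (he α))
    obtain ⟨r, hr, h3 | h3⟩ := RO.mem_sup.1 (hg α ξ ρ hlev q') q' le_rfl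
    · exfalso
      obtain ⟨z, hz, k, hk, hle⟩ := hc ρ α ξ r h3
      exact hno z.1 z.2 (show z ≤ q from hz.trans (hr.trans hq')) k hk hle
    · exact ⟨r, hr, h3⟩

theorem unif (hb : SapBase W) (hC : Cd.Ladder C) (Y : Node → W → W → RO (Pt C)) :
    ∃ (K : Node → Node → RO (Pt C)) (Φ : Node → Node → Bool → RO (Pt C)),
    (∀ s, (⨆ s', ⨆ t, lle (XV C false) s s' ⊓ K s' t) = ⊤) ∧
    (∀ s t s' (γ : W), K s t ⊓ lle (XV C false) s s' ≤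
      ⨆ s'', ⨆ t'' : Node, ⨆ _ : γ ≤ t''.1,
        lle (XV C false) s' s'' ⊓ lle (XV C true) t t'' ⊓ K s'' t'') ∧
    (∀ s (t : Node) (β : W), Order.IsSuccLimit β → β < t.1 →
      K s t ≤ ⨆ t' : Node, ⨆ _ : t'.1 = β, lle (XV C true) t' t ⊓ K s t') ∧
    (∀ s (t : Node), Order.IsSuccLimit t.1 → K s t ≤
      ⨆ β : W, ⨆ _ : β < t.1, ⨅ ξ, ⨅ _ : ξ ∈ C t.1 ∧ β ≤ ξ,
        ⨆ s', ⨆ t' : Node, ⨆ _ : t'.1 = ξ, lle (XV C false) s' s ⊓ lle (XV C true) t' t ⊓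
          ((Φ s' t' true ⊓ F1 (XV C false) Y s t.1 ξ) ⊔
            (Φ s' t' false ⊓ F0 (XV C false) Y s t.1 ξ))) ∧
    (∀ s t s' t', Φ s t true ⊓ Φ s' t' false ⊓
      (lle (XV C false) s s' ⊔ lle (XV C false) s' s) ⊓
      (lle (XV C true) t t' ⊓ lle (XV C true) t' t) = ⊥) := by
  obtain ⟨i, hi⟩ := exists_index hb hC Y
  let K : Node → Node → RO (Pt C) := fun s t => RO.mk'
    (fun p => ∃ s₀, (s₀, t) ∈ p.1.K i ∧ p ∈ lle (XV C false) s₀ s)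
    (fun p q ⟨s₀, h1, h2⟩ hq => ⟨s₀, (hq.at' i).sK h1, RO.down h2 hq⟩)
  let Φ : Node → Node → Bool → RO (Pt C) := fun _ t b => RO.mk'
    (fun p => (t, if b then 1 else 0) ∈ p.1.φ i) (fun p q h hq => (hq.at' i).sφ h)
  have hK : ∀ {s t : Node} {s₀ : Node} {p : Pt C}, (s₀, t) ∈ p.1.K i →
      p ∈ lle (XV C false) s₀ s → p ∈ K s t := fun h1 h2 q hq =>
    ⟨q, le_rfl, _, (hq.at' i).sK h1, RO.down h2 hq⟩
  refine ⟨K, Φ, ?_, ?_, ?_, ?_, ?_⟩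
  · intro s
    rw [RO.eq_top_iff']
    intro p
    refine RO.mem_iSup₂.2 fun q _ => ?_
    obtain ⟨r, hr, hs⟩ := exists_rk q s
    obtain ⟨s₁, h1, h2, h3, h4⟩ := exists_reduced hs false
    obtain ⟨z, hz, hzr, x, hx, _, h6⟩ := Cd.extend_node r.2 hC i h2 s.1
    let z' : Pt C := ⟨z, hz⟩
    have hz' : z' ≤ r := hzr
    have h7 : z' ∈ lle (XV C false) s₁ x.1 :=
      (mem_lle ((rk_of_kn h2).mono hz') (rk_of_kn ((hz i).k1 x hx))).2 h6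
    exact ⟨z', hz'.trans hr, x.1, x.2, RO.mem_inf.2
      ⟨lle_trans (RO.down h3 hz') h7, hK (s₀ := x.1) hx (lle_refl _ _ _)⟩⟩
  · intro s t s' γ
    rw [RO.le_def]
    intro p hp
    obtain ⟨h1, h2⟩ := RO.mem_inf.1 hp
    refine RO.mem_iSup.2 fun q hq => ?_
    obtain ⟨r, hr, s₀, h3, h4⟩ := RO.mem_mk'.1 h1 q hq
    obtain ⟨r', hr', hs'⟩ := exists_rk r s'
    obtain ⟨s₁, h5, h6, h7, h8⟩ := exists_reduced hs' false
    have hr'p : r' ≤ p := (hr'.trans hr).trans hq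
    have hx : (s₀, t) ∈ r'.1.K i := (hr'.at' i).sK h3
    have h9 : r' ∈ lle (XV C false) s₀ s₁ :=
      lle_trans (RO.down h4 hr') (lle_trans (RO.down h2 hr'p) h7)
    have h10 := (mem_lle (rk_of_kn ((r'.2 i).k1 _ hx)) (rk_of_kn h6)).1 h9
    obtain ⟨z, hz, hzr, x, hx', hγ, h11, h12⟩ := Cd.extend_promise r'.2 hC hx h6 h10 γ
    let z' : Pt C := ⟨z, hz⟩
    have hz' : z' ≤ r' := hzr
    have h13 : z' ∈ lle (XV C false) s₁ x.1 :=
      (mem_lle ((rk_of_kn h6).mono hz') (rk_of_kn ((hz i).k1 x hx'))).2 h11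
    have h14 : z' ∈ lle (XV C true) t x.2 :=
      (mem_lle ((rk_of_kn ((r'.2 i).k2 _ hx)).mono hz') (rk_of_kn ((hz i).k2 x hx'))).2 h12
    refine ⟨z', (hz'.trans hr').trans hr, x.1, RO.mem_iSup₂.2 fun w hw => ⟨w, le_rfl, x.2, hγ,
      RO.down (RO.mem_inf.2 ⟨RO.mem_inf.2 ⟨lle_trans (RO.down h7 hz') h13, h14⟩,
        hK (s₀ := x.1) hx' (lle_refl _ _ _)⟩) hw⟩⟩
  · intro s t β hβ hlt
    rw [RO.le_def]
    intro p hp
    refine RO.mem_iSup₂.2 fun q hq => ?_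
    obtain ⟨r, hr, s₀, h3, h4⟩ := RO.mem_mk'.1 hp q hq
    obtain ⟨z, hz, hzr, x, hx, h5, h6, h7⟩ :=
      Cd.restrict r.2 hC h3 (isSuccLimit_iff.1 hβ) hlt
    let z' : Pt C := ⟨z, hz⟩
    have hz' : z' ≤ r := hzr
    have h8 : z' ∈ lle (XV C false) x.1 s₀ :=
      (mem_lle (rk_of_kn ((hz i).k1 x hx)) ((rk_of_kn ((r.2 i).k1 _ h3)).mono hz')).2 h6
    have h9 : z' ∈ lle (XV C true) x.2 t := by
      refine (mem_lle (rk_of_kn ((hz i).k2 x hx)) ((rk_of_kn ((r.2 i).k2 _ h3)).mono hz')).2 ?_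
      rw [h5]
      exact h7
    exact ⟨z', hz'.trans hr, x.2, h5, RO.mem_inf.2 ⟨h9,
      hK (s₀ := x.1) hx (lle_trans h8 (RO.down h4 hz'))⟩⟩
  · intro s t hlim
    rw [RO.le_def]
    intro p hp
    refine RO.mem_iSup₂.2 fun q hq => ?_
    obtain ⟨r, hr, s₀, h3, h4⟩ := RO.mem_mk'.1 hp q hq
    have hlim' := isSuccLimit_iff.1 hlim
    obtain ⟨g, hg, hg'⟩ := Cd.exists_bound_lt hlim'.1 ((r.1.φ i).image fun y => y.1.1)
    obtain ⟨β, hβ1, hβ2⟩ := hlim'.2 g hg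
    refine ⟨r, hr, β, hβ2, RO.mem_iInf.2 fun ξ => RO.mem_iInf.2 fun hξ => ?_⟩
    refine RO.mem_iSup.2 fun r' hr' => ?_
    have hnew : ∀ y ∈ r.1.φ i, y.1.1 ≠ ξ := by
      intro y hy heq
      have h5 := hg' y.1.1 (Finset.mem_image.2 ⟨y, hy, rfl⟩) (heq ▸ hC.lt _ _ hξ.1)
      rw [heq] at h5
      exact absurd (h5.trans_lt hβ1) (not_lt.2 hξ.2)
    obtain ⟨z, hz, hzr, y, hy, h5, h6, h7⟩ := Cd.kept (p := r.1) (q := r'.1) hC hr' h3 r'.2 hξ.1 hnew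
    let z' : Pt C := ⟨z, hz⟩
    have hz' : z' ≤ r' := hzr
    have hz'r : z' ≤ r := hz'.trans hr'
    have hlev : s₀.1 = i.e t.1 := (r.2 i).lev _ h3
    have h8 : z' ∈ lle (XV C true) y.1 t := by
      refine (mem_lle (rk_of_kn ((hz i).k3 y hy)) ((rk_of_kn ((r.2 i).k2 _ h3)).mono hz'r)).2 ?_
      rw [h5]
      exact h6
    have h9 : z' ∈ lle (XV C false) s₀ s := RO.down h4 hz'r
    refine ⟨z', hz', s, RO.mem_iSup₂.2 fun w hw => ⟨w, le_rfl, y.1, h5, RO.mem_inf.2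
      ⟨RO.mem_inf.2 ⟨lle_refl _ _ _, RO.down h8 hw⟩, ?_⟩⟩⟩
    refine RO.mem_sup.2 fun w' hw' => ⟨w', le_rfl, ?_⟩
    have hwz : w' ≤ z' := hw'.trans hw
    rcases hi z' s₀ t.1 ξ y.2 hlev hξ.1 h7 with ⟨hn, hF⟩ | ⟨hn, hF⟩
    · refine Or.inl (RO.mem_inf.2 ⟨?_, F1_up (RO.down hF hwz) (RO.down h9 hwz)⟩)
      refine RO.mem_mk'.2 fun v hv => ⟨v, le_rfl, ?_⟩
      have h10 : (y.1, y.2) ∈ v.1.φ i := ((hv.trans hwz).at' i).sφ hy
      rw [hn] at h10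
      simpa using h10
    · refine Or.inr (RO.mem_inf.2 ⟨?_, F0_up (RO.down hF hwz) (RO.down h9 hwz)⟩)
      refine RO.mem_mk'.2 fun v hv => ⟨v, le_rfl, ?_⟩
      have h10 : (y.1, y.2) ∈ v.1.φ i := ((hv.trans hwz).at' i).sφ hy
      rw [hn] at h10
      simpa using h10
  · intro s t s' t'
    refine RO.ext fun p => ⟨fun h => ?_, fun h => absurd h (RO.notMem_bot p)⟩
    exfalso
    obtain ⟨h1, h2⟩ := RO.mem_inf.1 h
    obtain ⟨h3, _⟩ := RO.mem_inf.1 h1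
    obtain ⟨h4, h5⟩ := RO.mem_inf.1 h3
    obtain ⟨h6, h7⟩ := RO.mem_inf.1 h2
    obtain ⟨r, hr, h8⟩ := RO.mem_mk'.1 h4 p le_rfl
    obtain ⟨r', hr', h9⟩ := RO.mem_mk'.1 h5 r hr
    have h10 := (hr'.at' i).sφ h8
    have hk := (r'.2 i).k3 _ h10
    have hk' := (r'.2 i).k3 _ h9
    have hle := RO.down h6 (hr'.trans hr)
    have hle' := RO.down h7 (hr'.trans hr)
    have heq : t = t' := Bs.Ag.eq hk hk' (le_antisymm (lle_level hle) (lle_level hle'))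
      ((mem_lle (rk_of_kn hk) (rk_of_kn hk')).1 hle)
    have h11 := (r'.2 i).fn _ h10 _ h9 heq
    simp at h11

end Pool.Agent.Work.MP_0201f6_lc
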