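import Pool.Agent.Work.MP_0201f6_lc.A11

/-!
Assembly of part A.
-/

namespace Pool.Agent.Work.MP_0201f6_lc

open Pool.Agent.Work.MP_6efb98_lc (RO CCC)
open Pool.Agent.Work.MP_0201f6_lc_helper21 (W Node sv F1 F0 PartA)

variable {C : W → Set W}

instance : Nonempty (Pt C) := ⟨⟨Cd.emp ⟨∅, ∅, fun _ _ _ => 0, 0⟩, Cd.emp_valid _⟩⟩

variable [Om1 W]

/-- the combinatorial part -/
noncomputable def mkPartA (hb : SapBase W) (hC : Cd.Ladder C)
    (hcof : ∀ α, Order.IsSuccLimit α → ∀ β < α, ∃ ξ ∈ C α, β ≤ ξ) : PartA (RO (Pt C)) where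
  ccc := ro_ccc hb hC
  C := C
  C_lt := hC.lt
  C_cof := hcof
  C_fin := hC.fin
  x := XV C false
  y := XV C true
  x_disj α ξ _ n m h := xv_disj false α ξ n m h
  x_tot α ξ h := xv_tot false α ξ h
  y_disj α ξ _ n m h := xv_disj true α ξ n m h
  y_tot α ξ h := xv_tot true α ξ h
  x_restr t β h := xv_restr false t β h
  y_restr t β h := xv_restr true t β h
  x_ext s β n h := xv_ext false s β n h
  y_ext s β n h := xv_ext true s β n h
  suslin X := suslin hb hC X
  aron X s₀ := aron hb hC X s₀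
  unif Y := unif hb hC Y

end Pool.Agent.Work.MP_0201f6_lc
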