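import Pool.Agent.Work.MP_0201f6_lc.A2

/-!
The base amalgamation.
-/

namespace Pool.Agent.Work.MP_0201f6_lc

open Bs

theorem exists_cut {W : Type} [LinearOrder W] (S : Finset W) {δ : W} (hδ : ∃ ξ, ξ < δ) :
    ∃ m, m < δ ∧ ∀ x ∈ S, x < δ → x ≤ m := by
  classical
  obtain ⟨ξ, hξ⟩ := hδ
  by_cases h : (S.filter (· < δ)).Nonempty
  · refine ⟨(S.filter (· < δ)).max' h, ?_, ?_⟩
    · exact (Finset.mem_filter.1 (Finset.max'_mem _ h)).2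
    · intro x hx hxδ
      exact Finset.le_max' _ _ (Finset.mem_filter.2 ⟨hx, hxδ⟩)
  · refine ⟨ξ, hξ, fun x hx hxδ => ?_⟩
    exact absurd ⟨x, Finset.mem_filter.2 ⟨hx, hxδ⟩⟩ h

open Classical in
/-- the amalgamated condition -/
noncomputable def glue {W : Type} [LinearOrder W] (p p' : Bs W) (s : Nd W) (ξ₀ : W) : Bs W where
  a := p.a ∪ p'.a
  u := insert ξ₀ (p.u ∪ p'.u)
  v := fun b α ξ => if ξ = ξ₀ then (if b then (if α ∈ p.a then p.N else p.N + 1) else 0)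
    else if α ∈ p.a ∧ ξ ∈ p.u then p.v b α ξ
    else if α ∈ p'.a ∧ ξ ∈ p'.u then p'.v b α ξ
    else if b then p.N else p.vl false s ξ
  N := p.N

section

variable {W : Type} [LinearOrder W] {p p' : Bs W} {s : Nd W} {ξ₀ δ δ' c : W}

/-- the hypotheses of the amalgamation -/
structure GH (p p' : Bs W) (ξ₀ δ δ' c : W) : Prop where
  c0 : c < ξ₀
  h0 : ξ₀ < δ
  hd : δ < δ'
  hN : p'.N = p.N
  pa : ∀ x ∈ p.a, x < δ → x ≤ c
  pu : ∀ x ∈ p.u, x < δ → x ≤ c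
  pa' : ∀ x ∈ p'.a, x < δ' → x ∈ p.a ∧ x ≤ c
  pu' : ∀ x ∈ p'.u, x < δ' → x ∈ p.u ∧ x ≤ c
  ra : ∀ x ∈ p.a, x < δ → x ∈ p'.a
  ru : ∀ x ∈ p.u, x < δ → x ∈ p'.u
  ba : ∀ x ∈ p.a, x < δ'
  bu : ∀ x ∈ p.u, x < δ'
  hv : ∀ b, ∀ α ∈ p.a, α < δ → ∀ ξ ∈ p.u, ξ < δ → p.v b α ξ = p'.v b α ξ

theorem GH.nu (h : GH p p' ξ₀ δ δ' c) : ξ₀ ∉ p.u := fun h1 =>
  absurd (h.pu _ h1 h.h0) (not_le.2 h.c0)

theorem GH.nu' (h : GH p p' ξ₀ δ δ' c) : ξ₀ ∉ p'.u := fun h1 =>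
  absurd (h.pu' _ h1 (h.h0.trans h.hd)).2 (not_le.2 h.c0)

theorem glue_v0 (_h : GH p p' ξ₀ δ δ' c) (α : W) :
    (glue p p' s ξ₀).v false α ξ₀ = 0 := by
  simp [glue]

theorem glue_v1 (_h : GH p p' ξ₀ δ δ' c) {α : W} (hα : α ∈ p.a) :
    (glue p p' s ξ₀).v true α ξ₀ = p.N := by
  simp [glue, hα]

theorem glue_v1' (_h : GH p p' ξ₀ δ δ' c) {α : W} (hα : α ∉ p.a) :
    (glue p p' s ξ₀).v true α ξ₀ = p.N + 1 := by
  simp [glue, hα]

theorem glue_vp (h : GH p p' ξ₀ δ δ' c) {α ξ : W} (hα : α ∈ p.a) (hξ : ξ ∈ p.u) (b : Bool) :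
    (glue p p' s ξ₀).v b α ξ = p.v b α ξ := by
  have h1 : ξ ≠ ξ₀ := fun h2 => h.nu (h2 ▸ hξ)
  simp [glue, hα, hξ, h1]

theorem glue_vp' (h : GH p p' ξ₀ δ δ' c) {α ξ : W} (hα : α ∈ p'.a) (hξ : ξ ∈ p'.u)
    (hlt : ξ < α) (b : Bool) :
    (glue p p' s ξ₀).v b α ξ = p'.v b α ξ := by
  have h1 : ξ ≠ ξ₀ := fun h2 => h.nu' (h2 ▸ hξ)
  by_cases h2 : α ∈ p.a ∧ ξ ∈ p.u
  · rw [glue_vp h h2.1 h2.2]
    have h3 := (h.pa' α hα (h.ba α h2.1)).2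
    have h4 : α < δ := h3.trans_lt (h.c0.trans h.h0)
    exact h.hv b α h2.1 h4 ξ h2.2 (hlt.trans h4)
  · simp [glue, h1, h2, hα, hξ]

theorem glue_vr (_h : GH p p' ξ₀ δ δ' c) {α ξ : W} (hα : α ∉ p.a) (hξ : ξ ∉ p'.u)
    (h1 : ξ ≠ ξ₀) (b : Bool) :
    (glue p p' s ξ₀).v b α ξ = if b then p.N else p.vl false s ξ := by
  simp [glue, h1, hα, hξ]

theorem mem_glue_u {ξ : W} : ξ ∈ (glue p p' s ξ₀).u ↔ ξ = ξ₀ ∨ ξ ∈ p.u ∨ ξ ∈ p'.u := by
  simp [glue]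

theorem glue_le (h : GH p p' ξ₀ δ δ' c) : (glue p p' s ξ₀).Le p where
  a := by
    intro x hx
    simp [glue, hx]
  u := by
    intro x hx
    simp [glue, hx]
  N := le_rfl
  v b α hα ξ hξ _ := glue_vp h hα hξ b
  coh b α hα β hβ ξ hξ hξ' h1 h2 := by
    rcases mem_glue_u.1 hξ with rfl | h3 | h3
    · cases b
      · rw [glue_v0 h, glue_v0 h]
      · rw [glue_v1 h hα, glue_v1 h hβ]
    · exact absurd h3 hξ'
    · exact absurd (h.pu' ξ h3 (h1.trans (h.ba α hα))).1 hξ'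
  fto α hα ξ hξ hξ' h1 := by
    rcases mem_glue_u.1 hξ with rfl | h3 | h3
    · rw [glue_v1 h hα]
    · exact absurd h3 hξ'
    · exact absurd (h.pu' ξ h3 (h1.trans (h.ba α hα))).1 hξ'

theorem GH.na (h : GH p p' ξ₀ δ δ' c) {α : W} (hα : α ∈ p'.a) (h1 : c < α) : α ∉ p.a :=
  fun h2 => absurd (h.pa' α hα (h.ba α h2)).2 (not_le.2 h1)

theorem glue_le' (h : GH p p' ξ₀ δ δ' c) : (glue p p' s ξ₀).Le p' where
  a := by
    intro x hx
    simp [glue, hx]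
  u := by
    intro x hx
    simp [glue, hx]
  N := le_of_eq h.hN
  v b α hα ξ hξ hlt := glue_vp' h hα hξ hlt b
  coh b α hα β hβ ξ hξ hξ' h1 h2 := by
    by_cases h0 : ξ = ξ₀
    · subst h0
      cases b
      · rw [glue_v0 h, glue_v0 h]
      · rw [glue_v1' h (h.na hα (h.c0.trans h1)), glue_v1' h (h.na hβ (h.c0.trans h2))]
    · rcases mem_glue_u.1 hξ with h3 | h3 | h3
      · exact absurd h3 h0
      · have h4 : ¬ ξ < δ := fun h5 => hξ' (h.ru ξ h3 h5)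
        have h5 : c < ξ := (h.c0.trans h.h0).trans_le (not_lt.1 h4)
        rw [glue_vr h (h.na hα (h5.trans h1)) hξ' h0, glue_vr h (h.na hβ (h5.trans h2)) hξ' h0]
      · exact absurd h3 hξ'
  fto α hα ξ hξ hξ' h1 := by
    rw [h.hN]
    by_cases h0 : ξ = ξ₀
    · subst h0
      rw [glue_v1' h (h.na hα (h.c0.trans h1))]
      exact Nat.le_succ _
    · rcases mem_glue_u.1 hξ with h3 | h3 | h3
      · exact absurd h3 h0
      · have h4 : ¬ ξ < δ := fun h5 => hξ' (h.ru ξ h3 h5)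
        have h5 : c < ξ := (h.c0.trans h.h0).trans_le (not_lt.1 h4)
        rw [glue_vr h (h.na hα (h5.trans h1)) hξ' h0]
        simp
      · exact absurd h3 hξ'

theorem kn_zero {p : Bs W} {b : Bool} {σ : Nd W} {ξ : W} (h : p.Kn b σ) (hξ : ξ ∉ p.u) :
    σ.2 ξ = 0 := by
  by_contra h1
  exact hξ (h.2 ξ h1).1

end

theorem sap_base {W : Type} [LinearOrder W] [Om1 W] {ι : Type} [Finite ι] {Z : Set W}
    (hZ : Unb Z) (p : W → Bs W) (σ τ : W → ι → Nd W) (s : W → Nd W)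
    (h1 : ∀ k ∈ Z, ∀ l, (p k).Kn false (σ k l) ∧ k ≤ (σ k l).1)
    (h2 : ∀ k ∈ Z, ∀ l, (p k).Kn true (τ k l) ∧ k ≤ (τ k l).1)
    (h3 : ∀ k ∈ Z, (p k).Kn false (s k) ∧ k ≤ (s k).1) (e : W → W) :
    ∃ k ∈ Z, ∃ k' ∈ Z, k < k' ∧ ∃ q : Bs W, q.Le (p k) ∧ q.Le (p k') ∧
      ∃ η, η < k ∧ (s k).1 < k' ∧
      (∀ l, q.Ag false (σ k l) (σ k' l) (e η)) ∧ (∀ l, q.Ag true (τ k l) (τ k' l) η) ∧
      (∀ l l', ∃ ξ ∈ q.u, ξ ≤ η ∧ q.vl true (τ k l) ξ ≠ q.vl true (τ k' l') ξ) ∧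
      q.Ag false (s k) (s k') (s k).1 := by
  classical
  choose K hKZ hK using hZ
  have hf0 : ∀ δ, ∃ m, Lim δ → m < δ ∧ ∀ x ∈ (p (K δ)).a ∪ (p (K δ)).u, x < δ → x ≤ m := by
    intro δ
    by_cases hδ : Lim δ
    · obtain ⟨m, hm⟩ := exists_cut ((p (K δ)).a ∪ (p (K δ)).u) hδ.1
      exact ⟨m, fun _ => hm⟩
    · exact ⟨δ, fun h => absurd h hδ⟩
  choose f hf using hf0
  obtain ⟨b₀⟩ : Nonempty W := inferInstance
  obtain ⟨c, hc⟩ := press f b₀ (fun ε h _ => (hf ε h).1)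
  -- the roots
  let F1 : W → Finset W × Finset W × ℕ := fun δ =>
    ((p (K δ)).a.filter (· < δ), (p (K δ)).u.filter (· < δ), (p (K δ)).N)
  have hF1 : (F1 '' {ε | Lim ε ∧ b₀ < ε ∧ f ε = c}).Countable := by
    have h4 : ({s : Finset W | (s : Set W) ⊆ Set.Iic c} ×ˢ
        ({s : Finset W | (s : Set W) ⊆ Set.Iic c} ×ˢ (Set.univ : Set ℕ))).Countable :=
      (countable_finsets (cnt_Iic c)).prod
        ((countable_finsets (cnt_Iic c)).prod (Set.to_countable _))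
    refine h4.mono ?_
    rintro _ ⟨δ, ⟨hl, _, hfc⟩, rfl⟩
    refine ⟨?_, ?_, Set.mem_univ _⟩
    · intro x hx
      have hx' := Finset.mem_filter.1 (Finset.mem_coe.1 hx)
      have := (hf δ hl).2 x (Finset.mem_union_left _ hx'.1) hx'.2
      rw [hfc] at this
      exact this
    · intro x hx
      have hx' := Finset.mem_filter.1 (Finset.mem_coe.1 hx)
      have := (hf δ hl).2 x (Finset.mem_union_right _ hx'.1) hx'.2
      rw [hfc] at this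
      exact this
  obtain ⟨⟨Ra, Ru, N⟩, hU1⟩ := pigeon hc F1 hF1
  let F2 : W → (Bool → Ra → Ru → ℕ) × (ι → Ru → ℕ) × (ι → Ru → ℕ) × (Ru → ℕ) := fun δ =>
    (fun b α ξ => (p (K δ)).v b α ξ, fun l ξ => (p (K δ)).vl false (σ (K δ) l) ξ,
      fun l ξ => (p (K δ)).vl true (τ (K δ) l) ξ, fun ξ => (p (K δ)).vl false (s (K δ)) ξ)
  obtain ⟨c2, hU2⟩ := pigeon hU1 F2 (Set.to_countable _)
  have hg0 : ∀ δ, ∃ γ, ∀ x ∈ ((p (K δ)).a ∪ (p (K δ)).u) ∪ {K δ, (s (K δ)).1}, x < γ :=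
    fun δ => bdd_finset _
  choose g hg using hg0
  obtain ⟨Z', hZ', hU3, hT⟩ := thin hU2 g
  obtain ⟨ξ₀, hξ₀⟩ := exists_gt' c
  obtain ⟨δ, hδZ, hδ⟩ := hU3 (max ξ₀ (e ξ₀))
  obtain ⟨δ', hδ'Z, hδ'⟩ := hU3 δ
  have hδ0 : ξ₀ < δ := (le_max_left _ _).trans_lt hδ
  have hδe : e ξ₀ < δ := (le_max_right _ _).trans_lt hδ
  obtain ⟨⟨⟨hL, _, hfc⟩, hR⟩, hR2⟩ := hZ' hδZ
  obtain ⟨⟨⟨hL', _, hfc'⟩, hR'⟩, hR2'⟩ := hZ' hδ'Z
  have hgd : g δ < δ' := hT δ hδZ δ' hδ'Z hδ'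
  have hbd : ∀ x ∈ ((p (K δ)).a ∪ (p (K δ)).u) ∪ {K δ, (s (K δ)).1}, x < δ' :=
    fun x hx => (hg δ x hx).trans hgd
  have hkδ' : K δ < δ' := hbd _ (by simp)
  have hsδ' : (s (K δ)).1 < δ' := hbd _ (by simp)
  have hRa : (p (K δ)).a.filter (· < δ) = Ra := congrArg Prod.fst hR
  have hRu : (p (K δ)).u.filter (· < δ) = Ru := congrArg (fun x => x.2.1) hR
  have hRN : (p (K δ)).N = N := congrArg (fun x => x.2.2) hR
  have hRa' : (p (K δ')).a.filter (· < δ') = Ra := congrArg Prod.fst hR'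
  have hRu' : (p (K δ')).u.filter (· < δ') = Ru := congrArg (fun x => x.2.1) hR'
  have hRN' : (p (K δ')).N = N := congrArg (fun x => x.2.2) hR'
  have hF : F2 δ = F2 δ' := hR2.trans hR2'.symm
  have hFv : ∀ b (α : Ra) (ξ : Ru), (p (K δ)).v b α ξ = (p (K δ')).v b α ξ := fun b α ξ =>
    congrFun (congrFun (congrFun (congrArg Prod.fst hF) b) α) ξ
  have hFσ : ∀ l (ξ : Ru), (p (K δ)).vl false (σ (K δ) l) ξ = (p (K δ')).vl false (σ (K δ') l) ξ :=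
    fun l ξ => congrFun (congrFun (congrArg (fun x => x.2.1) hF) l) ξ
  have hFτ : ∀ l (ξ : Ru), (p (K δ)).vl true (τ (K δ) l) ξ = (p (K δ')).vl true (τ (K δ') l) ξ :=
    fun l ξ => congrFun (congrFun (congrArg (fun x => x.2.2.1) hF) l) ξ
  have hFs : ∀ (ξ : Ru), (p (K δ)).vl false (s (K δ)) ξ = (p (K δ')).vl false (s (K δ')) ξ :=
    fun ξ => congrFun (congrArg (fun x => x.2.2.2) hF) ξ
  have mRa : ∀ x, x ∈ (p (K δ)).a → x < δ → x ∈ Ra := fun x hx h => by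
    rw [← hRa]; exact Finset.mem_filter.2 ⟨hx, h⟩
  have mRu : ∀ x, x ∈ (p (K δ)).u → x < δ → x ∈ Ru := fun x hx h => by
    rw [← hRu]; exact Finset.mem_filter.2 ⟨hx, h⟩
  have G : GH (p (K δ)) (p (K δ')) ξ₀ δ δ' c :=
    { c0 := hξ₀
      h0 := hδ0
      hd := hδ'
      hN := hRN'.trans hRN.symm
      pa := fun x hx h => by
        have := (hf δ hL).2 x (Finset.mem_union_left _ hx) h
        rwa [hfc] at this
      pu := fun x hx h => by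
        have := (hf δ hL).2 x (Finset.mem_union_right _ hx) h
        rwa [hfc] at this
      pa' := fun x hx h => by
        have h5 := (hf δ' hL').2 x (Finset.mem_union_left _ hx) h
        rw [hfc'] at h5
        have h6 : x ∈ Ra := by rw [← hRa']; exact Finset.mem_filter.2 ⟨hx, h⟩
        rw [← hRa] at h6
        exact ⟨(Finset.mem_filter.1 h6).1, h5⟩
      pu' := fun x hx h => by
        have h5 := (hf δ' hL').2 x (Finset.mem_union_right _ hx) h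
        rw [hfc'] at h5
        have h6 : x ∈ Ru := by rw [← hRu']; exact Finset.mem_filter.2 ⟨hx, h⟩
        rw [← hRu] at h6
        exact ⟨(Finset.mem_filter.1 h6).1, h5⟩
      ra := fun x hx h => by
        have h6 := mRa x hx h
        rw [← hRa'] at h6
        exact (Finset.mem_filter.1 h6).1
      ru := fun x hx h => by
        have h6 := mRu x hx h
        rw [← hRu'] at h6
        exact (Finset.mem_filter.1 h6).1
      ba := fun x hx => hbd x (by simp [hx])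
      bu := fun x hx => hbd x (by simp [hx])
      hv := fun b α hα h5 ξ hξ h6 => hFv b ⟨α, mRa α hα h5⟩ ⟨ξ, mRu ξ hξ h6⟩ }
  have hkk' : K δ < K δ' := hkδ'.trans (hK δ')
  set q := glue (p (K δ)) (p (K δ')) (s (K δ)) ξ₀ with hq
  have hle : q.Le (p (K δ)) := glue_le G
  have hle' : q.Le (p (K δ')) := glue_le' G
  -- agreement below `δ`
  have hagree : ∀ (b : Bool) (x y : Nd W), (p (K δ)).Kn b x → (p (K δ')).Kn b y → K δ ≤ x.1 →
      K δ' ≤ y.1 → (∀ ξ : Ru, (p (K δ)).vl b x ξ = (p (K δ')).vl b y ξ) →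
      ∀ ξ ∈ q.u, ξ < δ → (ξ ≠ ξ₀ ∨ b = false) → q.vl b x ξ = q.vl b y ξ := by
    intro b x y hx hy hlx hly hxy ξ hξ hξδ hor
    have e1 : ξ < x.1 := (hξδ.trans (hK δ)).trans_le hlx
    have e2 : ξ < y.1 := (hξδ.trans (hδ'.trans (hK δ'))).trans_le hly
    by_cases h0 : ξ = ξ₀
    · subst h0
      rcases hor with h | h
      · exact absurd rfl h
      · subst h
        unfold Bs.vl
        rw [kn_zero hx G.nu, kn_zero hy G.nu', if_pos rfl, if_pos rfl, hq, glue_v0 G, glue_v0 G]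
    · have h4 : ξ ∈ Ru := by
        rcases mem_glue_u.1 hξ with h | h | h
        · exact absurd h h0
        · exact mRu ξ h hξδ
        · rw [← hRu']
          exact Finset.mem_filter.2 ⟨h, hξδ.trans hδ'⟩
      have h5 : ξ ∈ (p (K δ)).u := by
        rw [← hRu] at h4; exact (Finset.mem_filter.1 h4).1
      have h6 : ξ ∈ (p (K δ')).u := by
        rw [← hRu'] at h4; exact (Finset.mem_filter.1 h4).1
      rw [vl_mono hx hle h5 e1, vl_mono hy hle' h6 e2]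
      exact hxy ⟨ξ, h4⟩
  have hkδ : δ < K δ := hK δ
  have hkδ2 : δ < K δ' := hδ'.trans (hK δ')
  refine ⟨K δ, hKZ δ, K δ', hKZ δ', hkk', q, hle, hle', ξ₀, hδ0.trans hkδ, hsδ'.trans (hK δ'),
    ?_, ?_, ?_, ?_⟩
  · intro l
    obtain ⟨a1, a2⟩ := h1 _ (hKZ δ) l
    obtain ⟨a3, a4⟩ := h1 _ (hKZ δ') l
    exact ⟨(hδe.trans hkδ).le.trans a2, (hδe.trans hkδ2).le.trans a4, fun ξ hξ hlt =>
      hagree false _ _ a1 a3 a2 a4 (hFσ l) ξ hξ (hlt.trans hδe) (Or.inr rfl)⟩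
  · intro l
    obtain ⟨a1, a2⟩ := h2 _ (hKZ δ) l
    obtain ⟨a3, a4⟩ := h2 _ (hKZ δ') l
    exact ⟨(hδ0.trans hkδ).le.trans a2, (hδ0.trans hkδ2).le.trans a4, fun ξ hξ hlt =>
      hagree true _ _ a1 a3 a2 a4 (hFτ l) ξ hξ (hlt.trans hδ0) (Or.inl hlt.ne)⟩
  · intro l l'
    obtain ⟨a1, a2⟩ := h2 _ (hKZ δ) l
    obtain ⟨a3, a4⟩ := h2 _ (hKZ δ') l'
    refine ⟨ξ₀, mem_glue_u.2 (Or.inl rfl), le_rfl, ?_⟩
    have h5 : (τ (K δ') l').1 ∉ (p (K δ)).a := fun h6 =>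
      absurd (G.ba _ h6) (not_lt.2 ((hK δ').le.trans a4))
    unfold Bs.vl
    rw [kn_zero a1 G.nu, kn_zero a3 G.nu', if_pos rfl, if_pos rfl, hq, glue_v1 G a1.1,
      glue_v1' G h5]
    omega
  · obtain ⟨a1, a2⟩ := h3 _ (hKZ δ)
    obtain ⟨a3, a4⟩ := h3 _ (hKZ δ')
    have h5 : (s (K δ)).1 < (s (K δ')).1 := (hsδ'.trans (hK δ')).trans_le a4
    refine ⟨le_rfl, h5.le, fun ξ hξ hlt => ?_⟩
    by_cases hξδ : ξ < δ
    · exact hagree false _ _ a1 a3 a2 a4 hFs ξ hξ hξδ (Or.inr rfl)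
    · have h0 : ξ ≠ ξ₀ := fun h => hξδ (h ▸ hδ0)
      have h6 : ξ ∉ (p (K δ')).u := fun h => by
        have := (G.pu' ξ h (hlt.trans hsδ')).2
        exact hξδ (this.trans_lt (hξ₀.trans hδ0))
      have h7 : ξ ∈ (p (K δ)).u := by
        rcases mem_glue_u.1 hξ with h | h | h
        · exact absurd h h0
        · exact h
        · exact absurd h h6
      have h8 : (s (K δ')).1 ∉ (p (K δ)).a := fun h9 =>
        absurd (G.ba _ h9) (not_lt.2 ((hK δ').le.trans a4))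
      rw [vl_mono a1 hle h7 hlt]
      conv_rhs => unfold Bs.vl
      rw [kn_zero a3 h6, if_pos rfl, hq, glue_vr G h8 h6 h0]
      simp

end Pool.Agent.Work.MP_0201f6_lc
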