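import Pool.Agent.Work.MP_0201f6_lc.A1

/-!
`ω₁` as a linear order of type `Om1`, and ladder systems.
-/

namespace Pool.Agent.Work.MP_0201f6_lc

open Cardinal

theorem om1_of_aleph {o : Ordinal.{0}} (ho : o = (ℵ_ 1).ord) : Om1 o.ToType := by
  have hcard : #(o.ToType) = ℵ_ 1 := by rw [ho]; simp
  have hcnt : ∀ γ : o.ToType, (Set.Iio γ).Countable := by
    intro γ
    have h1 : #(Set.Iio γ) < #(o.ToType) := by
      apply mk_Iio_lt
      rw [hcard, Ordinal.type_toType, ho]
    rw [hcard] at h1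
    have h2 : #(Set.Iio γ) ≤ ℵ₀ := by
      rw [← Order.lt_succ_iff]
      rwa [succ_aleph0]
    exact Cardinal.le_aleph0_iff_set_countable.1 h2
  have hunc : ¬ (Set.univ : Set o.ToType).Countable := by
    intro h
    have h1 : #(o.ToType) ≤ ℵ₀ := by
      rw [← mk_univ]
      exact Cardinal.le_aleph0_iff_set_countable.2 h
    rw [hcard] at h1
    exact absurd h1 (not_le.2 (aleph0_lt_aleph_one))
  constructor
  · by_contra h
    rw [not_nonempty_iff] at h
    exact hunc (Set.to_countable _)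
  · infer_instance
  · intro f
    by_contra hcon
    push Not at hcon
    apply hunc
    have h1 : (⋃ n, Set.Iic (f n)).Countable := by
      refine Set.countable_iUnion fun n => ?_
      have : Set.Iic (f n) = insert (f n) (Set.Iio (f n)) := by
        ext x
        simp [le_iff_eq_or_lt]
      rw [this]
      exact (hcnt _).insert _
    refine h1.mono fun γ _ => ?_
    obtain ⟨n, hn⟩ := hcon γ
    exact Set.mem_iUnion.2 ⟨n, hn⟩
  · exact hcnt

instance : Om1 ((Cardinal.aleph (0 + 1)).ord.ToType) := om1_of_aleph (by rw [zero_add])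

instance : Om1 ((Cardinal.aleph 1).ord.ToType) := om1_of_aleph rfl

theorem lim_iff {W : Type} [LinearOrder W] {α : W} : Lim α ↔ Order.IsSuccLimit α := by
  constructor
  · rintro ⟨⟨ξ, hξ⟩, h⟩
    refine ⟨fun hm => absurd (hm hξ.le) (not_le.2 hξ), fun b hb => ?_⟩
    obtain ⟨ζ, h1, h2⟩ := h b hb.lt
    exact hb.2 h1 h2
  · intro h
    refine ⟨?_, ?_⟩
    · have := h.1
      simp only [IsMin, not_forall, not_le] at this
      obtain ⟨b, _, hb⟩ := this
      exact ⟨b, hb⟩
    · intro ξ hξ
      by_contra hcon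
      push Not at hcon
      exact h.2 ξ ⟨hξ, fun c h1 h2 => absurd (hcon c h1) (not_le.2 h2)⟩

theorem ladder (W : Type) [LinearOrder W] [Om1 W] : ∃ C : W → Set W,
    (∀ α, ∀ ξ ∈ C α, ξ < α) ∧
    (∀ α, Order.IsSuccLimit α → ∀ β < α, ∃ ξ ∈ C α, β ≤ ξ) ∧
    (∀ α, ∀ β < α, (C α ∩ Set.Iio β).Finite) := by
  have key : ∀ α : W, ∃ C : Set W, (∀ ξ ∈ C, ξ < α) ∧
      (Order.IsSuccLimit α → ∀ β < α, ∃ ξ ∈ C, β ≤ ξ) ∧
      (∀ β < α, (C ∩ Set.Iio β).Finite) := by
    intro α
    by_cases hα : Order.IsSuccLimit α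
    · obtain ⟨hne, hlim⟩ := lim_iff.2 hα
      obtain ⟨en, hen⟩ := (Om1.cnt α).exists_eq_range hne
      have hen1 : ∀ n, en n < α := fun n => by
        have : en n ∈ Set.Iio α := hen ▸ Set.mem_range_self n
        exact this
      have hstep : ∀ (n : ℕ) (x : W), ∃ y, x < α → y < α ∧ x < y ∧ en n < y := by
        intro n x
        by_cases hx : x < α
        · obtain ⟨ζ, h1, h2⟩ := hlim (max x (en n)) (max_lt hx (hen1 n))
          exact ⟨ζ, fun _ => ⟨h2, (le_max_left _ _).trans_lt h1, (le_max_right _ _).trans_lt h1⟩⟩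
        · exact ⟨x, fun h => absurd h hx⟩
      choose G hG using hstep
      let x : ℕ → W := fun n => Nat.rec (en 0) (fun n y => G n y) n
      have hx1 : ∀ n, x (n + 1) = G n (x n) := fun n => rfl
      have hxlt : ∀ n, x n < α := by
        intro n
        induction n with
        | zero => exact hen1 0
        | succ n ih => rw [hx1]; exact (hG n _ ih).1
      have hmono : StrictMono x := strictMono_nat_of_lt_succ fun n => by
        rw [hx1]; exact (hG n _ (hxlt n)).2.1
      have hxe : ∀ n, en n < x (n + 1) := fun n => by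
        rw [hx1]; exact (hG n _ (hxlt n)).2.2
      have hmem : ∀ β < α, ∃ n, β < x (n + 1) := by
        intro β hβ
        have : β ∈ Set.range en := hen ▸ hβ
        obtain ⟨n, rfl⟩ := this
        exact ⟨n, hxe n⟩
      refine ⟨Set.range x, ?_, ?_, ?_⟩
      · rintro _ ⟨n, rfl⟩
        exact hxlt n
      · intro _ β hβ
        obtain ⟨n, hn⟩ := hmem β hβ
        exact ⟨_, Set.mem_range_self (n + 1), hn.le⟩
      · intro β hβ
        obtain ⟨n, hn⟩ := hmem β hβ
        refine ((Set.finite_Iic (n + 1)).image x).subset ?_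
        rintro _ ⟨⟨m, rfl⟩, hm⟩
        refine ⟨m, ?_, rfl⟩
        by_contra hlt
        simp only [Set.mem_Iic, not_le] at hlt
        exact absurd (hmono hlt) (not_lt.2 ((le_of_lt hm).trans hn.le))
    · exact ⟨∅, by simp, fun h => absurd h hα, by simp⟩
  choose C h1 h2 h3 using key
  exact ⟨C, h1, h2, h3⟩

end Pool.Agent.Work.MP_0201f6_lc
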