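import Pool.Agent.Work.MP_0201f6_lc.A12
import Pool.Agent.Work.MP_0201f6_lc.Base
import Pool.Agent.Work.MP_0201f6_lc.Omega

/-!
Part A.
-/

namespace Pool.Agent.Work.MP_0201f6_lc

open Pool.Agent.Work.MP_6efb98_lc (RO CCC)
open Pool.Agent.Work.MP_0201f6_lc_helper21 (W Node sv F1 F0 PartA)

/-- the combinatorial part of the theorem -/
theorem exists_partA : ∃ (B : Type) (_ : CompleteBooleanAlgebra B) (_ : Nontrivial B),
    Nonempty (PartA B) := by
  obtain ⟨C, h1, h2, h3⟩ := ladder W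
  exact ⟨RO (Pt C), inferInstance, inferInstance,
    ⟨mkPartA (fun ι _ Z hZ p σ τ s hσ hτ hs e => sap_base hZ p σ τ s hσ hτ hs e) ⟨h1, h3⟩ h2⟩⟩

end Pool.Agent.Work.MP_0201f6_lc
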