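import Pool.Agent.Work.MP_0201f6_lc.A1

/-!
Base conditions: finite approximations to two coherent sequences `x^b_α : α → ℕ`, the second
of which consists of finite-to-one functions.
-/

namespace Pool.Agent.Work.MP_0201f6_lc

/-- base conditions -/
structure Bs (W : Type) where
  a : Finset W
  u : Finset W
  v : Bool → W → W → ℕ
  N : ℕ

namespace Bs

variable {W : Type} [LinearOrder W]

/-- the order of the base conditions -/
structure Le (q p : Bs W) : Prop where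
  a : p.a ⊆ q.a
  u : p.u ⊆ q.u
  N : p.N ≤ q.N
  v : ∀ b, ∀ α ∈ p.a, ∀ ξ ∈ p.u, ξ < α → q.v b α ξ = p.v b α ξ
  coh : ∀ b, ∀ α ∈ p.a, ∀ β ∈ p.a, ∀ ξ ∈ q.u, ξ ∉ p.u → ξ < α → ξ < β →
    q.v b α ξ = q.v b β ξ
  fto : ∀ α ∈ p.a, ∀ ξ ∈ q.u, ξ ∉ p.u → ξ < α → p.N ≤ q.v true α ξ

theorem Le.refl (p : Bs W) : Le p p :=
  ⟨fun _ h => h, fun _ h => h, le_rfl, fun _ _ _ _ _ _ => rfl,
    fun _ _ _ _ _ _ h h' => absurd h h', fun _ _ _ h h' => absurd h h'⟩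

theorem Le.trans {r q p : Bs W} (h1 : Le r q) (h2 : Le q p) : Le r p where
  a := h2.a.trans h1.a
  u := h2.u.trans h1.u
  N := h2.N.trans h1.N
  v b α hα ξ hξ h := (h1.v b α (h2.a hα) ξ (h2.u hξ) h).trans (h2.v b α hα ξ hξ h)
  coh b α hα β hβ ξ hξ hξ' h h' := by
    by_cases hq : ξ ∈ q.u
    · rw [h1.v b α (h2.a hα) ξ hq h, h1.v b β (h2.a hβ) ξ hq h']
      exact h2.coh b α hα β hβ ξ hq hξ' h h'
    · exact h1.coh b α (h2.a hα) β (h2.a hβ) ξ hξ hq h h'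
  fto α hα ξ hξ hξ' h := by
    by_cases hq : ξ ∈ q.u
    · rw [h1.v true α (h2.a hα) ξ hq h]
      exact h2.fto α hα ξ hq hξ' h
    · exact h2.N.trans (h1.fto α (h2.a hα) ξ hξ hq h)

/-- the value of a node at a coordinate -/
def vl (p : Bs W) (b : Bool) (σ : Nd W) (ξ : W) : ℕ :=
  if σ.2 ξ = 0 then p.v b σ.1 ξ else σ.2 ξ - 1

/-- the node is known (with a reduced name) -/
def Kn (p : Bs W) (b : Bool) (σ : Nd W) : Prop :=
  σ.1 ∈ p.a ∧ ∀ ξ, σ.2 ξ ≠ 0 → ξ ∈ p.u ∧ ξ < σ.1 ∧ σ.2 ξ ≠ p.v b σ.1 ξ + 1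

/-- agreement of nodes -/
def Ag (p : Bs W) (b : Bool) (σ τ : Nd W) (γ : W) : Prop :=
  γ ≤ σ.1 ∧ γ ≤ τ.1 ∧ ∀ ξ ∈ p.u, ξ < γ → vl p b σ ξ = vl p b τ ξ

theorem Ag.refl {p : Bs W} {b : Bool} {σ : Nd W} {γ : W} (h : γ ≤ σ.1) : Ag p b σ σ γ :=
  ⟨h, h, fun _ _ _ => rfl⟩

theorem Ag.symm {p : Bs W} {b : Bool} {σ τ : Nd W} {γ : W} (h : Ag p b σ τ γ) : Ag p b τ σ γ :=
  ⟨h.2.1, h.1, fun ξ h1 h2 => (h.2.2 ξ h1 h2).symm⟩

theorem Ag.trans {p : Bs W} {b : Bool} {σ τ ρ : Nd W} {γ : W} (h : Ag p b σ τ γ)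
    (h' : Ag p b τ ρ γ) : Ag p b σ ρ γ :=
  ⟨h.1, h'.2.1, fun ξ h1 h2 => (h.2.2 ξ h1 h2).trans (h'.2.2 ξ h1 h2)⟩

theorem Ag.mono {p : Bs W} {b : Bool} {σ τ : Nd W} {γ δ : W} (h : Ag p b σ τ γ) (hδ : δ ≤ γ) :
    Ag p b σ τ δ :=
  ⟨hδ.trans h.1, hδ.trans h.2.1, fun ξ h1 h2 => h.2.2 ξ h1 (h2.trans_le hδ)⟩

theorem Kn.mono {p q : Bs W} {b : Bool} {σ : Nd W} (h : Kn p b σ) (hq : Le q p) : Kn q b σ :=
  ⟨hq.a h.1, fun ξ hξ => by
    obtain ⟨h1, h2, h3⟩ := h.2 ξ hξ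
    refine ⟨hq.u h1, h2, ?_⟩
    rw [hq.v b _ h.1 ξ h1 h2]
    exact h3⟩

theorem vl_mono {p q : Bs W} {b : Bool} {σ : Nd W} (h : Kn p b σ) (hq : Le q p) {ξ : W}
    (hξ : ξ ∈ p.u) (hξ' : ξ < σ.1) : vl q b σ ξ = vl p b σ ξ := by
  unfold vl
  rw [hq.v b _ h.1 ξ hξ hξ']

theorem vl_new {p q : Bs W} {b : Bool} {σ τ : Nd W} (h : Kn p b σ) (h' : Kn p b τ)
    (hq : Le q p) {ξ : W} (hξ : ξ ∈ q.u) (hn : ξ ∉ p.u) (h1 : ξ < σ.1) (h2 : ξ < τ.1) :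
    vl q b σ ξ = vl q b τ ξ := by
  have e1 : σ.2 ξ = 0 := by
    by_contra hne
    exact hn (h.2 ξ hne).1
  have e2 : τ.2 ξ = 0 := by
    by_contra hne
    exact hn (h'.2 ξ hne).1
  unfold vl
  rw [if_pos e1, if_pos e2]
  exact hq.coh b _ h.1 _ h'.1 ξ hξ hn h1 h2

theorem ag_iff {p q : Bs W} {b : Bool} {σ τ : Nd W} (h : Kn p b σ) (h' : Kn p b τ)
    (hq : Le q p) {γ : W} : Ag q b σ τ γ ↔ Ag p b σ τ γ := by
  constructor
  · rintro ⟨h1, h2, h3⟩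
    refine ⟨h1, h2, fun ξ hξ hγ => ?_⟩
    rw [← vl_mono h hq hξ (hγ.trans_le h1), ← vl_mono h' hq hξ (hγ.trans_le h2)]
    exact h3 ξ (hq.u hξ) hγ
  · rintro ⟨h1, h2, h3⟩
    refine ⟨h1, h2, fun ξ hξ hγ => ?_⟩
    by_cases hp : ξ ∈ p.u
    · rw [vl_mono h hq hp (hγ.trans_le h1), vl_mono h' hq hp (hγ.trans_le h2)]
      exact h3 ξ hp hγ
    · exact vl_new h h' hq hξ hp (hγ.trans_le h1) (hγ.trans_le h2)

/-- reduced names of equal nodes of the same level are equal -/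
theorem Ag.eq {p : Bs W} {b : Bool} {σ τ : Nd W} (h : Kn p b σ) (h' : Kn p b τ)
    (hl : σ.1 = τ.1) (hag : Ag p b σ τ σ.1) : σ = τ := by
  refine Prod.ext hl (Finsupp.ext fun ξ => ?_)
  have key : ∀ {σ τ : Nd W}, Kn p b σ → Kn p b τ → σ.1 = τ.1 → Ag p b σ τ σ.1 →
      σ.2 ξ ≠ 0 → σ.2 ξ = τ.2 ξ := by
    intro σ τ h h' hl hag hne
    obtain ⟨h1, h2, h3⟩ := h.2 ξ hne
    have h4 := hag.2.2 ξ h1 h2
    unfold vl at h4
    rw [if_neg hne] at h4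
    by_cases h0 : τ.2 ξ = 0
    · rw [if_pos h0, ← hl] at h4
      omega
    · rw [if_neg h0] at h4
      omega
  by_cases h1 : σ.2 ξ = 0
  · by_cases h2 : τ.2 ξ = 0
    · rw [h1, h2]
    · exact (key h' h hl.symm (hl ▸ hag.symm) h2).symm
  · exact key h h' hl hag h1

open Classical in
/-- the node of level `β` with prescribed values at the coordinates of `p` -/
noncomputable def mkN (p : Bs W) (b : Bool) (β : W) (f : W → ℕ) : Nd W :=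
  (β, Finsupp.onFinset p.u
    (fun ξ => if ξ ∈ p.u ∧ ξ < β ∧ f ξ ≠ p.v b β ξ then f ξ + 1 else 0)
    (fun ξ h => by
      by_contra hn
      exact h (if_neg fun h' => hn h'.1)))

theorem mkN_fst (p : Bs W) (b : Bool) (β : W) (f : W → ℕ) : (mkN p b β f).1 = β := rfl

theorem mkN_snd (p : Bs W) (b : Bool) (β : W) (f : W → ℕ) (ξ : W) :
    (mkN p b β f).2 ξ = if ξ ∈ p.u ∧ ξ < β ∧ f ξ ≠ p.v b β ξ then f ξ + 1 else 0 := by
  unfold mkN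
  rw [Finsupp.onFinset_apply]

theorem mkN_kn {p : Bs W} {b : Bool} {β : W} (hβ : β ∈ p.a) (f : W → ℕ) :
    Kn p b (mkN p b β f) := by
  refine ⟨hβ, fun ξ hξ => ?_⟩
  rw [mkN_snd] at hξ ⊢
  by_cases h : ξ ∈ p.u ∧ ξ < β ∧ f ξ ≠ p.v b β ξ
  · rw [if_pos h]
    refine ⟨h.1, h.2.1, fun h1 => h.2.2 ?_⟩
    rw [mkN_fst] at h1
    omega
  · exact absurd (if_neg h) hξ

theorem mkN_vl {p : Bs W} {b : Bool} {β : W} {f : W → ℕ} {ξ : W} (hξ : ξ ∈ p.u) (h : ξ < β) :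
    vl p b (mkN p b β f) ξ = f ξ := by
  have e := mkN_snd p b β f ξ
  unfold vl
  rw [mkN_fst]
  by_cases h1 : f ξ = p.v b β ξ
  · rw [if_neg (fun h2 => h2.2.2 h1)] at e
    rw [if_pos e, h1]
  · rw [if_pos ⟨hξ, h, h1⟩] at e
    rw [if_neg (by omega), e]
    omega

/-- the restriction of a node to level `β` -/
noncomputable def rs (p : Bs W) (b : Bool) (σ : Nd W) (β : W) : Nd W := mkN p b β (vl p b σ)

theorem rs_fst (p : Bs W) (b : Bool) (σ : Nd W) (β : W) : (rs p b σ β).1 = β := rfl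

theorem rs_kn {p : Bs W} {b : Bool} {β : W} (hβ : β ∈ p.a) (σ : Nd W) : Kn p b (rs p b σ β) :=
  mkN_kn hβ _

theorem rs_ag {p : Bs W} {b : Bool} {σ : Nd W} {β : W} (h : β ≤ σ.1) :
    Ag p b (rs p b σ β) σ β :=
  ⟨le_rfl, h, fun _ h1 h2 => mkN_vl h1 h2⟩

/-- add levels -/
def addA (p : Bs W) (A : Finset W) : Bs W := { p with a := p.a ∪ A }

theorem addA_le (p : Bs W) (A : Finset W) : Le (addA p A) p :=
  ⟨Finset.subset_union_left, fun _ h => h, le_rfl, fun _ _ _ _ _ _ => rfl,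
    fun _ _ _ _ _ _ h h' => absurd h h', fun _ _ _ h h' => absurd h h'⟩

/-- increase the number `N` -/
def addN (p : Bs W) (n : ℕ) : Bs W := { p with N := max p.N n }

theorem addN_le (p : Bs W) (n : ℕ) : Le (addN p n) p :=
  ⟨fun _ h => h, fun _ h => h, le_max_left _ _, fun _ _ _ _ _ _ => rfl,
    fun _ _ _ _ _ _ h h' => absurd h h', fun _ _ _ h h' => absurd h h'⟩

open Classical in
/-- add coordinates -/
noncomputable def addU (p : Bs W) (U : Finset W) : Bs W :=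
  { p with u := p.u ∪ U, v := fun b α ξ => if ξ ∈ p.u then p.v b α ξ else p.N }

theorem addU_le (p : Bs W) (U : Finset W) : Le (addU p U) p where
  a := fun _ h => h
  u := Finset.subset_union_left
  N := le_rfl
  v b α hα ξ hξ h := by
    simp only [addU, if_pos hξ]
  coh b α hα β hβ ξ hξ hξ' h h' := by
    simp only [addU, if_neg hξ']
  fto α hα ξ hξ hξ' h := by
    simp only [addU, if_neg hξ']
    exact le_rfl

end Bs

end Pool.Agent.Work.MP_0201f6_lc
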