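import Pool.Agent.Work.MP_0201f6_lc.A2

/-!
Hereditary indices, conditions and their order.
-/

namespace Pool.Agent.Work.MP_0201f6_lc

/-- arguments of the data of an index: S-node, level, ladder point, number of the condition -/
abbrev Ar (W : Type) := Nd W × W × W × ℕ

/-- monotone inflationary functions -/
structure EF (W : Type) [LinearOrder W] where
  e : W → W
  mono : Monotone e
  le : ∀ ξ, ξ ≤ e ξ

/-- hereditary indices -/
inductive Ix (W : Type) [LinearOrder W] : Type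
  | base : Ix W
  | mk (e : EF W) (d : Ar W → Prop) (col : Ar W → ℕ) (bs : Ar W → Bs W) (len : Ar W → ℕ)
      (idx : Ar W → ℕ → Ix W) (K : Ar W → ℕ → Finset (Nd W × Nd W))
      (φ : Ar W → ℕ → Finset (Nd W × ℕ)) : Ix W

/-- conditions (not necessarily valid) -/
structure Cd (W : Type) [LinearOrder W] where
  bs : Bs W
  K : Ix W → Finset (Nd W × Nd W)
  φ : Ix W → Finset (Nd W × ℕ)
  fin : {i | K i ≠ ∅ ∨ φ i ≠ ∅}.Finite

variable {W : Type} [LinearOrder W]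

/-- the function of an index -/
def Ix.e : Ix W → W → W
  | .base => id
  | .mk e _ _ _ _ _ _ _ => e.e

theorem Ix.e_mono (i : Ix W) : Monotone i.e := by
  cases i with
  | base => exact monotone_id
  | mk e d col bs len idx K φ => exact e.mono

theorem Ix.le_e (i : Ix W) (ξ : W) : ξ ≤ i.e ξ := by
  cases i with
  | base => exact le_rfl
  | mk e d col bs len idx K φ => exact e.le ξ

/-- validity of the part of a condition at one index -/
structure VAt (C : W → Set W) (e : W → W) (B : Bs W) (K : Finset (Nd W × Nd W))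
    (φ : Finset (Nd W × ℕ)) : Prop where
  k1 : ∀ x ∈ K, B.Kn false x.1
  k2 : ∀ x ∈ K, B.Kn true x.2
  lim : ∀ x ∈ K, Lim x.2.1
  lev : ∀ x ∈ K, x.1.1 = e x.2.1
  k3 : ∀ y ∈ φ, B.Kn true y.1
  fn : ∀ y ∈ φ, ∀ y' ∈ φ, y.1 = y'.1 → y.2 = y'.2
  v3 : ∀ x ∈ K, ∀ x' ∈ K, ∀ β, (∃ ξ, ξ < β) → B.Ag true x.2 x'.2 β → B.Ag false x.1 x'.1 (e β)
  v4 : ∀ x ∈ K, ∀ x' ∈ K, x.2 ≠ x'.2 → ∀ ξ ∈ C x.2.1, ξ ∈ C x'.2.1 → B.Ag true x.2 x'.2 ξ →
    ∃ y ∈ φ, y.1.1 = ξ ∧ B.Ag true y.1 x.2 ξ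

theorem VAt.mono {C : W → Set W} {e : W → W} {B B' : Bs W} {K : Finset (Nd W × Nd W)}
    {φ : Finset (Nd W × ℕ)} (h : VAt C e B K φ) (hB : B'.Le B) : VAt C e B' K φ where
  k1 x hx := (h.k1 x hx).mono hB
  k2 x hx := (h.k2 x hx).mono hB
  lim := h.lim
  lev := h.lev
  k3 y hy := (h.k3 y hy).mono hB
  fn := h.fn
  v3 x hx x' hx' β hβ hag := by
    rw [Bs.ag_iff (h.k2 x hx) (h.k2 x' hx') hB] at hag
    rw [Bs.ag_iff (h.k1 x hx) (h.k1 x' hx') hB]
    exact h.v3 x hx x' hx' β hβ hag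
  v4 x hx x' hx' hne ξ hξ hξ' hag := by
    rw [Bs.ag_iff (h.k2 x hx) (h.k2 x' hx') hB] at hag
    obtain ⟨y, hy, h1, h2⟩ := h.v4 x hx x' hx' hne ξ hξ hξ' hag
    exact ⟨y, hy, h1, (Bs.ag_iff (h.k3 y hy) (h.k2 x hx) hB).2 h2⟩

theorem VAt.empty {C : W → Set W} {e : W → W} {B : Bs W} : VAt C e B ∅ ∅ := by
  constructor <;> simp

/-- promises are functional -/
theorem VAt.inj {C : W → Set W} {i : Ix W} {B : Bs W} {K : Finset (Nd W × Nd W)}
    {φ : Finset (Nd W × ℕ)} (h : VAt C i.e B K φ) {x x' : Nd W × Nd W} (hx : x ∈ K)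
    (hx' : x' ∈ K) (heq : x.2 = x'.2) : x = x' := by
  have h1 : B.Ag false x.1 x'.1 (i.e x.2.1) :=
    h.v3 x hx x' hx' x.2.1 (h.lim x hx).1 (heq ▸ Bs.Ag.refl le_rfl)
  refine Prod.ext (Bs.Ag.eq (h.k1 x hx) (h.k1 x' hx') ?_ ?_) heq
  · rw [h.lev x hx, h.lev x' hx', heq]
  · rw [h.lev x hx]
    exact h1

namespace Cd

variable (C : W → Set W)

/-- valid conditions -/
def Valid (p : Cd W) : Prop := ∀ i : Ix W, VAt C i.e p.bs (p.K i) (p.φ i)

/-- `q` extends the local data `(K, φ)` at the index `i`, where `Fo` is the forcing predicate of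
`q` at `i` -/
structure LeAt (q : Cd W) (i : Ix W) (Fo : Nd W → W → W → ℕ → Prop)
    (K : Finset (Nd W × Nd W)) (φ : Finset (Nd W × ℕ)) : Prop where
  sK : K ⊆ q.K i
  sφ : φ ⊆ q.φ i
  new : ∀ x ∈ K, ∀ y ∈ q.φ i, y ∉ φ → y.1.1 ∈ C x.2.1 → q.bs.Ag true y.1 x.2 y.1.1 →
    Fo x.1 x.2.1 y.1.1 y.2

/-- forcing predicate of an index and the extension relation below an index -/
def FB : Ix W → (Cd W → Nd W → W → W → ℕ → Prop) × (Cd W → Cd W → Prop)
  | .base => (fun _ _ _ _ c => c = 0, fun _ _ => True)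
  | .mk _ d col bs len idx K φ =>
    (fun q ρ α ξ c =>
      (∃ k, d (ρ, α, ξ, k) ∧ c = col (ρ, α, ξ, k) ∧ q.bs.Le (bs (ρ, α, ξ, k)) ∧
        ∀ l < len (ρ, α, ξ, k), LeAt C q (idx (ρ, α, ξ, k) l) ((FB (idx (ρ, α, ξ, k) l)).1 q)
          (K (ρ, α, ξ, k) l) (φ (ρ, α, ξ, k) l)) ∨
      (c = 0 ∧ ∀ r : Cd W, Valid C r → r.bs.Le q.bs →
        (∀ a l, l < len a → LeAt C r (idx a l) ((FB (idx a l)).1 r) (q.K (idx a l)) (q.φ (idx a l)) ∧
          (FB (idx a l)).2 r q) →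
        ∀ k, d (ρ, α, ξ, k) → ¬ (r.bs.Le (bs (ρ, α, ξ, k)) ∧
          ∀ l < len (ρ, α, ξ, k), LeAt C r (idx (ρ, α, ξ, k) l) ((FB (idx (ρ, α, ξ, k) l)).1 r)
            (K (ρ, α, ξ, k) l) (φ (ρ, α, ξ, k) l))),
     fun r q => ∀ a l, l < len a →
        LeAt C r (idx a l) ((FB (idx a l)).1 r) (q.K (idx a l)) (q.φ (idx a l)) ∧
          (FB (idx a l)).2 r q)

/-- the condition `q` decides the colour of `(ρ, α, ξ)` for the colouring of the index `i` -/
def Force (q : Cd W) (i : Ix W) : Nd W → W → W → ℕ → Prop := (FB C i).1 q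

/-- the indices which matter for `i` -/
def Below : Ix W → Set (Ix W)
  | .base => ∅
  | .mk _ _ _ _ len idx _ _ => {j | ∃ a, ∃ l < len a, j = idx a l ∨ j ∈ Below (idx a l)}

/-- extension below `i` -/
def LB (i : Ix W) (r q : Cd W) : Prop :=
  ∀ j ∈ Below i, LeAt C r j (Force C r j) (q.K j) (q.φ j)

theorem lb_iff (i : Ix W) (r q : Cd W) : (FB C i).2 r q ↔ LB C i r q := by
  induction i with
  | base => exact ⟨fun _ j hj => absurd hj (Set.notMem_empty j), fun _ => trivial⟩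
  | mk e d col bs len idx K φ ih =>
    constructor
    · rintro h j ⟨a, l, hl, rfl | hj⟩
      · exact (h a l hl).1
      · exact (ih a l).1 (h a l hl).2 j hj
    · intro h a l hl
      exact ⟨h _ ⟨a, l, hl, Or.inl rfl⟩, (ih a l).2 fun j hj => h j ⟨a, l, hl, Or.inr hj⟩⟩

variable {C}

theorem Below.trans {i j k : Ix W} (h1 : k ∈ Below j) (h2 : j ∈ Below i) : k ∈ Below i := by
  induction i with
  | base => exact h2
  | mk e d col bs len idx K φ ih =>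
    obtain ⟨a, l, hl, h3 | h3⟩ := h2
    · exact ⟨a, l, hl, Or.inr (h3 ▸ h1)⟩
    · exact ⟨a, l, hl, Or.inr (ih a l h3)⟩

theorem Below.irrefl (i : Ix W) : i ∉ Below i := by
  induction i with
  | base => exact fun h => h
  | mk e d col bs len idx K φ ih =>
    intro h
    obtain ⟨a, l, hl, h3 | h3⟩ := id h
    · rw [h3] at h
      exact ih a l h
    · exact ih a l (Below.trans (j := .mk e d col bs len idx K φ) ⟨a, l, hl, Or.inl rfl⟩ h3)

/-- the data of an index: the `k`-th condition of the family extends -/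
def Meets (C : W → Set W) (q : Cd W) (bs : Ar W → Bs W) (len : Ar W → ℕ) (idx : Ar W → ℕ → Ix W)
    (K : Ar W → ℕ → Finset (Nd W × Nd W)) (φ : Ar W → ℕ → Finset (Nd W × ℕ)) (a : Ar W) : Prop :=
  q.bs.Le (bs a) ∧ ∀ l < len a, LeAt C q (idx a l) (Force C q (idx a l)) (K a l) (φ a l)

theorem force_base {q : Cd W} {ρ : Nd W} {α ξ : W} {c : ℕ} :
    Force C q .base ρ α ξ c ↔ c = 0 := Iff.rfl

theorem force_mk {q : Cd W} {e d col bs len idx K φ} {ρ : Nd W} {α ξ : W} {c : ℕ} :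
    Force C q (.mk e d col bs len idx K φ) ρ α ξ c ↔
      (∃ k, d (ρ, α, ξ, k) ∧ c = col (ρ, α, ξ, k) ∧ Meets C q bs len idx K φ (ρ, α, ξ, k)) ∨
      (c = 0 ∧ ∀ r : Cd W, Valid C r → r.bs.Le q.bs → LB C (.mk e d col bs len idx K φ) r q →
        ∀ k, d (ρ, α, ξ, k) → ¬ Meets C r bs len idx K φ (ρ, α, ξ, k)) := by
  have h := lb_iff C (.mk e d col bs len idx K φ)
  constructor
  · rintro (h1 | ⟨h1, h2⟩)
    · exact Or.inl h1
    · exact Or.inr ⟨h1, fun r h3 h4 h5 => h2 r h3 h4 ((h r q).2 h5)⟩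
  · rintro (h1 | ⟨h1, h2⟩)
    · exact Or.inl h1
    · exact Or.inr ⟨h1, fun r h3 h4 h5 => h2 r h3 h4 ((h r q).1 h5)⟩

/-- transitivity at one index -/
theorem LeAt.trans {r q : Cd W} {i : Ix W} {K : Finset (Nd W × Nd W)} {φ : Finset (Nd W × ℕ)}
    (hq : Valid C q) (hb : r.bs.Le q.bs)
    (hF : ∀ ρ α ξ c, Force C q i ρ α ξ c → Force C r i ρ α ξ c)
    (h1 : LeAt C r i (Force C r i) (q.K i) (q.φ i)) (h2 : LeAt C q i (Force C q i) K φ) :
    LeAt C r i (Force C r i) K φ where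
  sK := h2.sK.trans h1.sK
  sφ := h2.sφ.trans h1.sφ
  new x hx y hy hn hc hag := by
    by_cases hyq : y ∈ q.φ i
    · refine hF _ _ _ _ (h2.new x hx y hyq hn hc ?_)
      exact (Bs.ag_iff ((hq i).k3 y hyq) ((hq i).k2 x (h2.sK hx)) hb).1 hag
    · exact h1.new x (h2.sK hx) y hy hyq hc hag

theorem Force.mono_aux {i : Ix W} :
    (∀ {q r : Cd W}, Valid C q → Valid C r → r.bs.Le q.bs → LB C i r q → ∀ {ρ α ξ c},
      Force C q i ρ α ξ c → Force C r i ρ α ξ c) ∧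
    (∀ {q r s : Cd W}, Valid C q → Valid C r → Valid C s → s.bs.Le r.bs →
      LB C i r q → LB C i s r → LB C i s q) := by
  induction i with
  | base =>
    exact ⟨fun _ _ _ _ _ _ _ _ h => h, fun _ _ _ _ _ _ j hj => absurd hj (Set.notMem_empty j)⟩
  | mk e d col bs len idx K φ ih =>
    have htr : ∀ {q r s : Cd W}, Valid C q → Valid C r → Valid C s → s.bs.Le r.bs →
        LB C (.mk e d col bs len idx K φ) r q → LB C (.mk e d col bs len idx K φ) s r →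
        LB C (.mk e d col bs len idx K φ) s q := by
      rintro q r s hq hr hs hb h1 h2 j ⟨a, l, hl, rfl | hj⟩
      · have hin : idx a l ∈ Below (.mk e d col bs len idx K φ) := ⟨a, l, hl, Or.inl rfl⟩
        refine LeAt.trans hr hb (fun ρ α ξ c hF => ?_) (h2 _ hin) (h1 _ hin)
        exact (ih a l).1 hr hs hb (fun k hk => h2 k (Below.trans hk hin)) hF
      · exact (ih a l).2 hq hr hs hb (fun k hk => h1 k ⟨a, l, hl, Or.inr hk⟩)
          (fun k hk => h2 k ⟨a, l, hl, Or.inr hk⟩) j hj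
    refine ⟨fun {q r} hq hr hb h1 ρ α ξ c hF => ?_, htr⟩
    rw [force_mk] at hF ⊢
    rcases hF with ⟨k, hk, hc, hM1, hM2⟩ | ⟨hc, h2⟩
    · refine Or.inl ⟨k, hk, hc, hb.trans hM1, fun l hl => ?_⟩
      have hin : idx (ρ, α, ξ, k) l ∈ Below (.mk e d col bs len idx K φ) :=
        ⟨_, l, hl, Or.inl rfl⟩
      refine LeAt.trans hq hb (fun ρ α ξ c hF => ?_) (h1 _ hin) (hM2 l hl)
      exact (ih _ l).1 hq hr hb (fun k hk => h1 k (Below.trans hk hin)) hF
    · refine Or.inr ⟨hc, fun s hs hbs hLB => ?_⟩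
      exact h2 s hs (hbs.trans hb) (htr hq hr hs hbs h1 hLB)

theorem Force.mono {i : Ix W} {q r : Cd W} (hq : Valid C q) (hr : Valid C r)
    (hb : r.bs.Le q.bs) (h : LB C i r q) {ρ : Nd W} {α ξ : W} {c : ℕ}
    (hF : Force C q i ρ α ξ c) : Force C r i ρ α ξ c :=
  Force.mono_aux.1 hq hr hb h hF

theorem LB.trans {i : Ix W} {q r s : Cd W} (hq : Valid C q) (hr : Valid C r) (hs : Valid C s)
    (hb : s.bs.Le r.bs) (h1 : LB C i r q) (h2 : LB C i s r) : LB C i s q :=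
  Force.mono_aux.2 hq hr hs hb h1 h2

/-- agreement of conditions on a set of indices -/
structure Agree (S : Set (Ix W)) (q r : Cd W) : Prop where
  bs : q.bs = r.bs
  K : ∀ j ∈ S, q.K j = r.K j
  φ : ∀ j ∈ S, q.φ j = r.φ j

theorem Agree.symm {S : Set (Ix W)} {q r : Cd W} (h : Agree S q r) : Agree S r q :=
  ⟨h.bs.symm, fun j hj => (h.K j hj).symm, fun j hj => (h.φ j hj).symm⟩

theorem Agree.sub {S S' : Set (Ix W)} {q r : Cd W} (h : Agree S q r) (hS : S' ⊆ S) :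
    Agree S' q r :=
  ⟨h.bs, fun j hj => h.K j (hS hj), fun j hj => h.φ j (hS hj)⟩

theorem LeAt.congr {q r : Cd W} {i : Ix W} {K : Finset (Nd W × Nd W)} {φ : Finset (Nd W × ℕ)}
    {Fo Fo' : Nd W → W → W → ℕ → Prop}
    (h : LeAt C q i Fo K φ) (hb : q.bs = r.bs) (h1 : q.K i = r.K i) (h2 : q.φ i = r.φ i)
    (hF : ∀ ρ α ξ c, Fo ρ α ξ c → Fo' ρ α ξ c) : LeAt C r i Fo' K φ where
  sK := h1 ▸ h.sK
  sφ := h2 ▸ h.sφ
  new x hx y hy hn hc hag := hF _ _ _ _ (h.new x hx y (h2 ▸ hy) hn hc (hb ▸ hag))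

theorem Force.local {q r : Cd W} {i : Ix W} (h : Agree (Below i) q r) {ρ : Nd W} {α ξ : W}
    {c : ℕ} (hF : Force C q i ρ α ξ c) : Force C r i ρ α ξ c := by
  induction i generalizing ρ α ξ c q r with
  | base => exact hF
  | mk e d col bs len idx K φ ih =>
    rw [force_mk] at hF ⊢
    rcases hF with ⟨k, hk, hc, hM1, hM2⟩ | ⟨hc, h2⟩
    · refine Or.inl ⟨k, hk, hc, h.bs ▸ hM1, fun l hl => ?_⟩
      have hin : idx (ρ, α, ξ, k) l ∈ Below (.mk e d col bs len idx K φ) :=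
        ⟨_, l, hl, Or.inl rfl⟩
      exact (hM2 l hl).congr h.bs (h.K _ hin) (h.φ _ hin)
        (fun _ _ _ _ hF => ih _ l (h.sub fun j hj => Below.trans hj hin) hF)
    · refine Or.inr ⟨hc, fun s hs hbs hLB => h2 s hs (h.bs ▸ hbs) fun j hj => ?_⟩
      have := hLB j hj
      rw [← h.K j hj, ← h.φ j hj] at this
      exact this

theorem leAt_local {q r : Cd W} {i : Ix W} {K : Finset (Nd W × Nd W)} {φ : Finset (Nd W × ℕ)}
    (h : Agree (Below i) q r) (h1 : q.K i = r.K i) (h2 : q.φ i = r.φ i)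
    (hL : LeAt C q i (Force C q i) K φ) : LeAt C r i (Force C r i) K φ :=
  hL.congr h.bs h1 h2 fun _ _ _ _ hF => hF.local h

/-- the order of the conditions -/
structure Le (C : W → Set W) (q p : Cd W) : Prop where
  bs : q.bs.Le p.bs
  at' : ∀ i, LeAt C q i (Force C q i) (p.K i) (p.φ i)

theorem LeAt.refl (p : Cd W) (i : Ix W) (Fo : Nd W → W → W → ℕ → Prop) :
    LeAt C p i Fo (p.K i) (p.φ i) :=
  ⟨fun _ h => h, fun _ h => h, fun _ _ _ h h' => absurd h h'⟩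

theorem Le.refl (p : Cd W) : Le C p p := ⟨Bs.Le.refl _, fun _ => LeAt.refl _ _ _⟩

theorem Le.lb {q p : Cd W} (h : Le C q p) (i : Ix W) : LB C i q p := fun j _ => h.at' j

theorem Le.trans {r q p : Cd W} (hq : Valid C q) (hr : Valid C r) (h1 : Le C r q)
    (h2 : Le C q p) : Le C r p where
  bs := h1.bs.trans h2.bs
  at' i := LeAt.trans hq h1.bs (fun _ _ _ _ hF => hF.mono hq hr h1.bs (h1.lb i)) (h1.at' i)
    (h2.at' i)

theorem Le.force {q p : Cd W} (hp : Valid C p) (hq : Valid C q) (h : Le C q p) {i : Ix W}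
    {ρ : Nd W} {α ξ : W} {c : ℕ} (hF : Force C p i ρ α ξ c) : Force C q i ρ α ξ c :=
  hF.mono hp hq h.bs (h.lb i)

end Cd

end Pool.Agent.Work.MP_0201f6_lc
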