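import Pool.Agent.Work.MP_0201f6_lc.A3

/-!
Amalgamation of conditions, density lemmas.
-/

namespace Pool.Agent.Work.MP_0201f6_lc

namespace Cd

variable {W : Type} [LinearOrder W] {C : W → Set W}

open Classical in
/-- amalgamation: `r` on `S`, `p` elsewhere, the base of `r` -/
noncomputable def am (p r : Cd W) (S : Set (Ix W)) : Cd W where
  bs := r.bs
  K j := if j ∈ S then r.K j else p.K j
  φ j := if j ∈ S then r.φ j else p.φ j
  fin := by
    refine (p.fin.union r.fin).subset fun j hj => ?_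
    by_cases h : j ∈ S
    · simp only [Set.mem_ofPred_eq, h, if_true] at hj
      exact Or.inr hj
    · simp only [Set.mem_ofPred_eq, h, if_false] at hj
      exact Or.inl hj

theorem am_K_mem {p r : Cd W} {S : Set (Ix W)} {j : Ix W} (h : j ∈ S) :
    (am p r S).K j = r.K j := if_pos h

theorem am_φ_mem {p r : Cd W} {S : Set (Ix W)} {j : Ix W} (h : j ∈ S) :
    (am p r S).φ j = r.φ j := if_pos h

theorem am_K_nmem {p r : Cd W} {S : Set (Ix W)} {j : Ix W} (h : j ∉ S) :
    (am p r S).K j = p.K j := if_neg h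

theorem am_φ_nmem {p r : Cd W} {S : Set (Ix W)} {j : Ix W} (h : j ∉ S) :
    (am p r S).φ j = p.φ j := if_neg h

theorem am_valid {p r : Cd W} (hp : Valid C p) (hr : Valid C r) (hb : r.bs.Le p.bs)
    (S : Set (Ix W)) : Valid C (am p r S) := by
  intro j
  by_cases hj : j ∈ S
  · rw [am_K_mem hj, am_φ_mem hj]
    exact hr j
  · rw [am_K_nmem hj, am_φ_nmem hj]
    exact (hp j).mono hb

theorem am_agree (p r : Cd W) (S : Set (Ix W)) : Agree S (am p r S) r :=
  ⟨rfl, fun _ hj => am_K_mem hj, fun _ hj => am_φ_mem hj⟩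

theorem am_le {p r : Cd W} {S : Set (Ix W)} (hS : ∀ j ∈ S, Below j ⊆ S) (hb : r.bs.Le p.bs)
    (h : ∀ j ∈ S, LeAt C r j (Force C r j) (p.K j) (p.φ j)) : Le C (am p r S) p where
  bs := hb
  at' j := by
    by_cases hj : j ∈ S
    · exact leAt_local ((am_agree p r S).symm.sub (hS j hj)) (am_K_mem hj).symm
        (am_φ_mem hj).symm (h j hj)
    · have := LeAt.refl (C := C) (am p r S) j (Force C (am p r S) j)
      rwa [am_K_nmem hj, am_φ_nmem hj] at this

/-- change of the base -/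
def wb (p : Cd W) (B : Bs W) : Cd W := ⟨B, p.K, p.φ, p.fin⟩

theorem wb_valid {p : Cd W} (hp : Valid C p) {B : Bs W} (hB : B.Le p.bs) : Valid C (wb p B) :=
  fun j => (hp j).mono hB

theorem wb_le {p : Cd W} {B : Bs W} (hB : B.Le p.bs) : Le C (wb p B) p :=
  ⟨hB, fun _ => LeAt.refl (wb p B) _ _⟩

open Classical in
/-- change at one index -/
noncomputable def upd (p : Cd W) (i : Ix W) (K : Finset (Nd W × Nd W)) (φ : Finset (Nd W × ℕ)) :
    Cd W where
  bs := p.bs
  K j := if j = i then K else p.K j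
  φ j := if j = i then φ else p.φ j
  fin := by
    refine (p.fin.union (Set.finite_singleton i)).subset fun j hj => ?_
    by_cases h : j = i
    · exact Or.inr h
    · simp only [Set.mem_ofPred_eq, h, if_false] at hj
      exact Or.inl hj

theorem upd_K_self (p : Cd W) (i : Ix W) (K : Finset (Nd W × Nd W)) (φ : Finset (Nd W × ℕ)) :
    (upd p i K φ).K i = K := if_pos rfl

theorem upd_φ_self (p : Cd W) (i : Ix W) (K : Finset (Nd W × Nd W)) (φ : Finset (Nd W × ℕ)) :
    (upd p i K φ).φ i = φ := if_pos rfl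

theorem upd_K_ne (p : Cd W) {i j : Ix W} (K : Finset (Nd W × Nd W)) (φ : Finset (Nd W × ℕ))
    (h : j ≠ i) : (upd p i K φ).K j = p.K j := if_neg h

theorem upd_φ_ne (p : Cd W) {i j : Ix W} (K : Finset (Nd W × Nd W)) (φ : Finset (Nd W × ℕ))
    (h : j ≠ i) : (upd p i K φ).φ j = p.φ j := if_neg h

theorem upd_agree (p : Cd W) (i : Ix W) (K : Finset (Nd W × Nd W)) (φ : Finset (Nd W × ℕ)) :
    Agree (Below i) p (upd p i K φ) := by
  have h : ∀ j ∈ Below i, j ≠ i := by
    rintro j hj rfl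
    exact Below.irrefl j hj
  exact ⟨rfl, fun j hj => (upd_K_ne p K φ (h j hj)).symm,
    fun j hj => (upd_φ_ne p K φ (h j hj)).symm⟩

theorem upd_valid {p : Cd W} (hp : Valid C p) {i : Ix W} {K : Finset (Nd W × Nd W)}
    {φ : Finset (Nd W × ℕ)} (h : VAt C i.e p.bs K φ) : Valid C (upd p i K φ) := by
  intro j
  by_cases hj : j = i
  · subst hj
    rw [upd_K_self, upd_φ_self]
    exact h
  · rw [upd_K_ne _ _ _ hj, upd_φ_ne _ _ _ hj]
    exact hp j

theorem upd_le {p : Cd W} {i : Ix W} {K : Finset (Nd W × Nd W)} {φ : Finset (Nd W × ℕ)}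
    (hK : p.K i ⊆ K) (hφ : p.φ i ⊆ φ)
    (h : ∀ x ∈ p.K i, ∀ y ∈ φ, y ∉ p.φ i → y.1.1 ∈ C x.2.1 → p.bs.Ag true y.1 x.2 y.1.1 →
      Force C p i x.1 x.2.1 y.1.1 y.2) : Le C (upd p i K φ) p where
  bs := Bs.Le.refl _
  at' j := by
    by_cases hj : j = i
    · subst hj
      refine ⟨?_, ?_, ?_⟩
      · rw [upd_K_self]
        exact hK
      · rw [upd_φ_self]
        exact hφ
      · intro x hx y hy hn hc hag
        rw [upd_φ_self] at hy
        exact (h x hx y hy hn hc hag).local (upd_agree p j K φ)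
    · have := LeAt.refl (C := C) (upd p i K φ) j (Force C (upd p i K φ) j)
      rwa [upd_K_ne _ _ _ hj, upd_φ_ne _ _ _ hj] at this

/-- every argument can be decided -/
theorem exists_force {p : Cd W} (hp : Valid C p) (i : Ix W) (ρ : Nd W) (α ξ : W) :
    ∃ q : Cd W, Valid C q ∧ Le C q p ∧ (∀ j ∉ Below i, q.K j = p.K j ∧ q.φ j = p.φ j) ∧
      ∃ c, Force C q i ρ α ξ c := by
  cases i with
  | base => exact ⟨p, hp, Le.refl p, fun _ _ => ⟨rfl, rfl⟩, 0, rfl⟩
  | mk e d col bs len idx K φ =>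
    by_cases h : ∃ r : Cd W, Valid C r ∧ r.bs.Le p.bs ∧ LB C (.mk e d col bs len idx K φ) r p ∧
        ∃ k, d (ρ, α, ξ, k) ∧ Meets C r bs len idx K φ (ρ, α, ξ, k)
    · obtain ⟨r, hr, hb, hLB, k, hk, hM1, hM2⟩ := h
      refine ⟨am p r (Below (.mk e d col bs len idx K φ)), am_valid hp hr hb _,
        am_le (fun j hj k hk => Below.trans hk hj) hb hLB,
        fun j hj => ⟨am_K_nmem hj, am_φ_nmem hj⟩, col (ρ, α, ξ, k), ?_⟩
      rw [force_mk]
      refine Or.inl ⟨k, hk, rfl, hM1, fun l hl => ?_⟩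
      have hin : idx (ρ, α, ξ, k) l ∈ Below (.mk e d col bs len idx K φ) :=
        ⟨_, l, hl, Or.inl rfl⟩
      exact leAt_local ((am_agree p r _).symm.sub fun j hj => Below.trans hj hin)
        (am_K_mem hin).symm (am_φ_mem hin).symm (hM2 l hl)
    · refine ⟨p, hp, Le.refl p, fun _ _ => ⟨rfl, rfl⟩, 0, ?_⟩
      rw [force_mk]
      exact Or.inr ⟨rfl, fun r hr hb hLB k hk hM => h ⟨r, hr, hb, hLB, k, hk, hM⟩⟩

/-- the entry of level `ξ` below the T-node `τ` is decided -/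
def Dec (p : Cd W) (i : Ix W) (τ : Nd W) (ξ : W) : Prop :=
  ∃ y ∈ p.φ i, y.1.1 = ξ ∧ p.bs.Ag true y.1 τ ξ

theorem Dec.mono {p q : Cd W} (hp : Valid C p) (h : Le C q p) {i : Ix W} {τ : Nd W}
    (hτ : p.bs.Kn true τ) {ξ : W} (hd : Dec p i τ ξ) : Dec q i τ ξ := by
  obtain ⟨y, hy, h1, h2⟩ := hd
  exact ⟨y, (h.at' i).sφ hy, h1, (Bs.ag_iff ((hp i).k3 y hy) hτ h.bs).2 h2⟩

/-- decide one entry -/
theorem decide {p : Cd W} (hp : Valid C p) {i : Ix W} {x : Nd W × Nd W} (hx : x ∈ p.K i) {ξ : W}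
    (hξ : ξ ∈ C x.2.1) (hlt : ξ < x.2.1) :
    ∃ q : Cd W, Valid C q ∧ Le C q p ∧ (∀ j ∉ Below i, q.K j = p.K j ∧ (j ≠ i → q.φ j = p.φ j)) ∧
      Dec q i x.2 ξ := by
  classical
  by_cases hdec : Dec p i x.2 ξ
  · exact ⟨p, hp, Le.refl p, fun _ _ => ⟨rfl, fun _ => rfl⟩, hdec⟩
  have hB : (p.bs.addA {ξ}).Le p.bs := Bs.addA_le _ _
  obtain ⟨q, hq, hqp, hk, c, hF⟩ := exists_force (wb_valid hp hB) i x.1 x.2.1 ξ
  have hqp' : Le C q p := hqp.trans (wb_valid hp hB) hq (wb_le hB)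
  have hKi : q.K i = p.K i := (hk i (Below.irrefl i)).1
  have hφi : q.φ i = p.φ i := (hk i (Below.irrefl i)).2
  set t := q.bs.rs true x.2 ξ with ht
  have hta : ξ ∈ q.bs.a := hqp.bs.a (Finset.mem_union_right _ (Finset.mem_singleton_self ξ))
  have htK : q.bs.Kn true t := Bs.rs_kn hta _
  have htx : q.bs.Ag true t x.2 ξ := Bs.rs_ag hlt.le
  have ht1 : t.1 = ξ := rfl
  have hxK : q.bs.Kn true x.2 := (hq i).k2 x (hKi ▸ hx)
  have hnew : ∀ y ∈ q.φ i, y.1.1 = ξ → q.bs.Ag true y.1 x.2 ξ → False := by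
    intro y hy h1 h2
    rw [hφi] at hy
    exact hdec ⟨y, hy, h1, (Bs.ag_iff ((hp i).k3 y hy) ((hp i).k2 x hx) hqp'.bs).1 h2⟩
  have hval : VAt C i.e q.bs (q.K i) (insert (t, c) (q.φ i)) := by
    refine ⟨(hq i).k1, (hq i).k2, (hq i).lim, (hq i).lev, ?_, ?_, (hq i).v3, ?_⟩
    · intro y hy
      rcases Finset.mem_insert.1 hy with rfl | hy
      · exact htK
      · exact (hq i).k3 y hy
    · intro y hy y' hy' heq
      rcases Finset.mem_insert.1 hy with h1 | hy
      · rcases Finset.mem_insert.1 hy' with h2 | hy'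
        · rw [h1, h2]
        · exfalso
          rw [h1] at heq
          refine hnew y' hy' ?_ ?_
          · rw [← heq]
            rfl
          · rw [← heq]
            exact htx
      · rcases Finset.mem_insert.1 hy' with h2 | hy'
        · exfalso
          rw [h2] at heq
          refine hnew y hy ?_ ?_
          · rw [heq]
            rfl
          · rw [heq]
            exact htx
        · exact (hq i).fn y hy y' hy' heq
    · intro z hz z' hz' hne η hη hη' hag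
      obtain ⟨y, hy, h1⟩ := (hq i).v4 z hz z' hz' hne η hη hη' hag
      exact ⟨y, Finset.mem_insert_of_mem hy, h1⟩
  have hle : Le C (upd q i (q.K i) (insert (t, c) (q.φ i))) q := by
    refine upd_le (fun _ h => h) (Finset.subset_insert _ _) ?_
    intro z hz y hy hn hc hag
    rcases Finset.mem_insert.1 hy with h1 | hy
    · rw [h1] at hc hag ⊢
      by_cases hzx : z.2 = x.2
      · have : z = x := (hq i).inj hz (hKi ▸ hx) hzx
        rw [this]
        exact hF
      · exfalso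
        have h2 : q.bs.Ag true z.2 x.2 ξ := hag.symm.trans htx
        obtain ⟨y', hy', h3, h4⟩ := (hq i).v4 z hz x (hKi ▸ hx) hzx ξ hc hξ h2
        exact hnew y' hy' h3 (h4.trans h2)
    · exact absurd hy hn
  refine ⟨_, upd_valid hq hval, hle.trans hq (upd_valid hq hval) hqp', ?_, ?_⟩
  · intro j hj
    constructor
    · by_cases hji : j = i
      · rw [hji, upd_K_self, hKi]
      · rw [upd_K_ne _ _ _ hji]
        exact (hk j hj).1
    · intro hji
      rw [upd_φ_ne _ _ _ hji]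
      exact (hk j hj).2
  · exact ⟨(t, c), by rw [upd_φ_self]; exact Finset.mem_insert_self _ _, rfl, htx⟩

/-- decide finitely many entries at one index -/
theorem decide_all {p : Cd W} (hp : Valid C p) (hC : ∀ α, ∀ ξ ∈ C α, ξ < α) {i : Ix W}
    (F : Finset ((Nd W × Nd W) × W)) (hF : ∀ t ∈ F, t.1 ∈ p.K i ∧ t.2 ∈ C t.1.2.1) :
    ∃ q : Cd W, Valid C q ∧ Le C q p ∧ (∀ j ∉ Below i, q.K j = p.K j ∧ (j ≠ i → q.φ j = p.φ j)) ∧
      ∀ t ∈ F, Dec q i t.1.2 t.2 := by
  classical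
  induction F using Finset.induction_on with
  | empty =>
    exact ⟨p, hp, Le.refl p, fun _ _ => ⟨rfl, fun _ => rfl⟩,
      fun t ht => absurd ht (Finset.notMem_empty _)⟩
  | insert t F _ ih =>
    obtain ⟨q, hq, hqp, hk, hd⟩ := ih fun t' ht' => hF t' (Finset.mem_insert_of_mem ht')
    obtain ⟨h1, h2⟩ := hF t (Finset.mem_insert_self _ _)
    have h3 : t.1 ∈ q.K i := by
      rw [(hk i (Below.irrefl i)).1]
      exact h1
    obtain ⟨r, hr, hrq, hk', hd'⟩ := decide hq h3 h2 (hC _ _ h2)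
    refine ⟨r, hr, hrq.trans hq hr hqp, fun j hj => ⟨(hk' j hj).1.trans (hk j hj).1,
      fun hji => ((hk' j hj).2 hji).trans ((hk j hj).2 hji)⟩, fun t' ht' => ?_⟩
    rcases Finset.mem_insert.1 ht' with rfl | ht'
    · exact hd'
    · refine (hd t' ht').mono hq hrq ?_
      exact ((hp i).k2 _ (hF t' (Finset.mem_insert_of_mem ht')).1).mono hqp.bs

/-- decide finitely many entries at finitely many indices -/
theorem decide_J {p : Cd W} (hp : Valid C p) (hC : ∀ α, ∀ ξ ∈ C α, ξ < α) (J : Finset (Ix W))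
    (hJ : ∀ i ∈ J, ∀ j ∈ J, j ∉ Below i)
    (F : Ix W → Finset ((Nd W × Nd W) × W)) (hF : ∀ i ∈ J, ∀ t ∈ F i, t.1 ∈ p.K i ∧ t.2 ∈ C t.1.2.1) :
    ∃ q : Cd W, Valid C q ∧ Le C q p ∧
      (∀ j, (∀ i ∈ J, j ∉ Below i) → q.K j = p.K j ∧ (j ∉ J → q.φ j = p.φ j)) ∧
      ∀ i ∈ J, ∀ t ∈ F i, Dec q i t.1.2 t.2 := by
  classical
  have key : ∀ J' : Finset (Ix W), J' ⊆ J → ∃ q : Cd W, Valid C q ∧ Le C q p ∧
      (∀ j, (∀ i ∈ J, j ∉ Below i) → q.K j = p.K j ∧ (j ∉ J → q.φ j = p.φ j)) ∧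
      ∀ i ∈ J', ∀ t ∈ F i, Dec q i t.1.2 t.2 := by
    intro J'
    induction J' using Finset.induction_on with
    | empty =>
      intro _
      exact ⟨p, hp, Le.refl p, fun _ _ => ⟨rfl, fun _ => rfl⟩,
        fun i hi => absurd hi (Finset.notMem_empty _)⟩
    | insert i J' _ ih =>
      intro hsub
      have hi : i ∈ J := hsub (Finset.mem_insert_self _ _)
      obtain ⟨q, hq, hqp, hk, hd⟩ := ih fun j hj => hsub (Finset.mem_insert_of_mem hj)
      have hKi : q.K i = p.K i := (hk i fun i' hi' => hJ i' hi' i hi).1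
      obtain ⟨r, hr, hrq, hk', hd'⟩ := decide_all hq hC (F i) fun t ht => by
        rw [hKi]
        exact hF i hi t ht
      refine ⟨r, hr, hrq.trans hq hr hqp, fun j hj => ⟨?_, fun hjJ => ?_⟩, fun i' hi' t ht => ?_⟩
      · exact ((hk' j (hj i hi)).1).trans (hk j hj).1
      · refine ((hk' j (hj i hi)).2 ?_).trans ((hk j hj).2 hjJ)
        rintro rfl
        exact hjJ hi
      · rcases Finset.mem_insert.1 hi' with rfl | hi'
        · exact hd' t ht
        · refine (hd i' hi' t ht).mono hq hrq ?_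
          exact ((hp i').k2 _ (hF i' (hsub (Finset.mem_insert_of_mem hi')) t ht).1).mono hqp.bs
  exact key J fun _ h => h

/-- add a promise -/
theorem add_promise {p : Cd W} (hp : Valid C p) {i : Ix W} {ρ τ : Nd W}
    (hρ : p.bs.Kn false ρ) (hτ : p.bs.Kn true τ) (hlim : Lim τ.1) (hlev : ρ.1 = i.e τ.1)
    (H3 : ∀ x ∈ p.K i, ∀ β, (∃ ξ, ξ < β) → p.bs.Ag true τ x.2 β → p.bs.Ag false ρ x.1 (i.e β))
    (H4 : ∀ x ∈ p.K i, τ ≠ x.2 → ∀ ξ ∈ C τ.1, ξ ∈ C x.2.1 → p.bs.Ag true τ x.2 ξ →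
      Dec p i τ ξ) :
    ∃ q : Cd W, Valid C q ∧ Le C q p ∧ (ρ, τ) ∈ q.K i ∧ q.bs = p.bs := by
  classical
  have hval : VAt C i.e p.bs (insert (ρ, τ) (p.K i)) (p.φ i) := by
    refine ⟨?_, ?_, ?_, ?_, (hp i).k3, (hp i).fn, ?_, ?_⟩
    · intro x hx
      rcases Finset.mem_insert.1 hx with rfl | hx
      · exact hρ
      · exact (hp i).k1 x hx
    · intro x hx
      rcases Finset.mem_insert.1 hx with rfl | hx
      · exact hτ
      · exact (hp i).k2 x hx
    · intro x hx
      rcases Finset.mem_insert.1 hx with rfl | hx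
      · exact hlim
      · exact (hp i).lim x hx
    · intro x hx
      rcases Finset.mem_insert.1 hx with rfl | hx
      · exact hlev
      · exact (hp i).lev x hx
    · intro x hx x' hx' β hβ hag
      rcases Finset.mem_insert.1 hx with h1 | hx
      · rcases Finset.mem_insert.1 hx' with h2 | hx'
        · rw [h1, h2]
          rw [h1, h2] at hag
          refine Bs.Ag.refl ?_
          show i.e β ≤ ρ.1
          rw [hlev]
          exact i.e_mono hag.1
        · rw [h1] at hag ⊢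
          exact H3 x' hx' β hβ hag
      · rcases Finset.mem_insert.1 hx' with h2 | hx'
        · rw [h2] at hag ⊢
          exact (H3 x hx β hβ hag.symm).symm
        · exact (hp i).v3 x hx x' hx' β hβ hag
    · intro x hx x' hx' hne ξ hξ hξ' hag
      rcases Finset.mem_insert.1 hx with h1 | hx
      · rcases Finset.mem_insert.1 hx' with h2 | hx'
        · exact absurd (h1.trans h2.symm) (fun h => hne (congrArg Prod.snd h))
        · rw [h1] at hag hne hξ ⊢
          exact H4 x' hx' hne ξ hξ hξ' hag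
      · rcases Finset.mem_insert.1 hx' with h2 | hx'
        · rw [h2] at hag hne hξ'
          obtain ⟨y, hy, h3, h4⟩ := H4 x hx (Ne.symm hne) ξ hξ' hξ hag.symm
          exact ⟨y, hy, h3, h4.trans hag.symm⟩
        · exact (hp i).v4 x hx x' hx' hne ξ hξ hξ' hag
  refine ⟨upd p i (insert (ρ, τ) (p.K i)) (p.φ i), upd_valid hp hval,
    upd_le (Finset.subset_insert _ _) (fun _ h => h) fun _ _ y hy hn => absurd hy hn, ?_, rfl⟩
  rw [upd_K_self]
  exact Finset.mem_insert_self _ _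

end Cd

end Pool.Agent.Work.MP_0201f6_lc
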