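import Pool.Agent.Work.MP_0201f6_lc.A4

/-!
Extending and restricting promises.
-/

namespace Pool.Agent.Work.MP_0201f6_lc

namespace Cd

variable {W : Type} [LinearOrder W] {C : W → Set W}

/-- ladder systems -/
structure Ladder (C : W → Set W) : Prop where
  lt : ∀ α, ∀ ξ ∈ C α, ξ < α
  fin : ∀ α, ∀ β < α, (C α ∩ Set.Iio β).Finite

theorem Ladder.fin' (hC : Ladder C) {α γ : W} (hα : Lim α) (h : γ < α) :
    (C α ∩ Set.Iic γ).Finite := by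
  obtain ⟨ζ, h1, h2⟩ := hα.2 γ h
  exact (hC.fin α ζ h2).subset fun x hx => ⟨hx.1, lt_of_le_of_lt hx.2 h1⟩

/-- a promise above given nodes -/
theorem extend [Om1 W] {p : Cd W} (hp : Valid C p) (hC : Ladder C) (i : Ix W) {τ₀ s : Nd W}
    (hτ₀ : p.bs.Kn true τ₀) (hs : p.bs.Kn false s)
    (H : ∀ x ∈ p.K i, ∀ β, (∃ ξ, ξ < β) → p.bs.Ag true τ₀ x.2 β → p.bs.Ag false s x.1 (i.e β))
    (γ : W) :
    ∃ q : Cd W, Valid C q ∧ Le C q p ∧ ∃ x ∈ q.K i, γ ≤ x.2.1 ∧ q.bs.Ag false s x.1 s.1 ∧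
      q.bs.Ag true τ₀ x.2 τ₀.1 := by
  classical
  obtain ⟨α, hα, hlt⟩ := exists_lim (max (max γ s.1) τ₀.1)
  have hγα : γ < α := ((le_max_left _ _).trans (le_max_left _ _)).trans_lt hlt
  have hsα : s.1 < α := ((le_max_right _ _).trans (le_max_left _ _)).trans_lt hlt
  have hτα : τ₀.1 < α := (le_max_right _ _).trans_lt hlt
  have hB : ((p.bs.addU {τ₀.1}).addA {α, i.e α}).Le p.bs :=
    (Bs.addA_le _ _).trans (Bs.addU_le _ _)
  have hp1 := wb_valid hp hB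
  have hle1 : Le C (wb p _) p := wb_le hB
  set p1 := wb p ((p.bs.addU {τ₀.1}).addA {α, i.e α}) with hp1def
  have hK1 : p1.K i = p.K i := rfl
  have hFfin := hC.fin' hα hτα
  let F : Finset ((Nd W × Nd W) × W) :=
    ((p1.K i) ×ˢ hFfin.toFinset).filter fun t => t.2 ∈ C t.1.2.1
  obtain ⟨p2, hp2, hle2, hk2, hd⟩ := decide_all hp1 hC.lt F (fun t ht => by
    obtain ⟨h1, h2⟩ := Finset.mem_filter.1 ht
    exact ⟨(Finset.mem_product.1 h1).1, h2⟩)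
  have hK2 : p2.K i = p.K i := (hk2 i (Below.irrefl i)).1.trans hK1
  have hle20 : Le C p2 p := hle2.trans hp1 hp2 hle1
  have hαa : α ∈ p2.bs.a := hle2.bs.a (Finset.mem_union_right _ (by simp))
  have hea : i.e α ∈ p2.bs.a := hle2.bs.a (Finset.mem_union_right _ (by simp))
  have hγu : τ₀.1 ∈ p2.bs.u := hle2.bs.u (Finset.mem_union_right _ (by simp))
  have hτ₀2 : p2.bs.Kn true τ₀ := hτ₀.mono hle20.bs
  have hs2 : p2.bs.Kn false s := hs.mono hle20.bs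
  let M : ℕ := ((p2.K i).sup fun x => p2.bs.vl true x.2 τ₀.1) + 1
  have hM : ∀ x ∈ p2.K i, p2.bs.vl true x.2 τ₀.1 ≠ M := by
    intro x hx h
    have : p2.bs.vl true x.2 τ₀.1 ≤ (p2.K i).sup fun x => p2.bs.vl true x.2 τ₀.1 :=
      Finset.le_sup (f := fun x : Nd W × Nd W => p2.bs.vl true x.2 τ₀.1) hx
    omega
  let τ : Nd W := p2.bs.mkN true α fun ξ => if ξ < τ₀.1 then p2.bs.vl true τ₀ ξ else M
  let ρ : Nd W := p2.bs.mkN false (i.e α) (p2.bs.vl false s)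
  have hτK : p2.bs.Kn true τ := Bs.mkN_kn hαa _
  have hρK : p2.bs.Kn false ρ := Bs.mkN_kn hea _
  have hτ1 : τ.1 = α := rfl
  have hρ1 : ρ.1 = i.e α := rfl
  have hse : s.1 ≤ i.e α := hsα.le.trans (i.le_e α)
  have hττ : p2.bs.Ag true τ₀ τ τ₀.1 := by
    refine ⟨le_rfl, hτα.le, fun ξ hξ hlt => ?_⟩
    have := Bs.mkN_vl (b := true) (f := fun ξ => if ξ < τ₀.1 then p2.bs.vl true τ₀ ξ else M)
      hξ (hlt.trans hτα)
    rw [this, if_pos hlt]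
  have hτv : p2.bs.vl true τ τ₀.1 = M := by
    have := Bs.mkN_vl (b := true) (f := fun ξ => if ξ < τ₀.1 then p2.bs.vl true τ₀ ξ else M)
      hγu hτα
    rw [this, if_neg (lt_irrefl _)]
  have hsρ : p2.bs.Ag false s ρ s.1 :=
    ⟨le_rfl, hse, fun ξ hξ hlt => (Bs.mkN_vl hξ (hlt.trans_le hse)).symm⟩
  have hsplit : ∀ x ∈ p2.K i, ∀ β, p2.bs.Ag true τ x.2 β → β ≤ τ₀.1 := by
    intro x hx β hag
    by_contra hlt
    push Not at hlt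
    exact hM x hx ((hag.2.2 τ₀.1 hγu hlt).symm.trans hτv)
  obtain ⟨q, hq, hq2, hin, hbs⟩ := add_promise hp2 hρK hτK (i := i) hα hρ1 (by
    intro x hx β hβ hag
    have h1 := hsplit x hx β hag
    have h2 : p2.bs.Ag true τ₀ x.2 β := (hττ.mono h1).trans hag
    have hx' : x ∈ p.K i := hK2 ▸ hx
    have h3 := H x hx' β hβ ((Bs.ag_iff hτ₀ ((hp i).k2 x hx') hle20.bs).1 h2)
    have h4 := (Bs.ag_iff hs ((hp i).k1 x hx') hle20.bs).2 h3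
    exact (hsρ.mono h4.1).symm.trans h4) (by
    intro x hx hne ξ hξ hξ' hag
    have h1 := hsplit x hx ξ hag
    have h2 : (x, ξ) ∈ F := by
      refine Finset.mem_filter.2 ⟨Finset.mem_product.2 ⟨?_, ?_⟩, hξ'⟩
      · rw [hK1, ← hK2]
        exact hx
      · exact hFfin.mem_toFinset.2 ⟨hξ, h1⟩
    obtain ⟨y, hy, h3, h4⟩ := hd _ h2
    exact ⟨y, hy, h3, h4.trans hag.symm⟩)
  refine ⟨q, hq, hq2.trans hp2 hq hle20, (ρ, τ), hin, hγα.le, ?_, ?_⟩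
  · rw [hbs]
    exact hsρ
  · rw [hbs]
    exact hττ

/-- promises above a given promise -/
theorem extend_promise [Om1 W] {p : Cd W} (hp : Valid C p) (hC : Ladder C) {i : Ix W}
    {x : Nd W × Nd W} (hx : x ∈ p.K i) {s : Nd W} (hs : p.bs.Kn false s)
    (hag : p.bs.Ag false x.1 s x.1.1) (γ : W) :
    ∃ q : Cd W, Valid C q ∧ Le C q p ∧ ∃ x' ∈ q.K i, γ ≤ x'.2.1 ∧ q.bs.Ag false s x'.1 s.1 ∧
      q.bs.Ag true x.2 x'.2 x.2.1 := by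
  refine extend hp hC i ((hp i).k2 x hx) hs (fun x' hx' β hβ h => ?_) γ
  have h1 := (hp i).v3 x hx x' hx' β hβ h
  exact (hag.mono h1.1).symm.trans h1

/-- promises above a given S-node -/
theorem extend_node [Om1 W] {p : Cd W} (hp : Valid C p) (hC : Ladder C) (i : Ix W)
    {s : Nd W} (hs : p.bs.Kn false s) (γ : W) :
    ∃ q : Cd W, Valid C q ∧ Le C q p ∧ ∃ x' ∈ q.K i, γ ≤ x'.2.1 ∧
      q.bs.Ag false s x'.1 s.1 := by
  classical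
  let m : W := (wellFounded_lt (α := W)).min Set.univ Set.univ_nonempty
  have hm : ∀ β : W, β ≤ m → ¬ ∃ ξ, ξ < β := by
    rintro β hβ ⟨ξ, hξ⟩
    exact (wellFounded_lt (α := W)).not_lt_min Set.univ (Set.mem_univ ξ) (hξ.trans_le hβ)
  have hB : (p.bs.addA {m}).Le p.bs := Bs.addA_le _ _
  have hτ₀ : (wb p (p.bs.addA {m})).bs.Kn true ((m, 0) : Nd W) := by
    refine ⟨Finset.mem_union_right _ (Finset.mem_singleton_self m), fun ξ hξ => ?_⟩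
    exact absurd rfl hξ
  obtain ⟨q, hq, hqp, x, hx, h1, h2, _⟩ := extend (wb_valid hp hB) hC i hτ₀ (hs.mono hB)
    (fun x hx β hβ hag => absurd hβ (hm β hag.1)) γ
  exact ⟨q, hq, hqp.trans (wb_valid hp hB) hq (wb_le hB), x, hx, h1, h2⟩

/-- restriction of promises -/
theorem restrict {p : Cd W} (hp : Valid C p) (hC : Ladder C) {i : Ix W} {x : Nd W × Nd W}
    (hx : x ∈ p.K i) {β : W} (hβ : Lim β) (hlt : β < x.2.1) :
    ∃ q : Cd W, Valid C q ∧ Le C q p ∧ ∃ x' ∈ q.K i, x'.2.1 = β ∧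
      q.bs.Ag false x'.1 x.1 x'.1.1 ∧ q.bs.Ag true x'.2 x.2 β := by
  classical
  have hB : (p.bs.addA {β, i.e β}).Le p.bs := Bs.addA_le _ _
  have hp1 := wb_valid hp hB
  have hle1 : Le C (wb p _) p := wb_le hB
  set p1 := wb p (p.bs.addA {β, i.e β}) with hp1def
  have hK1 : p1.K i = p.K i := rfl
  have hβa : β ∈ p1.bs.a := Finset.mem_union_right _ (by simp)
  have hea : i.e β ∈ p1.bs.a := Finset.mem_union_right _ (by simp)
  have hx1 : x ∈ p1.K i := hx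
  let ρ₁ : Nd W := p1.bs.rs false x.1 (i.e β)
  let τ₁ : Nd W := p1.bs.rs true x.2 β
  have hρ₁ : p1.bs.Kn false ρ₁ := Bs.rs_kn hea _
  have hτ₁ : p1.bs.Kn true τ₁ := Bs.rs_kn hβa _
  have hlev : i.e β ≤ x.1.1 := by
    rw [(hp i).lev x hx]
    exact i.e_mono hlt.le
  have hρag : p1.bs.Ag false ρ₁ x.1 (i.e β) := Bs.rs_ag hlev
  have hτag : p1.bs.Ag true τ₁ x.2 β := Bs.rs_ag hlt.le
  have hfin : ∀ z ∈ p1.K i, τ₁ ≠ z.2 →
      {ξ | ξ ∈ C β ∧ ξ ∈ C z.2.1 ∧ p1.bs.Ag true τ₁ z.2 ξ}.Finite := by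
    intro z hz hne
    rcases lt_trichotomy z.2.1 β with h | h | h
    · exact (hC.fin β _ h).subset fun ξ hξ => ⟨hξ.1, hC.lt _ _ hξ.2.1⟩
    · have h1 : ∃ δ ∈ p1.bs.u, δ < β ∧ p1.bs.vl true τ₁ δ ≠ p1.bs.vl true z.2 δ := by
        by_contra hcon
        push Not at hcon
        exact hne (Bs.Ag.eq hτ₁ ((hp1 i).k2 z hz) h.symm ⟨le_rfl, h.ge, hcon⟩)
      obtain ⟨δ, hδ, hδβ, hv⟩ := h1
      refine (hC.fin' hβ hδβ).subset fun ξ hξ => ⟨hξ.1, ?_⟩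
      by_contra hlt'
      exact hv (hξ.2.2.2.2 δ hδ (not_le.1 hlt'))
    · exact (hC.fin _ _ h).subset fun ξ hξ => ⟨hξ.2.1, hC.lt _ _ hξ.1⟩
  let F : Finset ((Nd W × Nd W) × W) := (p1.K i).biUnion fun z =>
    if h : z ∈ p1.K i ∧ τ₁ ≠ z.2 then (hfin z h.1 h.2).toFinset.image fun ξ => (z, ξ) else ∅
  have hF : ∀ z ξ, (z, ξ) ∈ F ↔ z ∈ p1.K i ∧ τ₁ ≠ z.2 ∧ ξ ∈ C β ∧ ξ ∈ C z.2.1 ∧
      p1.bs.Ag true τ₁ z.2 ξ := by
    intro z ξ
    constructor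
    · intro h
      obtain ⟨z', hz', h1⟩ := Finset.mem_biUnion.1 h
      by_cases h2 : z' ∈ p1.K i ∧ τ₁ ≠ z'.2
      · rw [dif_pos h2] at h1
        obtain ⟨ξ', h3, h4⟩ := Finset.mem_image.1 h1
        obtain ⟨rfl, rfl⟩ := Prod.mk.inj h4
        have h5 := (Set.Finite.mem_toFinset _).1 h3
        exact ⟨h2.1, h2.2, h5⟩
      · rw [dif_neg h2] at h1
        exact absurd h1 (Finset.notMem_empty _)
    · rintro ⟨h1, h2, h3⟩
      refine Finset.mem_biUnion.2 ⟨z, h1, ?_⟩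
      rw [dif_pos ⟨h1, h2⟩]
      exact Finset.mem_image.2 ⟨ξ, (Set.Finite.mem_toFinset _).2 h3, rfl⟩
  obtain ⟨p2, hp2, hle2, hk2, hd⟩ := decide_all hp1 hC.lt F (fun t ht => by
    obtain ⟨z, ξ⟩ := t
    obtain ⟨h1, h2, h3, h4, h5⟩ := (hF z ξ).1 ht
    exact ⟨h1, h4⟩)
  have hK2 : p2.K i = p1.K i := (hk2 i (Below.irrefl i)).1
  have hle20 : Le C p2 p := hle2.trans hp1 hp2 hle1
  have hρ2 := hρ₁.mono hle2.bs
  have hτ2 := hτ₁.mono hle2.bs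
  have hρag2 : p2.bs.Ag false ρ₁ x.1 (i.e β) := (Bs.ag_iff hρ₁ ((hp1 i).k1 x hx) hle2.bs).2 hρag
  have hτag2 : p2.bs.Ag true τ₁ x.2 β := (Bs.ag_iff hτ₁ ((hp1 i).k2 x hx) hle2.bs).2 hτag
  obtain ⟨q, hq, hq2, hin, hbs⟩ := add_promise hp2 hρ2 hτ2 (i := i) hβ rfl (by
    intro z hz δ hδ hag
    have h1 : δ ≤ β := hag.1
    have h2 := (hp2 i).v3 x (hK2.symm ▸ hx) z hz δ hδ ((hτag2.mono h1).symm.trans hag)
    exact (hρag2.mono (i.e_mono h1)).trans h2) (by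
    intro z hz hne ξ hξ hξ' hag
    have hz1 : z ∈ p1.K i := hK2 ▸ hz
    have h1 : (z, ξ) ∈ F := (hF z ξ).2 ⟨hz1, hne, hξ, hξ',
      (Bs.ag_iff hτ₁ ((hp1 i).k2 z hz1) hle2.bs).1 hag⟩
    obtain ⟨y, hy, h3, h4⟩ := hd _ h1
    exact ⟨y, hy, h3, h4.trans hag.symm⟩)
  refine ⟨q, hq, hq2.trans hp2 hq hle20, (ρ₁, τ₁), hin, rfl, ?_, ?_⟩
  · rw [hbs]
    exact hρag2
  · rw [hbs]
    exact hτag2

/-- promises are kept -/
theorem kept {p q : Cd W} (hC : Ladder C) (hqp : Le C q p)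
    {i : Ix W} {x : Nd W × Nd W} (hx : x ∈ p.K i) (hq : Valid C q) {ξ : W} (hξ : ξ ∈ C x.2.1)
    (hnew : ∀ y ∈ p.φ i, y.1.1 ≠ ξ) :
    ∃ r : Cd W, Valid C r ∧ Le C r q ∧ ∃ y ∈ r.φ i, y.1.1 = ξ ∧ r.bs.Ag true y.1 x.2 ξ ∧
      Force C r i x.1 x.2.1 ξ y.2 := by
  obtain ⟨r, hr, hrq, hk, y, hy, h1, h2⟩ := decide hq ((hqp.at' i).sK hx) hξ (hC.lt _ _ hξ)
  have hrp := hrq.trans hq hr hqp
  refine ⟨r, hr, hrq, y, hy, h1, h2, ?_⟩
  rw [← h1]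
  exact (hrp.at' i).new x hx y hy (fun h => hnew y h h1) (h1 ▸ hξ) (h1.symm ▸ h2)

end Cd

end Pool.Agent.Work.MP_0201f6_lc
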