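import Pool.Agent.Work.MP_0201f6_lc.A5

/-!
Ranks, restrictions, gluing.
-/

namespace Pool.Agent.Work.MP_0201f6_lc

variable {W : Type} [LinearOrder W] {C : W → Set W}

/-- the rank of an index -/
noncomputable def rk : Ix W → Ordinal.{0}
  | .base => 0
  | .mk _ _ _ _ _ idx _ _ => ⨆ x : Ar W × ℕ, Order.succ (rk (idx x.1 x.2))

theorem rk_lt {i j : Ix W} (h : j ∈ Cd.Below i) : rk j < rk i := by
  induction i with
  | base => exact absurd h (Set.notMem_empty j)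
  | mk e d col bs len idx K φ ih =>
    have h1 : ∀ a l, rk (idx a l) < rk (.mk e d col bs len idx K φ) := by
      intro a l
      rw [rk]
      exact (Order.lt_succ _).trans_le
        (Ordinal.le_iSup (fun x : Ar W × ℕ => Order.succ (rk (idx x.1 x.2))) (a, l))
    obtain ⟨a, l, hl, rfl | h2⟩ := h
    · exact h1 a l
    · exact (ih a l h2).trans (h1 a l)

/-- hypotheses for gluing two local parts -/
structure Gl (C : W → Set W) (e : W → W) (B : Bs W) (K K' : Finset (Nd W × Nd W))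
    (φ φ' : Finset (Nd W × ℕ)) (ε ε' η : W) : Prop where
  v : VAt C e B K φ
  v' : VAt C e B K' φ'
  kl : ∀ x ∈ K, x.2.1 < ε → x ∈ K'
  kl' : ∀ x ∈ K', x.2.1 < ε' → x ∈ K ∧ x.2.1 < ε
  pl : ∀ y ∈ φ, y.1.1 < ε → y ∈ φ'
  pl' : ∀ y ∈ φ', y.1.1 < ε' → y ∈ φ ∧ y.1.1 < ε
  kb : ∀ x ∈ K, x.2.1 < ε'
  pb : ∀ y ∈ φ, y.1.1 < ε'
  dec : ∀ x ∈ K', ε' ≤ x.2.1 → ∀ ξ ∈ C x.2.1, ξ < ε' → ∃ y ∈ φ', y.1.1 = ξ ∧ B.Ag true y.1 x.2 ξ
  par : ∀ x ∈ K, ε ≤ x.2.1 → ∃ x₁ ∈ K', B.Ag false x.1 x₁.1 (e η) ∧ B.Ag true x.2 x₁.2 η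
  spl : ∀ x ∈ K, ε ≤ x.2.1 → ∀ x' ∈ K', ε' ≤ x'.2.1 →
    ∃ ξ ∈ B.u, ξ ≤ η ∧ B.vl true x.2 ξ ≠ B.vl true x'.2 ξ

open Classical in
theorem Gl.union {e : W → W} {B : Bs W} {K K' : Finset (Nd W × Nd W)}
    {φ φ' : Finset (Nd W × ℕ)} {ε ε' η : W} (h : Gl C e B K K' φ φ' ε ε' η) (he : Monotone e)
    (hC : ∀ α, ∀ ξ ∈ C α, ξ < α) : VAt C e B (K ∪ K') (φ ∪ φ') := by
  have fn : ∀ y ∈ φ, ∀ y' ∈ φ', y.1 = y'.1 → y.2 = y'.2 := by
    intro y hy y' hy' heq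
    by_cases h1 : y.1.1 < ε
    · exact h.v'.fn y (h.pl y hy h1) y' hy' heq
    · have h2 : y'.1.1 < ε' := heq ▸ h.pb y hy
      exact h.v.fn y hy y' (h.pl' y' hy' h2).1 heq
  have v3 : ∀ x ∈ K, ∀ x' ∈ K', ∀ β, (∃ ξ, ξ < β) → B.Ag true x.2 x'.2 β →
      B.Ag false x.1 x'.1 (e β) := by
    intro x hx x' hx' β hβ hag
    by_cases h1 : x.2.1 < ε
    · exact h.v'.v3 x (h.kl x hx h1) x' hx' β hβ hag
    by_cases h2 : x'.2.1 < ε'
    · exact h.v.v3 x hx x' (h.kl' x' hx' h2).1 β hβ hag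
    obtain ⟨ξ, hξ, hξη, hne⟩ := h.spl x hx (not_lt.1 h1) x' hx' (not_lt.1 h2)
    have hβη : β ≤ η := by
      by_contra hlt
      push Not at hlt
      exact hne (hag.2.2 ξ hξ (hξη.trans_lt hlt))
    obtain ⟨x₁, hx₁, h3, h4⟩ := h.par x hx (not_lt.1 h1)
    have h5 := h.v'.v3 x₁ hx₁ x' hx' β hβ ((h4.mono hβη).symm.trans hag)
    exact (h3.mono (he hβη)).trans h5
  have v4 : ∀ x ∈ K, ∀ x' ∈ K', x.2 ≠ x'.2 → ∀ ξ ∈ C x.2.1, ξ ∈ C x'.2.1 →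
      B.Ag true x.2 x'.2 ξ → ∃ y ∈ φ ∪ φ', y.1.1 = ξ ∧ B.Ag true y.1 x.2 ξ := by
    intro x hx x' hx' hne ξ hξ hξ' hag
    by_cases h1 : x.2.1 < ε
    · obtain ⟨y, hy, h3⟩ := h.v'.v4 x (h.kl x hx h1) x' hx' hne ξ hξ hξ' hag
      exact ⟨y, Finset.mem_union_right _ hy, h3⟩
    by_cases h2 : x'.2.1 < ε'
    · obtain ⟨y, hy, h3⟩ := h.v.v4 x hx x' (h.kl' x' hx' h2).1 hne ξ hξ hξ' hag
      exact ⟨y, Finset.mem_union_left _ hy, h3⟩
    obtain ⟨y, hy, h3, h4⟩ := h.dec x' hx' (not_lt.1 h2) ξ hξ' ((hC _ _ hξ).trans (h.kb x hx))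
    exact ⟨y, Finset.mem_union_right _ hy, h3, h4.trans hag.symm⟩
  refine ⟨?_, ?_, ?_, ?_, ?_, ?_, ?_, ?_⟩
  · intro x hx
    rcases Finset.mem_union.1 hx with hx | hx
    exacts [h.v.k1 x hx, h.v'.k1 x hx]
  · intro x hx
    rcases Finset.mem_union.1 hx with hx | hx
    exacts [h.v.k2 x hx, h.v'.k2 x hx]
  · intro x hx
    rcases Finset.mem_union.1 hx with hx | hx
    exacts [h.v.lim x hx, h.v'.lim x hx]
  · intro x hx
    rcases Finset.mem_union.1 hx with hx | hx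
    exacts [h.v.lev x hx, h.v'.lev x hx]
  · intro x hx
    rcases Finset.mem_union.1 hx with hx | hx
    exacts [h.v.k3 x hx, h.v'.k3 x hx]
  · intro y hy y' hy' heq
    rcases Finset.mem_union.1 hy with hy | hy
    · rcases Finset.mem_union.1 hy' with hy' | hy'
      · exact h.v.fn y hy y' hy' heq
      · exact fn y hy y' hy' heq
    · rcases Finset.mem_union.1 hy' with hy' | hy'
      · exact (fn y' hy' y hy heq.symm).symm
      · exact h.v'.fn y hy y' hy' heq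
  · intro x hx x' hx' β hβ hag
    rcases Finset.mem_union.1 hx with hx | hx
    · rcases Finset.mem_union.1 hx' with hx' | hx'
      · exact h.v.v3 x hx x' hx' β hβ hag
      · exact v3 x hx x' hx' β hβ hag
    · rcases Finset.mem_union.1 hx' with hx' | hx'
      · exact (v3 x' hx' x hx β hβ hag.symm).symm
      · exact h.v'.v3 x hx x' hx' β hβ hag
  · intro x hx x' hx' hne ξ hξ hξ' hag
    rcases Finset.mem_union.1 hx with hx | hx
    · rcases Finset.mem_union.1 hx' with hx' | hx'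
      · obtain ⟨y, hy, h3⟩ := h.v.v4 x hx x' hx' hne ξ hξ hξ' hag
        exact ⟨y, Finset.mem_union_left _ hy, h3⟩
      · exact v4 x hx x' hx' hne ξ hξ hξ' hag
    · rcases Finset.mem_union.1 hx' with hx' | hx'
      · obtain ⟨y, hy, h3, h4⟩ := v4 x' hx' x hx hne.symm ξ hξ' hξ hag.symm
        exact ⟨y, hy, h3, h4.trans hag.symm⟩
      · obtain ⟨y, hy, h3⟩ := h.v'.v4 x hx x' hx' hne ξ hξ hξ' hag
        exact ⟨y, Finset.mem_union_right _ hy, h3⟩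

theorem Gl.new {e : W → W} {B : Bs W} {K K' : Finset (Nd W × Nd W)}
    {φ φ' : Finset (Nd W × ℕ)} {ε ε' η : W} (h : Gl C e B K K' φ φ' ε ε' η)
    (hC : ∀ α, ∀ ξ ∈ C α, ξ < α) : ∀ x ∈ K, ∀ y ∈ φ', y ∉ φ → y.1.1 ∉ C x.2.1 := by
  intro x hx y hy hn hc
  exact hn (h.pl' y hy ((hC _ _ hc).trans (h.kb x hx))).1

theorem Gl.new' {e : W → W} {B : Bs W} {K K' : Finset (Nd W × Nd W)}
    {φ φ' : Finset (Nd W × ℕ)} {ε ε' η : W} (h : Gl C e B K K' φ φ' ε ε' η)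
    (hC : ∀ α, ∀ ξ ∈ C α, ξ < α) : ∀ x ∈ K', ∀ y ∈ φ, y ∉ φ' → y.1.1 ∉ C x.2.1 := by
  intro x hx y hy hn hc
  have h1 : ε ≤ y.1.1 := not_lt.1 fun h1 => hn (h.pl y hy h1)
  by_cases h2 : x.2.1 < ε'
  · exact absurd ((hC _ _ hc).trans (h.kl' x hx h2).2) (not_lt.2 h1)
  · obtain ⟨z, hz, h3, _⟩ := h.dec x hx (not_lt.1 h2) _ hc (h.pb y hy)
    have h4 := (h.pl' z hz (h3 ▸ h.pb y hy)).2
    rw [h3] at h4
    exact absurd h4 (not_lt.2 h1)

namespace Cd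

/-- the empty condition with a given base -/
def emp (B : Bs W) : Cd W := ⟨B, fun _ => ∅, fun _ => ∅, by simp⟩

theorem emp_valid (B : Bs W) : Valid C (emp B) := fun _ => VAt.empty

/-- restriction of a condition to a set of indices -/
noncomputable def rst (p : Cd W) (S : Set (Ix W)) : Cd W := am (emp p.bs) p S

theorem rst_valid {p : Cd W} (hp : Valid C p) (S : Set (Ix W)) : Valid C (rst p S) :=
  am_valid (emp_valid _) hp (Bs.Le.refl _) S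

theorem rst_K_mem {p : Cd W} {S : Set (Ix W)} {j : Ix W} (h : j ∈ S) : (rst p S).K j = p.K j :=
  am_K_mem h

theorem rst_φ_mem {p : Cd W} {S : Set (Ix W)} {j : Ix W} (h : j ∈ S) : (rst p S).φ j = p.φ j :=
  am_φ_mem h

theorem rst_K_nmem {p : Cd W} {S : Set (Ix W)} {j : Ix W} (h : j ∉ S) : (rst p S).K j = ∅ :=
  am_K_nmem h

theorem rst_φ_nmem {p : Cd W} {S : Set (Ix W)} {j : Ix W} (h : j ∉ S) : (rst p S).φ j = ∅ :=
  am_φ_nmem h

open Classical in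
/-- gluing: `q` on `S`, unions elsewhere -/
noncomputable def glue (p p' q : Cd W) (S : Set (Ix W)) : Cd W where
  bs := q.bs
  K j := if j ∈ S then q.K j else p.K j ∪ p'.K j
  φ j := if j ∈ S then q.φ j else p.φ j ∪ p'.φ j
  fin := by
    refine ((p.fin.union p'.fin).union q.fin).subset fun j hj => ?_
    by_cases h : j ∈ S
    · simp only [Set.mem_ofPred_eq, h, if_true] at hj
      exact Or.inr hj
    · simp only [Set.mem_ofPred_eq, h, if_false] at hj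
      by_contra hcon
      simp only [Set.mem_union, Set.mem_ofPred_eq, not_or, not_not] at hcon
      rw [hcon.1.1.1, hcon.1.1.2, hcon.1.2.1, hcon.1.2.2] at hj
      simp at hj

theorem glue_K_mem {p p' q : Cd W} {S : Set (Ix W)} {j : Ix W} (h : j ∈ S) :
    (glue p p' q S).K j = q.K j := if_pos h

theorem glue_φ_mem {p p' q : Cd W} {S : Set (Ix W)} {j : Ix W} (h : j ∈ S) :
    (glue p p' q S).φ j = q.φ j := if_pos h

open Classical in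
theorem glue_K_nmem {p p' q : Cd W} {S : Set (Ix W)} {j : Ix W} (h : j ∉ S) :
    (glue p p' q S).K j = p.K j ∪ p'.K j := if_neg h

open Classical in
theorem glue_φ_nmem {p p' q : Cd W} {S : Set (Ix W)} {j : Ix W} (h : j ∉ S) :
    (glue p p' q S).φ j = p.φ j ∪ p'.φ j := if_neg h

theorem glue_le {p p' q p₁ : Cd W} {S : Set (Ix W)} (hS : ∀ j ∈ S, Below j ⊆ S)
    (hq : Le C q (rst p₁ S))
    (hK : ∀ j ∉ S, p₁.K j ⊆ (glue p p' q S).K j) (hφ : ∀ j ∉ S, p₁.φ j ⊆ (glue p p' q S).φ j)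
    (hnew : ∀ j ∉ S, ∀ x ∈ p₁.K j, ∀ y ∈ (glue p p' q S).φ j, y ∉ p₁.φ j → y.1.1 ∉ C x.2.1) :
    Le C (glue p p' q S) p₁ where
  bs := hq.bs
  at' j := by
    by_cases hj : j ∈ S
    · have h1 := hq.at' j
      rw [rst_K_mem hj, rst_φ_mem hj] at h1
      have h2 : Agree S q (glue p p' q S) :=
        ⟨rfl, fun _ hj => (glue_K_mem hj).symm, fun _ hj => (glue_φ_mem hj).symm⟩
      exact leAt_local (h2.sub (hS j hj)) (h2.K j hj) (h2.φ j hj) h1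
    · exact ⟨hK j hj, hφ j hj, fun x hx y hy hn hc _ => absurd hc (hnew j hj x hx y hy hn)⟩

/-- the outcome of an amalgamation -/
structure Out (C : W → Set W) {ι : Type} (p : W → Cd W) (σ τ : W → ι → Nd W) (s : W → Nd W)
    (e : W → W) (k k' : W) (q : Cd W) (η : W) : Prop where
  val : Valid C q
  le : Le C q (p k)
  le' : Le C q (p k')
  lt : η < k
  slt : (s k).1 < k'
  S1 : ∀ l, q.bs.Ag false (σ k l) (σ k' l) (e η)
  T1 : ∀ l, q.bs.Ag true (τ k l) (τ k' l) η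
  T2 : ∀ l l', ∃ ξ ∈ q.bs.u, ξ ≤ η ∧ q.bs.vl true (τ k l) ξ ≠ q.bs.vl true (τ k' l') ξ
  S2 : q.bs.Ag false (s k) (s k') (s k).1

/-- the support -/
def Sp (p : Cd W) (i : Ix W) : Prop := p.K i ≠ ∅ ∨ p.φ i ≠ ∅

/-- strong amalgamation for conditions on indices of rank `< r` -/
def SAP (C : W → Set W) (r : Ordinal.{0}) : Prop :=
  ∀ (ι : Type) [Finite ι] (Z : Set W) (_ : Unb Z) (p : W → Cd W) (σ τ : W → ι → Nd W)
    (s : W → Nd W) (_ : ∀ k ∈ Z, Valid C (p k)) (_ : ∀ k ∈ Z, ∀ i, Sp (p k) i → rk i < r)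
    (_ : ∀ k ∈ Z, ∀ l, (p k).bs.Kn false (σ k l) ∧ k ≤ (σ k l).1)
    (_ : ∀ k ∈ Z, ∀ l, (p k).bs.Kn true (τ k l) ∧ k ≤ (τ k l).1)
    (_ : ∀ k ∈ Z, (p k).bs.Kn false (s k) ∧ k ≤ (s k).1) (e : W → W),
    ∃ k ∈ Z, ∃ k' ∈ Z, k < k' ∧ ∃ q η, Out C p σ τ s e k k' q η

end Cd

end Pool.Agent.Work.MP_0201f6_lc
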