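import Pool.Agent.Work.MP_0201f6_lc.A6

/-!
The induction step of the strong amalgamation.
-/

namespace Pool.Agent.Work.MP_0201f6_lc

namespace Cd

variable {W : Type} [LinearOrder W] {C : W → Set W}

theorem exists_bound_lt {ε : W} (hε : ∃ ξ, ξ < ε) (F : Finset W) :
    ∃ g < ε, ∀ l ∈ F, l < ε → l ≤ g := by
  classical
  rcases (F.filter fun l => l < ε).eq_empty_or_nonempty with h | h
  · obtain ⟨ξ, hξ⟩ := hε
    refine ⟨ξ, hξ, fun l hl hlt => ?_⟩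
    have : l ∈ F.filter fun l => l < ε := Finset.mem_filter.2 ⟨hl, hlt⟩
    rw [h] at this
    exact absurd this (Finset.notMem_empty _)
  · refine ⟨(F.filter fun l => l < ε).max' h,
      (Finset.mem_filter.1 (Finset.max'_mem _ h)).2, fun l hl hlt => ?_⟩
    exact Finset.le_max' _ _ (Finset.mem_filter.2 ⟨hl, hlt⟩)

/-- decide the ladder points below `ε` of all high promises at the indices in `T` -/
theorem sap_prep (hC : Ladder C) {p : Cd W} (hp : Valid C p) (T : Finset (Ix W))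
    (r' : Ordinal.{0}) (hT : ∀ i ∈ T, rk i = r') (ε : W)
    (hε : ∀ i ∈ T, ∀ x ∈ p.K i, x.2.1 ≠ ε) :
    ∃ q : Cd W, Valid C q ∧ Le C q p ∧
      (∀ j, r' ≤ rk j → q.K j = p.K j ∧ (j ∉ T → q.φ j = p.φ j)) ∧
      ∀ i ∈ T, ∀ x ∈ q.K i, x.2.1 ≠ ε ∧ (ε < x.2.1 → ∀ ξ ∈ C x.2.1, ξ < ε → Dec q i x.2 ξ) := by
  classical
  let F : Ix W → Finset ((Nd W × Nd W) × W) := fun i => (p.K i).biUnion fun x =>
    if h : ε < x.2.1 then (hC.fin _ _ h).toFinset.image fun ξ => (x, ξ) else ∅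
  have hF : ∀ i x ξ, (x, ξ) ∈ F i ↔ x ∈ p.K i ∧ ε < x.2.1 ∧ ξ ∈ C x.2.1 ∧ ξ < ε := by
    intro i x ξ
    constructor
    · intro h
      obtain ⟨z, hz, h1⟩ := Finset.mem_biUnion.1 h
      by_cases h2 : ε < z.2.1
      · rw [dif_pos h2] at h1
        obtain ⟨ξ', h3, h4⟩ := Finset.mem_image.1 h1
        obtain ⟨rfl, rfl⟩ := Prod.mk.inj h4
        have h5 := (Set.Finite.mem_toFinset _).1 h3
        exact ⟨hz, h2, h5⟩
      · rw [dif_neg h2] at h1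
        exact absurd h1 (Finset.notMem_empty _)
    · rintro ⟨h1, h2, h3⟩
      refine Finset.mem_biUnion.2 ⟨x, h1, ?_⟩
      rw [dif_pos h2]
      exact Finset.mem_image.2 ⟨ξ, (Set.Finite.mem_toFinset _).2 h3, rfl⟩
  have hTB : ∀ i ∈ T, ∀ j, r' ≤ rk j → j ∉ Below i := by
    intro i hi j hj hb
    have := rk_lt hb
    rw [hT i hi] at this
    exact absurd hj (not_le.2 this)
  obtain ⟨q, hq, hqp, hk, hd⟩ := decide_J hp hC.lt T
    (fun i hi j hj => hTB i hi j (hT j hj).ge) F (fun i hi t ht => by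
      obtain ⟨x, ξ⟩ := t
      obtain ⟨h1, h2, h3, h4⟩ := (hF i x ξ).1 ht
      exact ⟨h1, h3⟩)
  refine ⟨q, hq, hqp, fun j hj => hk j fun i hi => hTB i hi j hj, fun i hi x hx => ?_⟩
  have hx' : x ∈ p.K i := by
    rw [← (hk i fun i' hi' => hTB i' hi' i (hT i hi).ge).1]
    exact hx
  exact ⟨hε i hi x hx', fun h1 ξ hξ h2 => hd i hi (x, ξ) ((hF i x ξ).2 ⟨hx', h1, hξ, h2⟩)⟩

variable [Om1 W]

theorem sap_step (hC : Ladder C) {r' : Ordinal.{0}} (IH : SAP C r') {ι : Type} [Finite ι]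
    {Z : Set W} (hZ : Unb Z) (p : W → Cd W) (σ τ : W → ι → Nd W)
    (s : W → Nd W) (hp : ∀ k ∈ Z, Valid C (p k))
    (h1 : ∀ k ∈ Z, ∀ l, (p k).bs.Kn false (σ k l) ∧ k ≤ (σ k l).1)
    (h2 : ∀ k ∈ Z, ∀ l, (p k).bs.Kn true (τ k l) ∧ k ≤ (τ k l).1)
    (h3 : ∀ k ∈ Z, (p k).bs.Kn false (s k) ∧ k ≤ (s k).1) (e : W → W)
    (J : Finset (Ix W)) (hJ1 : ∀ k ∈ Z, ∀ k' ∈ Z, k < k' → ∀ i, Sp (p k) i → Sp (p k') i → i ∈ J)
    (hJ2 : ∀ i ∈ J, rk i ≤ r') :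
    ∃ k ∈ Z, ∃ k' ∈ Z, k < k' ∧ ∃ q η, Out C p σ τ s e k k' q η := by
  classical
  let T : Finset (Ix W) := J.filter fun i => rk i = r'
  have hT : ∀ i ∈ T, rk i = r' := fun i hi => (Finset.mem_filter.1 hi).2
  let S : Set (Ix W) := {i | rk i < r'}
  have hS : ∀ j ∈ S, Below j ⊆ S := fun j hj k hk => (rk_lt hk).trans hj
  have hTS : ∀ i ∈ T, i ∉ S := fun i hi h => absurd (hT i hi) (ne_of_lt h)
  -- choice of the conditions
  obtain ⟨c, hc⟩ := avoid hZ fun k => T.biUnion fun i => ((p k).K i).image fun x => x.2.1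
  have hkk : ∀ ε, ∃ k, c < ε → k ∈ Z ∧ ε < k ∧ ∀ i ∈ T, ∀ x ∈ (p k).K i, x.2.1 ≠ ε := by
    intro ε
    by_cases hε : c < ε
    · obtain ⟨k, ⟨hk, hk'⟩, hlt⟩ := hc ε hε ε
      refine ⟨k, fun _ => ⟨hk, hlt, fun i hi x hx heq => hk' ?_⟩⟩
      exact Finset.mem_biUnion.2 ⟨i, hi, Finset.mem_image.2 ⟨x, hx, heq⟩⟩
    · exact ⟨ε, fun h => absurd h hε⟩
  choose kk hkk using hkk
  have hqq : ∀ ε, ∃ q : Cd W, c < ε → Valid C q ∧ Le C q (p (kk ε)) ∧
      (∀ j, r' ≤ rk j → q.K j = (p (kk ε)).K j ∧ (j ∉ T → q.φ j = (p (kk ε)).φ j)) ∧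
      ∀ i ∈ T, ∀ x ∈ q.K i, x.2.1 ≠ ε ∧ (ε < x.2.1 → ∀ ξ ∈ C x.2.1, ξ < ε → Dec q i x.2 ξ) := by
    intro ε
    by_cases hε : c < ε
    · obtain ⟨q, hq⟩ := sap_prep hC (hp _ (hkk ε hε).1) T r' hT ε (hkk ε hε).2.2
      exact ⟨q, fun _ => hq⟩
    · exact ⟨p ε, fun h => absurd h hε⟩
  choose qq hqq using hqq
  -- pressing down
  let LV : W → Finset W := fun ε => T.biUnion fun i =>
    (((qq ε).K i).image fun x => x.2.1) ∪ (((qq ε).φ i).image fun y => y.1.1)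
  have hLVK : ∀ ε, ∀ i ∈ T, ∀ x ∈ (qq ε).K i, x.2.1 ∈ LV ε := fun ε i hi x hx =>
    Finset.mem_biUnion.2 ⟨i, hi, Finset.mem_union_left _ (Finset.mem_image.2 ⟨x, hx, rfl⟩)⟩
  have hLVφ : ∀ ε, ∀ i ∈ T, ∀ y ∈ (qq ε).φ i, y.1.1 ∈ LV ε := fun ε i hi y hy =>
    Finset.mem_biUnion.2 ⟨i, hi, Finset.mem_union_right _ (Finset.mem_image.2 ⟨y, hy, rfl⟩)⟩
  have hf : ∀ ε, ∃ g, (∃ ξ, ξ < ε) → g < ε ∧ ∀ l ∈ LV ε, l < ε → l ≤ g := by
    intro ε
    by_cases hε : ∃ ξ, ξ < ε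
    · obtain ⟨g, hg⟩ := exists_bound_lt hε (LV ε)
      exact ⟨g, fun _ => hg⟩
    · exact ⟨ε, fun h => absurd h hε⟩
  choose f hf using hf
  obtain ⟨δ, hδ⟩ := press f c fun ε hε _ => (hf ε hε.1).1
  -- a level above everything that may occur in the low parts
  obtain ⟨γ, hγ⟩ := bdd_finset (insert δ (T.image fun i => i.e δ))
  have hγδ : δ < γ := hγ δ (Finset.mem_insert_self _ _)
  have hγe : ∀ i ∈ T, i.e δ < γ := fun i hi =>
    hγ _ (Finset.mem_insert_of_mem (Finset.mem_image.2 ⟨i, hi, rfl⟩))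
  have hN := countable_names γ
  set N := {σ : Nd W | σ.1 < γ ∧ ∀ ξ, σ.2 ξ ≠ 0 → ξ < γ} with hNdef
  have hmemN : ∀ (B : Bs W) (b : Bool) (σ : Nd W), B.Kn b σ → σ.1 < γ → σ ∈ N :=
    fun B b σ h hlt => ⟨hlt, fun ξ hξ => (h.2 ξ hξ).2.1.trans hlt⟩
  -- the number of high promises
  let H : W → Finset (Ix W × (Nd W × Nd W)) := fun ε => T.biUnion fun i =>
    (((qq ε).K i).filter fun x => ε < x.2.1).image fun x => (i, x)
  have hH : ∀ ε i x, (i, x) ∈ H ε ↔ i ∈ T ∧ x ∈ (qq ε).K i ∧ ε < x.2.1 := by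
    intro ε i x
    constructor
    · intro h
      obtain ⟨j, hj, h4⟩ := Finset.mem_biUnion.1 h
      obtain ⟨z, hz, h5⟩ := Finset.mem_image.1 h4
      obtain ⟨rfl, rfl⟩ := Prod.mk.inj h5
      exact ⟨hj, (Finset.mem_filter.1 hz).1, (Finset.mem_filter.1 hz).2⟩
    · rintro ⟨h4, h5, h6⟩
      exact Finset.mem_biUnion.2 ⟨i, h4, Finset.mem_image.2 ⟨x, Finset.mem_filter.2 ⟨h5, h6⟩, rfl⟩⟩
  obtain ⟨n, hn⟩ := pigeon hδ (fun ε => (H ε).card) (Set.to_countable _)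
  have hen : ∀ ε, ∃ f : Fin n → Ix W × (Nd W × Nd W), (H ε).card = n →
      (∀ l, f l ∈ H ε) ∧ ∀ z ∈ H ε, ∃ l, f l = z := by
    intro ε
    by_cases hε : (H ε).card = n
    · let eq := (H ε).equivFinOfCardEq hε
      refine ⟨fun l => (eq.symm l).1, fun _ => ⟨fun l => (eq.symm l).2, fun z hz => ?_⟩⟩
      exact ⟨eq ⟨z, hz⟩, by simp⟩
    · obtain ⟨w⟩ : Nonempty W := inferInstance
      exact ⟨fun _ => (.base, ((w, 0), (w, 0))), fun h => absurd h hε⟩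
  choose en hen using hen
  -- the types
  let lK : W → Finset (Ix W × (Nd W × Nd W)) := fun ε => T.biUnion fun i =>
    (((qq ε).K i).filter fun x => x.2.1 < ε).image fun x => (i, x)
  have hlK : ∀ ε i x, (i, x) ∈ lK ε ↔ i ∈ T ∧ x ∈ (qq ε).K i ∧ x.2.1 < ε := by
    intro ε i x
    constructor
    · intro h
      obtain ⟨j, hj, h4⟩ := Finset.mem_biUnion.1 h
      obtain ⟨z, hz, h5⟩ := Finset.mem_image.1 h4
      obtain ⟨rfl, rfl⟩ := Prod.mk.inj h5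
      exact ⟨hj, (Finset.mem_filter.1 hz).1, (Finset.mem_filter.1 hz).2⟩
    · rintro ⟨h4, h5, h6⟩
      exact Finset.mem_biUnion.2 ⟨i, h4, Finset.mem_image.2 ⟨x, Finset.mem_filter.2 ⟨h5, h6⟩, rfl⟩⟩
  let lP : W → Finset (Ix W × (Nd W × ℕ)) := fun ε => T.biUnion fun i =>
    (((qq ε).φ i).filter fun y => y.1.1 < ε).image fun y => (i, y)
  have hlP : ∀ ε i y, (i, y) ∈ lP ε ↔ i ∈ T ∧ y ∈ (qq ε).φ i ∧ y.1.1 < ε := by
    intro ε i y
    constructor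
    · intro h
      obtain ⟨j, hj, h4⟩ := Finset.mem_biUnion.1 h
      obtain ⟨z, hz, h5⟩ := Finset.mem_image.1 h4
      obtain ⟨rfl, rfl⟩ := Prod.mk.inj h5
      exact ⟨hj, (Finset.mem_filter.1 hz).1, (Finset.mem_filter.1 hz).2⟩
    · rintro ⟨h4, h5, h6⟩
      exact Finset.mem_biUnion.2 ⟨i, h4, Finset.mem_image.2 ⟨y, Finset.mem_filter.2 ⟨h5, h6⟩, rfl⟩⟩
  let ty : W → Finset (Ix W × (Nd W × Nd W)) × Finset (Ix W × (Nd W × ℕ)) × (Fin n → Ix W) :=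
    fun ε => (lK ε, lP ε, fun l => (en ε l).1)
  have hcK : {s : Finset (Ix W × (Nd W × Nd W)) |
      (s : Set (Ix W × (Nd W × Nd W))) ⊆ (T : Set (Ix W)) ×ˢ (N ×ˢ N)}.Countable :=
    countable_finsets (T.countable_toSet.prod (hN.prod hN))
  have hcP : {s : Finset (Ix W × (Nd W × ℕ)) |
      (s : Set (Ix W × (Nd W × ℕ))) ⊆ (T : Set (Ix W)) ×ˢ (N ×ˢ Set.univ)}.Countable :=
    countable_finsets (T.countable_toSet.prod (hN.prod Set.countable_univ))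
  have hcG : (Set.pi Set.univ fun _ : Fin n => (T : Set (Ix W))).Countable :=
    (Set.Finite.pi' fun _ => T.finite_toSet).countable.mono fun f hf i => hf i (Set.mem_univ i)
  obtain ⟨t, ht⟩ := pigeon hn ty ((hcK.prod (hcP.prod hcG)).mono (by
    rintro _ ⟨ε, ⟨⟨hε1, hε2, hε3⟩, hε4⟩, rfl⟩
    have hlow : ∀ l ∈ LV ε, l < ε → l ≤ δ := fun l hl hlt => hε3 ▸ (hf ε hε1.1).2 l hl hlt
    obtain ⟨hqv, hqle, hqk, hqd⟩ := hqq ε hε2
    refine ⟨?_, ?_, ?_⟩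
    · rintro ⟨i, x⟩ hx
      obtain ⟨hi, hxK, hlt⟩ := (hlK ε i x).1 hx
      have hle : x.2.1 ≤ δ := hlow _ (hLVK ε i hi x hxK) hlt
      refine ⟨hi, hmemN _ _ _ ((hqv i).k1 x hxK) ?_, hmemN _ _ _ ((hqv i).k2 x hxK) ?_⟩
      · rw [(hqv i).lev x hxK]
        exact (i.e_mono hle).trans_lt (hγe i hi)
      · exact hle.trans_lt hγδ
    · rintro ⟨i, y⟩ hy
      obtain ⟨hi, hyφ, hlt⟩ := (hlP ε i y).1 hy
      exact ⟨hi, hmemN _ _ _ ((hqv i).k3 y hyφ)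
        ((hlow _ (hLVφ ε i hi y hyφ) hlt).trans_lt hγδ), Set.mem_univ _⟩
    · intro l _
      have h4 := (hen ε hε4).1 l
      have h5 : ((en ε l).1, (en ε l).2) ∈ H ε := h4
      exact ((hH ε _ _).1 h5).1))
  -- thinning out
  have hbd : ∀ ε, ∃ b, (∀ l ∈ LV ε, l < b) ∧ kk ε < b ∧ (s (kk ε)).1 < b := by
    intro ε
    obtain ⟨b, hb⟩ := bdd_finset (insert (kk ε) (insert (s (kk ε)).1 (LV ε)))
    exact ⟨b, fun l hl => hb l (Finset.mem_insert_of_mem (Finset.mem_insert_of_mem hl)),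
      hb _ (Finset.mem_insert_self _ _),
      hb _ (Finset.mem_insert_of_mem (Finset.mem_insert_self _ _))⟩
  choose bd hbd using hbd
  obtain ⟨Z', hZ', hU, hthin⟩ := thin ht bd
  have hZ1 : ∀ ε ∈ Z', Lim ε ∧ c < ε ∧ (H ε).card = n ∧ ty ε = t := fun ε hε =>
    ⟨(hZ' hε).1.1.1, (hZ' hε).1.1.2.1, (hZ' hε).1.2, (hZ' hε).2⟩
  -- the function for the induction hypothesis
  have he' : ∀ ξ, ∃ m, e ξ ≤ m ∧ ∀ i ∈ T, i.e ξ ≤ m := by
    intro ξ
    obtain ⟨b, hb⟩ := bdd_finset (insert (e ξ) (T.image fun i => i.e ξ))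
    exact ⟨b, (hb _ (Finset.mem_insert_self _ _)).le,
      fun i hi => (hb _ (Finset.mem_insert_of_mem (Finset.mem_image.2 ⟨i, hi, rfl⟩))).le⟩
  choose e' he'1 he'2 using he'
  have henH : ∀ ε ∈ Z', ∀ l, (en ε l).1 ∈ T ∧ (en ε l).2 ∈ (qq ε).K (en ε l).1 ∧
      ε < (en ε l).2.2.1 := fun ε hε l =>
    (hH ε _ _).1 ((hen ε (hZ1 ε hε).2.2.1).1 l)
  obtain ⟨ε, hε, ε', hε', hlt, q₀, η, hO⟩ := IH (ι ⊕ Fin n) Z' hU (fun ε => rst (qq ε) S)
    (fun ε => Sum.elim (σ (kk ε)) (fun l => (en ε l).2.1))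
    (fun ε => Sum.elim (τ (kk ε)) (fun l => (en ε l).2.2)) (fun ε => s (kk ε))
    (fun ε hε => rst_valid (hqq ε (hZ1 ε hε).2.1).1 S)
    (fun ε hε i hi => by
      by_contra hcon
      rcases hi with hi | hi
      · exact hi (rst_K_nmem hcon)
      · exact hi (rst_φ_nmem hcon))
    (fun ε hε l => by
      obtain ⟨hqv, hqle, hqk, hqd⟩ := hqq ε (hZ1 ε hε).2.1
      obtain ⟨hk1, hk2, _⟩ := hkk ε (hZ1 ε hε).2.1
      rcases l with l | l
      · exact ⟨(h1 _ hk1 l).1.mono hqle.bs, hk2.le.trans (h1 _ hk1 l).2⟩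
      · obtain ⟨h4, h5, h6⟩ := henH ε hε l
        refine ⟨(hqv _).k1 _ h5, ?_⟩
        show ε ≤ (en ε l).2.1.1
        rw [(hqv _).lev _ h5]
        exact h6.le.trans (Ix.le_e _ _))
    (fun ε hε l => by
      obtain ⟨hqv, hqle, hqk, hqd⟩ := hqq ε (hZ1 ε hε).2.1
      obtain ⟨hk1, hk2, _⟩ := hkk ε (hZ1 ε hε).2.1
      rcases l with l | l
      · exact ⟨(h2 _ hk1 l).1.mono hqle.bs, hk2.le.trans (h2 _ hk1 l).2⟩
      · obtain ⟨h4, h5, h6⟩ := henH ε hε l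
        exact ⟨(hqv _).k2 _ h5, h6.le⟩)
    (fun ε hε => by
      obtain ⟨hqv, hqle, hqk, hqd⟩ := hqq ε (hZ1 ε hε).2.1
      obtain ⟨hk1, hk2, _⟩ := hkk ε (hZ1 ε hε).2.1
      exact ⟨(h3 _ hk1).1.mono hqle.bs, hk2.le.trans (h3 _ hk1).2⟩) e'
  obtain ⟨hqv, hqle, hqk, hqd⟩ := hqq ε (hZ1 ε hε).2.1
  obtain ⟨hqv', hqle', hqk', hqd'⟩ := hqq ε' (hZ1 ε' hε').2.1
  obtain ⟨hk1, hk2, _⟩ := hkk ε (hZ1 ε hε).2.1
  obtain ⟨hk1', hk2', _⟩ := hkk ε' (hZ1 ε' hε').2.1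
  have hty : ty ε = ty ε' := (hZ1 ε hε).2.2.2.trans (hZ1 ε' hε').2.2.2.symm
  have htK : lK ε = lK ε' := congrArg Prod.fst hty
  have htP : lP ε = lP ε' := congrArg (fun z => z.2.1) hty
  have htG : ∀ l, (en ε l).1 = (en ε' l).1 := fun l =>
    congrFun (congrArg (fun z => z.2.2) hty) l
  have hbε : ∀ l ∈ LV ε, l < ε' := fun l hl => ((hbd ε).1 l hl).trans (hthin ε hε ε' hε' hlt)
  have hB : q₀.bs.Le (qq ε).bs := hO.le.bs
  have hB' : q₀.bs.Le (qq ε').bs := hO.le'.bs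
  have hkklt : kk ε < kk ε' := ((hbd ε).2.1.trans (hthin ε hε ε' hε' hlt)).trans hk2'
  -- the local gluing
  have hGl : ∀ j ∈ T, Gl C j.e q₀.bs ((qq ε).K j) ((qq ε').K j) ((qq ε).φ j) ((qq ε').φ j)
      ε ε' η := by
    intro j hj
    have hhigh : ∀ x ∈ (qq ε).K j, ε ≤ x.2.1 → ∃ l, en ε l = (j, x) := fun x hx hle =>
      (hen ε (hZ1 ε hε).2.2.1).2 (j, x) ((hH ε j x).2 ⟨hj, hx,
        lt_of_le_of_ne hle (Ne.symm (hqd j hj x hx).1)⟩)
    have hhigh' : ∀ x ∈ (qq ε').K j, ε' ≤ x.2.1 → ∃ l, en ε' l = (j, x) := fun x hx hle =>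
      (hen ε' (hZ1 ε' hε').2.2.1).2 (j, x) ((hH ε' j x).2 ⟨hj, hx,
        lt_of_le_of_ne hle (Ne.symm (hqd' j hj x hx).1)⟩)
    refine ⟨(hqv j).mono hB, (hqv' j).mono hB', ?_, ?_, ?_, ?_, ?_, ?_, ?_, ?_, ?_⟩
    · intro x hx hlt'
      have h4 : (j, x) ∈ lK ε := (hlK ε j x).2 ⟨hj, hx, hlt'⟩
      rw [htK] at h4
      exact ((hlK ε' j x).1 h4).2.1
    · intro x hx hlt'
      have h4 : (j, x) ∈ lK ε' := (hlK ε' j x).2 ⟨hj, hx, hlt'⟩
      rw [← htK] at h4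
      exact ((hlK ε j x).1 h4).2
    · intro y hy hlt'
      have h4 : (j, y) ∈ lP ε := (hlP ε j y).2 ⟨hj, hy, hlt'⟩
      rw [htP] at h4
      exact ((hlP ε' j y).1 h4).2.1
    · intro y hy hlt'
      have h4 : (j, y) ∈ lP ε' := (hlP ε' j y).2 ⟨hj, hy, hlt'⟩
      rw [← htP] at h4
      exact ((hlP ε j y).1 h4).2
    · exact fun x hx => hbε _ (hLVK ε j hj x hx)
    · exact fun y hy => hbε _ (hLVφ ε j hj y hy)
    · intro x hx hle ξ hξ hlt'
      obtain ⟨h4, h5⟩ := hqd' j hj x hx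
      obtain ⟨y, hy, h6, h7⟩ := h5 (lt_of_le_of_ne hle (Ne.symm h4)) ξ hξ hlt'
      exact ⟨y, hy, h6, (Bs.ag_iff ((hqv' j).k3 y hy) ((hqv' j).k2 x hx) hB').2 h7⟩
    · intro x hx hle
      obtain ⟨l, hl⟩ := hhigh x hx hle
      have h4 := (henH ε' hε' l).2.1
      rw [← htG l, hl] at h4
      refine ⟨(en ε' l).2, h4, ?_, ?_⟩
      · have h5 := hO.S1 (Sum.inr l)
        simp only [Sum.elim_inr, hl] at h5
        exact h5.mono (he'2 η j hj)
      · have h5 := hO.T1 (Sum.inr l)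
        simp only [Sum.elim_inr, hl] at h5
        exact h5
    · intro x hx hle x' hx' hle'
      obtain ⟨l, hl⟩ := hhigh x hx hle
      obtain ⟨l', hl'⟩ := hhigh' x' hx' hle'
      have h5 := hO.T2 (Sum.inr l) (Sum.inr l')
      simp only [Sum.elim_inr, hl, hl'] at h5
      exact h5
  have hside : ∀ j, j ∉ S → j ∉ T → ¬ (Sp (qq ε) j ∧ Sp (qq ε') j) := by
    rintro j hjS hjT ⟨h4, h5⟩
    have hr : r' ≤ rk j := not_lt.1 hjS
    have h6 : Sp (p (kk ε)) j := by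
      unfold Sp at h4 ⊢
      rwa [(hqk j hr).1, (hqk j hr).2 hjT] at h4
    have h7 : Sp (p (kk ε')) j := by
      unfold Sp at h5 ⊢
      rwa [(hqk' j hr).1, (hqk' j hr).2 hjT] at h5
    have h8 := hJ1 _ hk1 _ hk1' hkklt j h6 h7
    exact hjT (Finset.mem_filter.2 ⟨h8, le_antisymm (hJ2 j h8) hr⟩)
  have hside' : ∀ j, j ∉ S → j ∉ T →
      ((qq ε).K j = ∅ ∧ (qq ε).φ j = ∅) ∨ ((qq ε').K j = ∅ ∧ (qq ε').φ j = ∅) := by
    intro j hjS hjT
    have := hside j hjS hjT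
    unfold Sp at this
    by_contra hcon
    apply this
    constructor
    · by_contra h
      push Not at h
      exact hcon (Or.inl h)
    · by_contra h
      push Not at h
      exact hcon (Or.inr h)
  let q := glue (qq ε) (qq ε') q₀ S
  have hval : Valid C q := by
    intro j
    by_cases hjS : j ∈ S
    · show VAt C j.e q₀.bs (q.K j) (q.φ j)
      rw [show q.K j = q₀.K j from glue_K_mem hjS, show q.φ j = q₀.φ j from glue_φ_mem hjS]
      exact hO.val j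
    · show VAt C j.e q₀.bs (q.K j) (q.φ j)
      rw [show q.K j = _ from glue_K_nmem hjS, show q.φ j = _ from glue_φ_nmem hjS]
      by_cases hjT : j ∈ T
      · exact (hGl j hjT).union j.e_mono hC.lt
      · rcases hside' j hjS hjT with ⟨h4, h5⟩ | ⟨h4, h5⟩
        · rw [h4, h5, Finset.empty_union, Finset.empty_union]
          exact (hqv' j).mono hB'
        · rw [h4, h5, Finset.union_empty, Finset.union_empty]
          exact (hqv j).mono hB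
  have hle : Le C q (qq ε) := by
    refine glue_le hS hO.le ?_ ?_ ?_
    · intro j hj
      rw [glue_K_nmem hj]
      exact Finset.subset_union_left
    · intro j hj
      rw [glue_φ_nmem hj]
      exact Finset.subset_union_left
    · intro j hj x hx y hy hn
      rw [glue_φ_nmem hj] at hy
      rcases Finset.mem_union.1 hy with hy | hy
      · exact absurd hy hn
      · by_cases hjT : j ∈ T
        · exact (hGl j hjT).new hC.lt x hx y hy hn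
        · exfalso
          rcases hside' j hj hjT with ⟨h4, h5⟩ | ⟨h4, h5⟩
          · rw [h4] at hx
            exact absurd hx (Finset.notMem_empty _)
          · rw [h5] at hy
            exact absurd hy (Finset.notMem_empty _)
  have hle' : Le C q (qq ε') := by
    refine glue_le hS hO.le' ?_ ?_ ?_
    · intro j hj
      rw [glue_K_nmem hj]
      exact Finset.subset_union_right
    · intro j hj
      rw [glue_φ_nmem hj]
      exact Finset.subset_union_right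
    · intro j hj x hx y hy hn
      rw [glue_φ_nmem hj] at hy
      rcases Finset.mem_union.1 hy with hy | hy
      · by_cases hjT : j ∈ T
        · exact (hGl j hjT).new' hC.lt x hx y hy hn
        · exfalso
          rcases hside' j hj hjT with ⟨h4, h5⟩ | ⟨h4, h5⟩
          · rw [h5] at hy
            exact absurd hy (Finset.notMem_empty _)
          · rw [h4] at hx
            exact absurd hx (Finset.notMem_empty _)
      · exact absurd hy hn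
  refine ⟨kk ε, hk1, kk ε', hk1', hkklt, q, η, hval, hle.trans hqv hval hqle,
    hle'.trans hqv' hval hqle', hO.lt.trans hk2, ?_, fun l => ?_, fun l => ?_, fun l l' => ?_, ?_⟩
  · exact ((hbd ε).2.2.trans (hthin ε hε ε' hε' hlt)).trans hk2'
  · exact (hO.S1 (Sum.inl l)).mono (he'1 η)
  · exact hO.T1 (Sum.inl l)
  · exact hO.T2 (Sum.inl l) (Sum.inl l')
  · exact hO.S2

end Cd

end Pool.Agent.Work.MP_0201f6_lc
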