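import Pool.Agent.Work.MP_0201f6_lc.A7

/-!
Strong amalgamation for all conditions, from the base case.
-/

namespace Pool.Agent.Work.MP_0201f6_lc

/-- strong amalgamation of base conditions -/
def SapBase (W : Type) [LinearOrder W] : Prop :=
  ∀ (ι : Type) [Finite ι] (Z : Set W) (_ : Unb Z) (p : W → Bs W) (σ τ : W → ι → Nd W)
    (s : W → Nd W) (_ : ∀ k ∈ Z, ∀ l, (p k).Kn false (σ k l) ∧ k ≤ (σ k l).1)
    (_ : ∀ k ∈ Z, ∀ l, (p k).Kn true (τ k l) ∧ k ≤ (τ k l).1)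
    (_ : ∀ k ∈ Z, (p k).Kn false (s k) ∧ k ≤ (s k).1) (e : W → W),
    ∃ k ∈ Z, ∃ k' ∈ Z, k < k' ∧ ∃ q : Bs W, q.Le (p k) ∧ q.Le (p k') ∧ ∃ η, η < k ∧ (s k).1 < k' ∧
      (∀ l, q.Ag false (σ k l) (σ k' l) (e η)) ∧ (∀ l, q.Ag true (τ k l) (τ k' l) η) ∧
      (∀ l l', ∃ ξ ∈ q.u, ξ ≤ η ∧ q.vl true (τ k l) ξ ≠ q.vl true (τ k' l') ξ) ∧
      q.Ag false (s k) (s k') (s k).1

namespace Cd

variable {W : Type} [LinearOrder W] {C : W → Set W}

theorem sap_zero (hb : SapBase W) : SAP C 0 := by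
  intro ι _ Z hZ p σ τ s hp hr h1 h2 h3 e
  obtain ⟨k, hk, k', hk', hlt, q, hq, hq', η, hη, hs, S1, T1, T2, S2⟩ :=
    hb ι Z hZ (fun k => (p k).bs) σ τ s h1 h2 h3 e
  have hemp : ∀ k ∈ Z, ∀ i, (p k).K i = ∅ ∧ (p k).φ i = ∅ := by
    intro k hk i
    by_contra hcon
    have : Sp (p k) i := by
      unfold Sp
      by_contra h
      push Not at h
      exact hcon h
    exact absurd (hr k hk i this) (not_lt.2 (zero_le))
  have hle : ∀ k ∈ Z, q.Le (p k).bs → Le C (emp q) (p k) := by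
    intro k hk h
    refine ⟨h, fun i => ?_⟩
    rw [(hemp k hk i).1, (hemp k hk i).2]
    exact ⟨Finset.empty_subset _, Finset.empty_subset _,
      fun x hx => absurd hx (Finset.notMem_empty _)⟩
  exact ⟨k, hk, k', hk', hlt, emp q, η, emp_valid q, hle k hk hq, hle k' hk' hq', hη, hs, S1, T1,
    T2, S2⟩

variable [Om1 W]

theorem sap_all (hb : SapBase W) (hC : Ladder C) (r : Ordinal.{0}) : SAP C r := by
  induction r using WellFoundedLT.induction with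
  | ind r IH =>
    by_cases hr0 : r = 0
    · rw [hr0]
      exact sap_zero hb
    intro ι _ Z hZ p σ τ s hp hr h1 h2 h3 e
    obtain ⟨J, Z', hZ', hU, hJ, hJ'⟩ := delta hZ fun k => (p k).fin.toFinset
    have hr' : ∃ r' < r, ∀ i ∈ J, rk i ≤ r' := by
      rcases J.eq_empty_or_nonempty with hJe | hJe
      · refine ⟨0, lt_of_le_of_ne (zero_le) (Ne.symm hr0), fun i hi => ?_⟩
        rw [hJe] at hi
        exact absurd hi (Finset.notMem_empty _)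
      · obtain ⟨i, hi, hmax⟩ := J.exists_max_image rk hJe
        obtain ⟨w⟩ : Nonempty W := inferInstance
        obtain ⟨k, hk, _⟩ := hU w
        have h4 := (Set.Finite.mem_toFinset _).1 (hJ k hk hi)
        exact ⟨rk i, hr k (hZ' hk) i h4, hmax⟩
    obtain ⟨r', hr'lt, hJr⟩ := hr'
    obtain ⟨k, hk, k', hk', hlt, q, η, hO⟩ := sap_step hC (IH r' hr'lt) hU p σ τ s
      (fun k hk => hp k (hZ' hk)) (fun k hk => h1 k (hZ' hk)) (fun k hk => h2 k (hZ' hk))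
      (fun k hk => h3 k (hZ' hk)) e J
      (fun k hk k' hk' hlt i hi hi' => hJ' k hk k' hk' hlt i ((Set.Finite.mem_toFinset _).2 hi)
        ((Set.Finite.mem_toFinset _).2 hi')) hJr
    exact ⟨k, hZ' hk, k', hZ' hk', hlt, q, η, hO⟩

/-- strong amalgamation -/
theorem sap (hb : SapBase W) (hC : Ladder C) {ι : Type} [Finite ι] {Z : Set W} (hZ : Unb Z)
    (p : W → Cd W) (σ τ : W → ι → Nd W) (s : W → Nd W) (hp : ∀ k ∈ Z, Valid C (p k))
    (h1 : ∀ k ∈ Z, ∀ l, (p k).bs.Kn false (σ k l) ∧ k ≤ (σ k l).1)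
    (h2 : ∀ k ∈ Z, ∀ l, (p k).bs.Kn true (τ k l) ∧ k ≤ (τ k l).1)
    (h3 : ∀ k ∈ Z, (p k).bs.Kn false (s k) ∧ k ≤ (s k).1) (e : W → W) :
    ∃ k ∈ Z, ∃ k' ∈ Z, k < k' ∧ ∃ q η, Out C p σ τ s e k k' q η :=
  sap_all hb hC (⨆ i : Ix W, Order.succ (rk i)) ι Z hZ p σ τ s hp
    (fun _ _ i _ => (Order.lt_succ _).trans_le
      (Ordinal.le_iSup (fun i : Ix W => Order.succ (rk i)) i)) h1 h2 h3 e

end Cd

end Pool.Agent.Work.MP_0201f6_lc
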