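import Pool.Agent.Work.MP_0201f6_lc.A8
import Pool.Agent.Work.MP_0201f6_lc_helper21.Interface
import Pool.Agent.Work.MP_6efb98_lc.RO

/-!
The poset of valid conditions and the truth values of basic statements.
-/

namespace Pool.Agent.Work.MP_0201f6_lc

open Pool.Agent.Work.MP_6efb98_lc (RO CCC)
open Pool.Agent.Work.MP_0201f6_lc_helper21 (W Node sv F1 F0)

/-- the poset of valid conditions -/
def Pt (C : W → Set W) : Type := {p : Cd W // Cd.Valid C p}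

variable {C : W → Set W}

instance : Preorder (Pt C) where
  le q p := Cd.Le C q.1 p.1
  le_refl p := Cd.Le.refl p.1
  le_trans _ q r h1 h2 := h1.trans q.2 (Subtype.prop _) h2

theorem Pt.le_def {p q : Pt C} : q ≤ p ↔ Cd.Le C q.1 p.1 := Iff.rfl

theorem Pt.bs {p q : Pt C} (h : q ≤ p) : q.1.bs.Le p.1.bs := h.bs

/-- the value of the generic sequence -/
def XV (C : W → Set W) (b : Bool) (α ξ : W) (n : ℕ) : RO (Pt C) :=
  RO.mk' (fun p => α ∈ p.1.bs.a ∧ ξ ∈ p.1.bs.u ∧ ξ < α ∧ p.1.bs.v b α ξ = n)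
    (fun _ _ h hq => ⟨hq.bs.a h.1, hq.bs.u h.2.1, h.2.2.1, by
      rw [hq.bs.v b _ h.1 _ h.2.1 h.2.2.1]
      exact h.2.2.2⟩)

theorem mem_XV {b : Bool} {α ξ : W} {n : ℕ} {p : Pt C} (hα : α ∈ p.1.bs.a) (hξ : ξ ∈ p.1.bs.u)
    (hlt : ξ < α) : p ∈ XV C b α ξ n ↔ p.1.bs.v b α ξ = n := by
  constructor
  · intro h
    obtain ⟨r, hr, _, _, _, h4⟩ := RO.mem_mk'.1 h p le_rfl
    rw [← h4]
    exact (hr.bs.v b α hα ξ hξ hlt).symm
  · intro h q hq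
    exact ⟨q, le_rfl, hq.bs.a hα, hq.bs.u hξ, hlt, by
      rw [hq.bs.v b α hα ξ hξ hlt]
      exact h⟩

/-- the name (perhaps not reduced) is known to the condition -/
def RK (p : Pt C) (s : Node) : Prop := s.1 ∈ p.1.bs.a ∧ ∀ ξ, s.2 ξ ≠ 0 → ξ ∈ p.1.bs.u

theorem RK.mono {p q : Pt C} {s : Node} (h : RK p s) (hq : q ≤ p) : RK q s :=
  ⟨hq.bs.a h.1, fun ξ hξ => hq.bs.u (h.2 ξ hξ)⟩

theorem rk_of_kn {p : Pt C} {b : Bool} {s : Node} (h : p.1.bs.Kn b s) : RK p s :=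
  ⟨h.1, fun ξ hξ => (h.2 ξ hξ).1⟩

theorem exists_levels (p : Pt C) (A U : Finset W) :
    ∃ q ≤ p, A ⊆ q.1.bs.a ∧ U ⊆ q.1.bs.u := by
  have hB : ((p.1.bs.addU U).addA A).Le p.1.bs := (Bs.addA_le _ _).trans (Bs.addU_le _ _)
  exact ⟨⟨Cd.wb p.1 _, Cd.wb_valid p.2 hB⟩, Cd.wb_le hB, Finset.subset_union_right,
    Finset.subset_union_right⟩

theorem exists_rk (p : Pt C) (s : Node) : ∃ q ≤ p, RK q s := by
  obtain ⟨q, hq, h1, h2⟩ := exists_levels p {s.1} s.2.support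
  exact ⟨q, hq, h1 (Finset.mem_singleton_self _), fun ξ hξ => h2 (Finsupp.mem_support_iff.2 hξ)⟩

theorem vl_mono' {p q : Pt C} (hq : q ≤ p) {b : Bool} {s : Node} (h : s.1 ∈ p.1.bs.a) {ξ : W}
    (hξ : ξ ∈ p.1.bs.u) (hlt : ξ < s.1) : q.1.bs.vl b s ξ = p.1.bs.vl b s ξ := by
  unfold Bs.vl
  rw [hq.bs.v b _ h ξ hξ hlt]

theorem mem_sv {p : Pt C} {b : Bool} {s : Node} (h : s.1 ∈ p.1.bs.a) {ξ : W}
    (hξ : ξ ∈ p.1.bs.u) (hlt : ξ < s.1) {n : ℕ} :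
    p ∈ sv (XV C b) s ξ n ↔ p.1.bs.vl b s ξ = n := by
  unfold sv Bs.vl
  by_cases h0 : s.2 ξ = 0
  · rw [if_pos h0, if_pos h0]
    exact mem_XV h hξ hlt
  · rw [if_neg h0, if_neg h0]
    by_cases h1 : s.2 ξ = n + 1
    · rw [if_pos h1]
      exact ⟨fun _ => by omega, fun _ => RO.mem_top p⟩
    · rw [if_neg h1]
      exact ⟨fun h => absurd h (RO.notMem_bot p), fun h => by omega⟩

-- the order of the trees
open Pool.Agent.Work.MP_0201f6_lc_helper21 renaming le → lle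

theorem mem_lle' {p : Pt C} {b : Bool} {s t : Node} : p ∈ lle (XV C b) s t ↔
    s.1 ≤ t.1 ∧ ∀ ξ < s.1, ∀ q ≤ p, ∃ r ≤ q, ∃ n, r ∈ sv (XV C b) s ξ n ∧ r ∈ sv (XV C b) t ξ n := by
  unfold Pool.Agent.Work.MP_0201f6_lc_helper21.le
  constructor
  · intro h
    have hle : s.1 ≤ t.1 := by
      obtain ⟨_, _, h1, _⟩ := RO.mem_iSup.1 h p le_rfl
      exact h1
    refine ⟨hle, fun ξ hξ q hq => ?_⟩
    rw [iSup_pos hle] at h
    have h1 := RO.mem_iInf.1 (RO.mem_iInf.1 h ξ) hξ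
    obtain ⟨r, hr, n, h2⟩ := RO.mem_iSup.1 h1 q hq
    exact ⟨r, hr, n, (RO.mem_inf.1 h2).1, (RO.mem_inf.1 h2).2⟩
  · rintro ⟨hle, h⟩
    rw [iSup_pos hle]
    refine RO.mem_iInf.2 fun ξ => RO.mem_iInf.2 fun hξ => RO.mem_iSup.2 fun q hq => ?_
    obtain ⟨r, hr, n, h1, h2⟩ := h ξ hξ q hq
    exact ⟨r, hr, n, RO.mem_inf.2 ⟨h1, h2⟩⟩

theorem mem_lle {p : Pt C} {b : Bool} {s t : Node} (hs : RK p s) (ht : RK p t) :
    p ∈ lle (XV C b) s t ↔ p.1.bs.Ag b s t s.1 := by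
  rw [mem_lle']
  constructor
  · rintro ⟨hle, h⟩
    refine ⟨le_rfl, hle, fun ξ hξ hlt => ?_⟩
    obtain ⟨r, hr, n, h1, h2⟩ := h ξ hlt p le_rfl
    rw [mem_sv (hs.mono hr).1 (hr.bs.u hξ) hlt, vl_mono' hr hs.1 hξ hlt] at h1
    rw [mem_sv (ht.mono hr).1 (hr.bs.u hξ) (hlt.trans_le hle),
      vl_mono' hr ht.1 hξ (hlt.trans_le hle)] at h2
    exact h1.trans h2.symm
  · rintro ⟨_, hle, h⟩
    refine ⟨hle, fun ξ hlt q hq => ?_⟩
    obtain ⟨r, hr, _, h2⟩ := exists_levels q ∅ {ξ}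
    have hξ : ξ ∈ r.1.bs.u := h2 (Finset.mem_singleton_self ξ)
    have hrp : r ≤ p := hr.trans hq
    refine ⟨r, hr, r.1.bs.vl b s ξ, (mem_sv (hs.mono hrp).1 hξ hlt).2 rfl,
      (mem_sv (ht.mono hrp).1 hξ (hlt.trans_le hle)).2 ?_⟩
    by_cases hp : ξ ∈ p.1.bs.u
    · rw [vl_mono' hrp hs.1 hp hlt, vl_mono' hrp ht.1 hp (hlt.trans_le hle)]
      exact (h ξ hp hlt).symm
    · have e1 : s.2 ξ = 0 := by
        by_contra hne
        exact hp (hs.2 ξ hne)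
      have e2 : t.2 ξ = 0 := by
        by_contra hne
        exact hp (ht.2 ξ hne)
      unfold Bs.vl
      rw [if_pos e1, if_pos e2]
      exact hrp.bs.coh b _ ht.1 _ hs.1 ξ hξ hp (hlt.trans_le hle) hlt

theorem lle_refl (p : Pt C) (b : Bool) (s : Node) : p ∈ lle (XV C b) s s := by
  refine RO.mem_iff.2 fun q _ => ?_
  obtain ⟨r, hr, h⟩ := exists_rk q s
  exact ⟨r, hr, (mem_lle h h).2 (Bs.Ag.refl le_rfl)⟩

theorem lle_trans {p : Pt C} {b : Bool} {s t u : Node} (h1 : p ∈ lle (XV C b) s t)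
    (h2 : p ∈ lle (XV C b) t u) : p ∈ lle (XV C b) s u := by
  refine RO.mem_iff.2 fun q hq => ?_
  obtain ⟨r1, hr1, hs⟩ := exists_rk q s
  obtain ⟨r2, hr2, ht⟩ := exists_rk r1 t
  obtain ⟨r3, hr3, hu⟩ := exists_rk r2 u
  have hs3 := (hs.mono hr2).mono hr3
  have ht3 := ht.mono hr3
  have hr : r3 ≤ q := (hr3.trans hr2).trans hr1
  refine ⟨r3, hr, (mem_lle hs3 hu).2 ?_⟩
  have h3 := (mem_lle hs3 ht3).1 (RO.down h1 (hr.trans hq))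
  have h4 := (mem_lle ht3 hu).1 (RO.down h2 (hr.trans hq))
  exact h3.trans (h4.mono h3.2.1)

theorem lle_level {p : Pt C} {b : Bool} {s t : Node} (h : p ∈ lle (XV C b) s t) : s.1 ≤ t.1 :=
  (mem_lle'.1 h).1

/-- two initial segments of the same node are comparable -/
theorem lle_of_lle {p : Pt C} {b : Bool} {s t u : Node} (h1 : p ∈ lle (XV C b) s u)
    (h2 : p ∈ lle (XV C b) t u) (hle : s.1 ≤ t.1) : p ∈ lle (XV C b) s t := by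
  refine RO.mem_iff.2 fun q hq => ?_
  obtain ⟨r1, hr1, hs⟩ := exists_rk q s
  obtain ⟨r2, hr2, ht⟩ := exists_rk r1 t
  obtain ⟨r3, hr3, hu⟩ := exists_rk r2 u
  have hs3 := (hs.mono hr2).mono hr3
  have ht3 := ht.mono hr3
  have hr : r3 ≤ q := (hr3.trans hr2).trans hr1
  refine ⟨r3, hr, (mem_lle hs3 ht3).2 ?_⟩
  have h3 := (mem_lle hs3 hu).1 (RO.down h1 (hr.trans hq))
  have h4 := (mem_lle ht3 hu).1 (RO.down h2 (hr.trans hq))
  exact h3.trans (h4.mono hle).symm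

/-- every known name has a reduced version -/
theorem exists_reduced {p : Pt C} {s : Node} (h : RK p s) (b : Bool) :
    ∃ s' : Node, s'.1 = s.1 ∧ p.1.bs.Kn b s' ∧ p ∈ lle (XV C b) s s' ∧ p ∈ lle (XV C b) s' s := by
  have h1 : p.1.bs.Kn b (p.1.bs.rs b s s.1) := Bs.rs_kn h.1 s
  have h2 : p.1.bs.Ag b (p.1.bs.rs b s s.1) s s.1 := Bs.rs_ag le_rfl
  exact ⟨p.1.bs.rs b s s.1, rfl, h1, (mem_lle h (rk_of_kn h1)).2 h2.symm,
    (mem_lle (rk_of_kn h1) h).2 h2⟩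

theorem xv_disj (b : Bool) (α ξ : W) (n m : ℕ) (hnm : n ≠ m) :
    XV C b α ξ n ⊓ XV C b α ξ m = ⊥ := by
  refine RO.ext fun p => ⟨fun h => ?_, fun h => absurd h (RO.notMem_bot p)⟩
  obtain ⟨h1, h2⟩ := RO.mem_inf.1 h
  obtain ⟨r, hr, h3, h4, h5, h6⟩ := RO.mem_mk'.1 h1 p le_rfl
  have h7 := (mem_XV h3 h4 h5).1 (RO.down h2 hr)
  exact absurd (h6.symm.trans h7) hnm

theorem xv_tot (b : Bool) (α ξ : W) (hlt : ξ < α) : (⨆ n, XV C b α ξ n) = ⊤ := by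
  rw [RO.eq_top_iff']
  intro p
  refine RO.mem_iSup.2 fun q _ => ?_
  obtain ⟨r, hr, h1, h2⟩ := exists_levels q {α} {ξ}
  exact ⟨r, hr, _, (mem_XV (h1 (Finset.mem_singleton_self _)) (h2 (Finset.mem_singleton_self _))
    hlt).2 rfl⟩

theorem xv_restr (b : Bool) (t : Node) (β : W) (hβ : β ≤ t.1) :
    (⨆ s : Node, ⨆ _ : s.1 = β, lle (XV C b) s t) = ⊤ := by
  rw [RO.eq_top_iff']
  intro p
  refine RO.mem_iSup₂.2 fun q _ => ?_
  obtain ⟨r, hr, ht⟩ := exists_rk q t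
  obtain ⟨r', hr', h1, _⟩ := exists_levels r {β} ∅
  have hk : r'.1.bs.Kn b (r'.1.bs.rs b t β) := Bs.rs_kn (h1 (Finset.mem_singleton_self _)) t
  exact ⟨r', hr'.trans hr, r'.1.bs.rs b t β, rfl,
    (mem_lle (rk_of_kn hk) (ht.mono hr')).2 (Bs.rs_ag hβ)⟩

theorem xv_ext (b : Bool) (s : Node) (β : W) (n : ℕ) (hβ : s.1 < β) :
    (⨆ t : Node, ⨆ _ : t.1 = β, lle (XV C b) s t ⊓ sv (XV C b) t s.1 n) = ⊤ := by
  rw [RO.eq_top_iff']
  intro p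
  refine RO.mem_iSup₂.2 fun q _ => ?_
  obtain ⟨r, hr, hs⟩ := exists_rk q s
  obtain ⟨r', hr', h1, h2⟩ := exists_levels r {β} {s.1}
  have hβa := h1 (Finset.mem_singleton_self β)
  have hsu := h2 (Finset.mem_singleton_self s.1)
  let f : W → ℕ := fun ξ => if ξ < s.1 then r'.1.bs.vl b s ξ else n
  have hk : r'.1.bs.Kn b (r'.1.bs.mkN b β f) := Bs.mkN_kn hβa f
  refine ⟨r', hr'.trans hr, r'.1.bs.mkN b β f, rfl, RO.mem_inf.2 ⟨?_, ?_⟩⟩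
  · refine (mem_lle (hs.mono hr') (rk_of_kn hk)).2 ⟨le_rfl, hβ.le, fun ξ hξ hlt => ?_⟩
    rw [Bs.mkN_vl hξ (hlt.trans hβ)]
    exact (if_pos hlt).symm
  · refine (mem_sv hβa hsu hβ).2 ?_
    rw [Bs.mkN_vl hsu hβ]
    exact if_neg (lt_irrefl _)

end Pool.Agent.Work.MP_0201f6_lc
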